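import Mathlib

set_option autoImplicit false

/-!
# Elementary lemmas on sums over blocks of digits
-/

namespace Pool.Agent.W157.MX

open Finset

lemma split (a b : ℕ) (F : ℕ → ℝ) :
    ∑ y ∈ range (a * b), F y = ∑ u ∈ range a, ∑ t ∈ range b, F (u * b + t) := by
  induction a with
  | zero => simp
  | succ a ih => rw [Nat.succ_mul, Finset.sum_range_add, ih, Finset.sum_range_succ]

lemma div_add {b u t : ℕ} (ht : t < b) : (u * b + t) / b = u := by
  rw [Nat.div_eq_iff (by omega)]
  constructor <;> omega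

lemma rep (g a d : ℕ) (F : ℕ → ℝ) :
    ∑ y ∈ range (g ^ (a + d)), F (y / g ^ d) = (g : ℝ) ^ d * ∑ y ∈ range (g ^ a), F y := by
  rw [pow_add, split, Finset.mul_sum]
  refine Finset.sum_congr rfl fun u _ => ?_
  have h : ∀ t ∈ range (g ^ d), F ((u * g ^ d + t) / g ^ d) = F u := by
    intro t ht
    rw [mem_range] at ht
    rw [div_add ht]
  rw [Finset.sum_congr rfl h, Finset.sum_const, card_range, nsmul_eq_mul]
  push_cast
  ring

lemma sq_rows (T : Finset ℕ) (f : ℕ → ℝ) : (∑ p ∈ T, f p) ^ 2 =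
    ∑ q ∈ T, ((f q) ^ 2 + 2 * ∑ p ∈ T.filter (fun p => p < q), f p * f q) := by
  have e1 : (∑ p ∈ T, f p) ^ 2 = ∑ p ∈ T, ∑ q ∈ T, f p * f q := by
    rw [sq, Finset.sum_mul_sum]
  rw [e1]
  have hsplit : ∀ p q, f p * f q = (if p = q then f q * f q else 0) + (if p < q then f p * f q else 0) +
      (if q < p then f q * f p else 0) := by
    intro p q
    rcases lt_trichotomy p q with h | h | h
    · rw [if_neg h.ne, if_pos h, if_neg (by omega)]
      ring
    · subst h
      simp
    · rw [if_neg h.ne', if_neg (by omega), if_pos h]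
      ring
  have e2 : ∑ p ∈ T, ∑ q ∈ T, f p * f q = ∑ p ∈ T, ∑ q ∈ T, ((if p = q then f q * f q else 0) +
      (if p < q then f p * f q else 0) + (if q < p then f q * f p else 0)) :=
    Finset.sum_congr rfl fun p _ => Finset.sum_congr rfl fun q _ => hsplit p q
  rw [e2]
  have h1 : ∑ p ∈ T, ∑ q ∈ T, (if p = q then f q * f q else 0) = ∑ q ∈ T, f q * f q := by
    refine Finset.sum_congr rfl fun p hp => ?_
    rw [Finset.sum_ite_eq, if_pos hp]
  have h2 : ∑ p ∈ T, ∑ q ∈ T, (if p < q then f p * f q else 0) =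
      ∑ q ∈ T, ∑ p ∈ T.filter (fun p => p < q), f p * f q := by
    rw [Finset.sum_comm]
    refine Finset.sum_congr rfl fun q _ => ?_
    rw [Finset.sum_filter]
  have h3 : ∑ p ∈ T, ∑ q ∈ T, (if q < p then f q * f p else 0) =
      ∑ q ∈ T, ∑ p ∈ T.filter (fun p => p < q), f p * f q := by
    refine Finset.sum_congr rfl fun q _ => ?_
    rw [Finset.sum_filter]
  simp only [Finset.sum_add_distrib]
  rw [h1, h2, h3, ← Finset.mul_sum]
  simp only [sq]
  ring

/-- from the first two moments to a weighted mean -/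
lemma half_mean {N : ℕ} (k : ℕ → ℕ) {m b : ℝ} (hm : 0 < m) (hb : 0 < b)
    (h1 : m * N ≤ ∑ y ∈ range N, (k y : ℝ)) (h2 : ∑ y ∈ range N, (k y : ℝ) ^ 2 ≤ b * N) :
    ∑ y ∈ range N, (1 / 2 : ℝ) ^ k y ≤ (1 - m ^ 2 / (2 * b)) * N := by
  classical
  rcases Nat.eq_zero_or_pos N with h0 | hN
  · subst h0
    simp
  have hN' : (0 : ℝ) < N := by exact_mod_cast hN
  set H := (range N).filter (fun y => k y ≠ 0) with hH
  have e1 : ∑ y ∈ range N, (k y : ℝ) = ∑ y ∈ H, (k y : ℝ) := by
    rw [hH, Finset.sum_filter]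
    refine Finset.sum_congr rfl fun y _ => ?_
    split_ifs with h
    · rfl
    · push Not at h
      rw [h]
      simp
  have h3 : (∑ y ∈ H, (k y : ℝ)) ^ 2 ≤ H.card * ∑ y ∈ H, (k y : ℝ) ^ 2 := sq_sum_le_card_mul_sum_sq
  have h4 : ∑ y ∈ H, (k y : ℝ) ^ 2 ≤ b * N :=
    (Finset.sum_le_sum_of_subset_of_nonneg (Finset.filter_subset _ _) fun _ _ _ => by positivity).trans h2
  have h5 : (m * N) ^ 2 ≤ H.card * (b * N) := by
    calc (m * N) ^ 2 ≤ (∑ y ∈ H, (k y : ℝ)) ^ 2 := by
          rw [← e1]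
          exact pow_le_pow_left₀ (by positivity) h1 2
      _ ≤ H.card * ∑ y ∈ H, (k y : ℝ) ^ 2 := h3
      _ ≤ H.card * (b * N) := mul_le_mul_of_nonneg_left h4 (Nat.cast_nonneg _)
  have h6 : m ^ 2 / b * N ≤ H.card := by
    rw [div_mul_eq_mul_div, div_le_iff₀ hb]
    have : m ^ 2 * N * N ≤ H.card * b * N := by nlinarith
    exact le_of_mul_le_mul_right this hN'
  have h7 : ∀ y ∈ range N, (1 / 2 : ℝ) ^ k y ≤ 1 - (if k y ≠ 0 then 1 / 2 else 0) := by
    intro y _
    split_ifs with h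
    · have : (1 / 2 : ℝ) ^ k y ≤ (1 / 2) ^ 1 :=
        pow_le_pow_of_le_one (by norm_num) (by norm_num) (by omega)
      linarith
    · push Not at h
      rw [h]
      norm_num
  refine (Finset.sum_le_sum h7).trans ?_
  rw [Finset.sum_sub_distrib, Finset.sum_const, card_range, nsmul_eq_mul, mul_one, ← Finset.sum_filter,
    ← hH, Finset.sum_const, nsmul_eq_mul]
  have e2 : m ^ 2 / (2 * b) = m ^ 2 / b / 2 := by
    field_simp
  rw [e2]
  nlinarith

/-- consecutive blocks -/
lemma chain_card {K : ℕ} (hK : 1 ≤ K) (z : ℕ → ℕ) (hz : ∀ j, z (j + 1) = K ^ 2 * z j)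
    (P : ℕ → Prop) [DecidablePred P] (J : ℕ) :
    ∑ j ∈ range J, ((Ioc (K * z j) (z (j + 1))).filter P).card ≤ ((Ioc (K * z 0) (z J)).filter P).card := by
  have hmono : ∀ j, K * z 0 ≤ K * z j := by
    intro j
    induction j with
    | zero => exact le_rfl
    | succ j ih =>
      refine ih.trans ?_
      rw [hz]
      exact Nat.mul_le_mul_left _ (Nat.le_mul_of_pos_left _ (by positivity))
  induction J with
  | zero => simp
  | succ J ih =>
    rw [Finset.sum_range_succ]
    have h1 : z J ≤ K * z J := Nat.le_mul_of_pos_left _ (by omega)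
    have h2 : K * z J ≤ z (J + 1) := by
      rw [hz, sq, mul_assoc]
      exact Nat.le_mul_of_pos_left _ (by omega)
    have hd : Disjoint ((Ioc (K * z 0) (z J)).filter P) ((Ioc (K * z J) (z (J + 1))).filter P) := by
      rw [Finset.disjoint_left]
      intro p hp hp'
      rw [mem_filter, mem_Ioc] at hp hp'
      omega
    calc _ ≤ ((Ioc (K * z 0) (z J)).filter P).card + ((Ioc (K * z J) (z (J + 1))).filter P).card :=
          Nat.add_le_add_right ih _
      _ = (((Ioc (K * z 0) (z J)).filter P) ∪ ((Ioc (K * z J) (z (J + 1))).filter P)).card :=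
          (Finset.card_union_of_disjoint hd).symm
      _ ≤ _ := by
          refine Finset.card_le_card ?_
          intro p hp
          rw [mem_union, mem_filter, mem_filter, mem_Ioc, mem_Ioc] at hp
          rw [mem_filter, mem_Ioc]
          have := hmono J
          rcases hp with ⟨⟨a1, a2⟩, a3⟩ | ⟨⟨a1, a2⟩, a3⟩
          · exact ⟨⟨a1, by omega⟩, a3⟩
          · exact ⟨⟨by omega, a2⟩, a3⟩

end Pool.Agent.W157.MX
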