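import Mathlib
import Pool.Agent.Q160.TB4

set_option autoImplicit false

/-!
# One window, uniformly
-/

namespace Pool.Agent.W157.MX

open Finset Filter Topology MeasureTheory
open Pool.Agent.W66L (rpi rpi_nonneg rpi_le_one)
open Pool.Agent.TH888.R (wt wt_nonneg)
open Pool.Agent.H305R2 (roughPart)
open Pool.Agent.Q160.TB (win_lower win_upper)

lemma sum_win (c H : ℕ) (hc : 1 ≤ c) (F : ℕ → ℝ) :
    ∑ y ∈ range H, F (c + y) = ∑ m ∈ Ioc (c - 1) (c - 1 + H), F m := by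
  refine Finset.sum_bij' (i := fun t _ => c + t) (j := fun m _ => m - c)
    ?_ ?_ ?_ ?_ ?_
  · intro x hx
    rw [mem_range] at hx
    rw [mem_Ioc]
    omega
  · intro m hm
    rw [mem_Ioc] at hm
    rw [mem_range]
    omega
  · intro x _
    omega
  · intro m hm
    rw [mem_Ioc] at hm
    omega
  · intro x _
    rfl

/-- the number of integers with prime rough part in a window of length `g ^ a` below `g ^ q` -/
theorem mean_unif : ∃ δ : ℝ, 0 < δ ∧ δ ≤ 1 / 4 ∧ ∀ g : ℕ, 2 ≤ g → ∃ c1 c2 : ℝ, 0 < c1 ∧ 0 < c2 ∧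
    ∀ᶠ q : ℕ in atTop, ∀ a c : ℕ, (1 - δ / 4) * q ≤ a → 3 * g ^ a ≤ c → c + g ^ a ≤ g ^ q →
      c1 * wt q * (g : ℝ) ^ a ≤ ∑ y ∈ range (g ^ a), rpi q (c + y) ∧
      ∑ y ∈ range (g ^ a), rpi q (c + y) ≤ c2 * wt q * (g : ℝ) ^ a := by
  obtain ⟨δ, η, hδ, hδ4, hη, hlow⟩ := win_lower
  refine ⟨δ, hδ, hδ4, fun g hg => ?_⟩
  obtain ⟨lg, hlg⟩ : ∃ lg, lg = Real.log g := ⟨_, rfl⟩
  have hgr : (2 : ℝ) ≤ g := by exact_mod_cast hg
  have hg0 : (0 : ℝ) < g := by linarith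
  have hlg0 : 0 < lg := by rw [hlg]; exact Real.log_pos (by linarith)
  obtain ⟨K, hK, hup⟩ := win_upper (κ := lg / 2) (by positivity)
  refine ⟨η / lg, K, by positivity, hK, ?_⟩
  filter_upwards [hup, hlow (lg / 2) (by positivity), eventually_ge_atTop 3] with q hupq hlowq hq3
    a c ha hc hcq
  have hq3' : (3 : ℝ) ≤ q := by exact_mod_cast hq3
  have hq0 : (0 : ℝ) < q := by linarith
  have hlq0 : 0 < Real.log q := Real.log_pos (by linarith)
  have hpw : ∀ k : ℕ, (g : ℝ) ^ k = Real.exp (lg * k) := by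
    intro k
    rw [mul_comm, Real.exp_nat_mul, hlg, Real.exp_log hg0]
  have hga1 : 1 ≤ g ^ a := Nat.one_le_pow _ _ (by omega)
  have hc1 : 1 ≤ c := by omega
  rw [sum_win c (g ^ a) hc1 (fun m => rpi q m)]
  obtain ⟨A, hA⟩ : ∃ A, A = c - 1 := ⟨_, rfl⟩
  rw [← hA]
  have hA2 : 2 * g ^ a ≤ A := by omega
  have hAH : A + g ^ a ≤ g ^ q := by omega
  have hAHr : ((A + g ^ a : ℕ) : ℝ) ≤ Real.exp (lg * q) := by
    rw [← hpw]
    exact_mod_cast hAH
  have hHr : ((g ^ a : ℕ) : ℝ) = Real.exp (lg * a) := by push_cast; exact hpw a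
  have hH0 : (0 : ℝ) < ((g ^ a : ℕ) : ℝ) := by rw [hHr]; exact Real.exp_pos _
  have hAH0 : (0 : ℝ) < ((A + g ^ a : ℕ) : ℝ) := by exact_mod_cast (by omega : 0 < A + g ^ a)
  have ha1 : (15 / 16 : ℝ) * q ≤ a := by nlinarith
  have hexpH : Real.exp (lg / 2 * q) ≤ ((g ^ a : ℕ) : ℝ) := by
    rw [hHr]
    refine Real.exp_le_exp.2 ?_
    nlinarith
  have hupper := hupq A (g ^ a) hexpH (by
    refine hAHr.trans ?_
    rw [hHr, ← Real.exp_mul]
    refine Real.exp_le_exp.2 ?_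
    nlinarith)
  have hlower := hlowq A (g ^ a) hexpH hA2 (by
    have h2 : ((A + g ^ a : ℕ) : ℝ) ^ (1 - δ / 2) ≤ (Real.exp (lg * q)) ^ (1 - δ / 2) :=
      Real.rpow_le_rpow hAH0.le hAHr (by linarith)
    refine h2.trans ?_
    rw [hHr, ← Real.exp_mul]
    refine Real.exp_le_exp.2 ?_
    have h1 : (q : ℝ) * (1 - δ / 2) ≤ a := by nlinarith
    calc lg * q * (1 - δ / 2) = lg * (q * (1 - δ / 2)) := by ring
      _ ≤ lg * a := mul_le_mul_of_nonneg_left h1 hlg0.le)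
  have hcast : ((g ^ a : ℕ) : ℝ) = (g : ℝ) ^ a := by push_cast; rfl
  rw [hcast] at hupper hlower
  have hga' : (0 : ℝ) < (g : ℝ) ^ a := by positivity
  constructor
  · have hA1 : (1 : ℝ) < A := by
      have : 2 ≤ A := by omega
      exact_mod_cast this
    have hlA0 : 0 < Real.log A := Real.log_pos hA1
    have hlA : Real.log A ≤ lg * q := by
      rw [Real.log_le_iff_le_exp (by linarith)]
      refine le_trans ?_ hAHr
      exact_mod_cast (by omega : A ≤ A + g ^ a)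
    refine le_trans ?_ hlower
    unfold wt
    calc η / lg * (Real.log q / q) * (g : ℝ) ^ a =
          η * (g : ℝ) ^ a * (Real.log q / (lg * q)) := by field_simp
      _ ≤ _ := by
          refine mul_le_mul_of_nonneg_left ?_ (by positivity)
          exact div_le_div_of_nonneg_left hlq0.le hlA0 hlA
  · refine hupper.trans (le_of_eq ?_)
    unfold wt
    ring

end Pool.Agent.W157.MX
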