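import Mathlib
import Pool.Agent.Q160.TB2

set_option autoImplicit false

/-!
# Pairs of integers with prime rough part in two windows with a common free part, uniformly

This is `Pool.Agent.Q160.TB.near_fam` with constants that do not depend on the windows.
-/

namespace Pool.Agent.W157.MX

open Finset Filter Topology MeasureTheory
open Pool.Agent.W66L
open Pool.Agent.H305R2 (roughPart roughPart_prime)
open Pool.Agent.Q160.TB (near_core win_upper smooth_win rpi_pos_arg)

/-- **Near pairs, uniformly in the windows.** -/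
theorem near_unif {g : ℕ} (hg : 2 ≤ g) {κ : ℝ} (hκ : 0 < κ) (D L : ℕ) : ∃ K : ℝ, 0 < K ∧
    ∀ᶠ p : ℕ in atTop, ∀ q : ℕ, p < q → q ≤ L * p → ∀ a d cp cq : ℕ, κ * p ≤ a →
    κ * q ≤ ((a + d : ℕ) : ℝ) → g ^ a ≤ cp → g ^ (a + d) ≤ cq →
    (cp : ℝ) + (g : ℝ) ^ a ≤ ((g : ℝ) ^ a) ^ (9 / 8 : ℝ) →
    (cq : ℝ) + (g : ℝ) ^ (a + d) ≤ ((g : ℝ) ^ (a + d)) ^ (9 / 8 : ℝ) → a + d ≤ D * q →
    ∑ y ∈ range (g ^ (a + d)), rpi p (cp + y / g ^ d) * rpi q (cq + y) ≤
      K * (g : ℝ) ^ (a + d) * ((Real.log p / p) ^ 2 +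
        ((g : ℝ) ^ d)⁻¹ * (Real.log p / p)) := by
  classical
  obtain ⟨lg, hlg⟩ : ∃ lg, lg = Real.log g := ⟨_, rfl⟩
  have hlg0 : 0 < lg := by rw [hlg]; exact Real.log_pos (by exact_mod_cast hg)
  obtain ⟨C, hC, hcore⟩ := near_core hg (κ := κ) hκ (3 * D + 1) L
  obtain ⟨K1, hK1, hup⟩ := win_upper (κ := lg * κ) (by positivity)
  have hsw := smooth_win hg (κ := κ) hκ
  refine ⟨C + 2 + K1, by positivity, ?_⟩
  filter_upwards [hcore, hup, hsw, eventually_ge_atTop 3] with p hcorep hupp hswp hp3 q hpq hqL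
    a d cp cq hap haq hcp hcq hhp98 hhq98 hup_q
  have hp3' : (3 : ℝ) ≤ p := by exact_mod_cast hp3
  have hp0 : (0 : ℝ) < p := by linarith
  have hpq' : (p : ℝ) ≤ q := by exact_mod_cast hpq.le
  have hgr : (2 : ℝ) ≤ g := by exact_mod_cast hg
  have hg0 : (0 : ℝ) < g := by linarith
  have hgpow : ∀ n : ℕ, (g : ℝ) ^ n = Real.exp (lg * n) := by
    intro n
    rw [mul_comm, Real.exp_nat_mul, hlg, Real.exp_log (by linarith)]
  have hpow1 : ∀ n : ℕ, (1 : ℝ) ≤ (g : ℝ) ^ n := fun n => one_le_pow₀ (by linarith)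
  have hw0 : 0 ≤ Real.log p / (p : ℝ) := div_nonneg (Real.log_natCast_nonneg p) hp0.le
  set w := Real.log p / (p : ℝ) with hw
  -- sizes
  have hsq : ∀ n : ℕ, ((g : ℝ) ^ n) ^ (9 / 8 : ℝ) ≤ (g : ℝ) ^ (2 * n) := by
    intro n
    calc ((g : ℝ) ^ n) ^ (9 / 8 : ℝ) ≤ ((g : ℝ) ^ n) ^ (2 : ℝ) :=
          Real.rpow_le_rpow_of_exponent_le (hpow1 n) (by norm_num)
      _ = (g : ℝ) ^ (2 * n) := by rw [Real.rpow_two, ← pow_mul]; ring_nf
  have hsizeP : cp + g ^ a ≤ g ^ (2 * a) := by
    have h1 := hhp98.trans (hsq a)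
    exact_mod_cast h1
  have hsizeQ : cq + g ^ (a + d) ≤ g ^ (2 * (a + d)) := by
    have h1 := hhq98.trans (hsq (a + d))
    exact_mod_cast h1
  have hD1 : g ^ (2 * (a + d)) ≤ g ^ ((3 * D + 1) * q) := by
    refine Nat.pow_le_pow_right (by omega) ?_
    nlinarith
  have hD2 : g ^ d * cp ≤ g ^ ((3 * D + 1) * q) := by
    calc g ^ d * cp ≤ g ^ d * g ^ (2 * a) := Nat.mul_le_mul_left _ (by omega)
      _ = g ^ (d + 2 * a) := by rw [pow_add]
      _ ≤ g ^ ((3 * D + 1) * q) := by
          refine Nat.pow_le_pow_right (by omega) ?_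
          have h1 : d + 2 * a ≤ 2 * (a + d) := by omega
          nlinarith
  have hgd0 : 0 < g ^ d := by positivity
  have hgd0' : (0 : ℝ) < (g : ℝ) ^ d := by positivity
  have hga0' : (0 : ℝ) < (g : ℝ) ^ a := by positivity
  -- the exceptional sets
  set Sp := Real.exp (lg * a / 2) with hSp
  set Sq := Real.exp (lg * ((a + d : ℕ) : ℝ) / 2) with hSq
  set T := (range (g ^ (a + d))).filter (fun y => (roughPart p (cp + y / g ^ d)).Prime ∧
    (roughPart q (cq + y)).Prime) with hT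
  have hJJ : ∑ y ∈ range (g ^ (a + d)), rpi p (cp + y / g ^ d) * rpi q (cq + y) =
      (T.card : ℝ) := by
    rw [hT, Finset.card_eq_sum_ones, Finset.sum_filter]
    push_cast
    refine Finset.sum_congr rfl fun y _ => ?_
    unfold rpi
    by_cases h1 : (roughPart p (cp + y / g ^ d)).Prime <;>
      by_cases h2 : (roughPart q (cq + y)).Prime <;> simp [h1, h2]
  have hmT : ∀ y ∈ T, y < g ^ (a + d) ∧ (roughPart p (cp + y / g ^ d)).Prime ∧
      (roughPart q (cq + y)).Prime := by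
    intro y hy
    rw [hT, mem_filter, mem_range] at hy
    exact hy
  have hdivlt : ∀ y, y < g ^ (a + d) → y / g ^ d < g ^ a := by
    intro y hy
    rw [Nat.div_lt_iff_lt_mul hgd0, ← pow_add]
    exact hy
  set T0 := T.filter (fun y => cq + y % g ^ d = g ^ d * cp) with hT0
  set T2 := T.filter (fun y => Sp ≤ (((cp + y / g ^ d) / roughPart p (cp + y / g ^ d) : ℕ) : ℝ)) with hT2
  set T3 := T.filter (fun y => Sq ≤ (((cq + y) / roughPart q (cq + y) : ℕ) : ℝ)) with hT3
  set T4 := T.filter (fun y => cq + y % g ^ d ≠ g ^ d * cp ∧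
    (((cp + y / g ^ d) / roughPart p (cp + y / g ^ d) : ℕ) : ℝ) < Sp ∧
    (((cq + y) / roughPart q (cq + y) : ℕ) : ℝ) < Sq) with hT4
  have hTsub : T ⊆ ((T0 ∪ T2) ∪ T3) ∪ T4 := by
    intro m hm
    simp only [mem_union]
    by_cases h0 : cq + m % g ^ d = g ^ d * cp
    · left; left; left; exact mem_filter.2 ⟨hm, h0⟩
    by_cases h2 : Sp ≤ (((cp + m / g ^ d) / roughPart p (cp + m / g ^ d) : ℕ) : ℝ)
    · left; left; right; exact mem_filter.2 ⟨hm, h2⟩
    by_cases h3 : Sq ≤ (((cq + m) / roughPart q (cq + m) : ℕ) : ℝ)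
    · left; right; exact mem_filter.2 ⟨hm, h3⟩
    · right
      exact mem_filter.2 ⟨hm, h0, not_le.1 h2, not_le.1 h3⟩
  -- T0
  have c0 : (T0.card : ℝ) ≤ K1 * (g : ℝ) ^ a * w := by
    have hinj : Set.InjOn (fun y : ℕ => y / g ^ d) (T0 : Set ℕ) := by
      intro y hy y' hy' hyy
      have h1 := (mem_filter.1 (Finset.mem_coe.1 hy)).2
      have h2 := (mem_filter.1 (Finset.mem_coe.1 hy')).2
      simp only at hyy
      rw [← Nat.mod_add_div y (g ^ d), ← Nat.mod_add_div y' (g ^ d), hyy]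
      omega
    have hsub : T0.image (fun y => y / g ^ d) ⊆
        (range (g ^ a)).filter (fun x => (roughPart p (cp + x)).Prime) := by
      intro x hx
      rw [mem_image] at hx
      obtain ⟨y, hy, rfl⟩ := hx
      obtain ⟨h1, h2, _⟩ := hmT y (mem_filter.1 hy).1
      rw [mem_filter, mem_range]
      exact ⟨hdivlt y h1, h2⟩
    have hcard := Finset.card_le_card hsub
    rw [Finset.card_image_of_injOn hinj] at hcard
    have h1 := hupp (cp - 1) (g ^ a) ?_ ?_
    · refine le_trans ?_ (h1.trans (le_of_eq ?_))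
      · have h2 : (((range (g ^ a)).filter (fun x => (roughPart p (cp + x)).Prime)).card : ℝ) =
            ∑ m ∈ Ioc (cp - 1) (cp - 1 + g ^ a), rpi p m := by
          rw [Finset.card_eq_sum_ones, Finset.sum_filter]
          push_cast
          have hcp1 : 1 ≤ cp := le_trans (Nat.one_le_pow _ _ (by omega)) hcp
          refine Finset.sum_bij' (i := fun x _ => cp + x) (j := fun m _ => m - cp) ?_ ?_ ?_ ?_ ?_
          · intro x hx
            rw [mem_range] at hx
            rw [mem_Ioc]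
            omega
          · intro m hm
            rw [mem_Ioc] at hm
            rw [mem_range]
            omega
          · intro x _
            simp
          · intro m hm
            rw [mem_Ioc] at hm
            omega
          · intro x _
            rfl
        rw [← h2]
        exact_mod_cast hcard
      · push_cast
        ring
    · push_cast
      rw [hgpow]
      refine Real.exp_le_exp.2 ?_
      calc lg * κ * p = lg * (κ * p) := by ring
        _ ≤ lg * a := mul_le_mul_of_nonneg_left hap hlg0.le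
    · have h2 : ((cp - 1 + g ^ a : ℕ) : ℝ) ≤ (cp : ℝ) + (g : ℝ) ^ a := by
        have : cp - 1 + g ^ a ≤ cp + g ^ a := by omega
        exact_mod_cast this
      refine h2.trans (hhp98.trans ?_)
      push_cast
      exact le_rfl
  -- T2
  have c2 : (T2.card : ℝ) ≤ (g : ℝ) ^ (a + d) * w ^ 2 := by
    have h1 := hswp p le_rfl a (cp) hap hhp98
    rw [← hlg] at h1
    have hinj : Set.InjOn (fun y : ℕ => (y / g ^ d, y % g ^ d)) (T2 : Set ℕ) := by
      intro y _ y' _ hyy
      simp only [Prod.mk.injEq] at hyy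
      rw [← Nat.mod_add_div y (g ^ d), ← Nat.mod_add_div y' (g ^ d), hyy.1, hyy.2]
    have hsub : T2.image (fun y => (y / g ^ d, y % g ^ d)) ⊆
        ((range (g ^ a)).filter (fun y => (roughPart p (cp + y)).Prime ∧
          Real.exp (lg * a / 2) ≤ (((cp + y) / roughPart p (cp + y) : ℕ) : ℝ))) ×ˢ range (g ^ d) := by
      intro x hx
      rw [mem_image] at hx
      obtain ⟨y, hy, rfl⟩ := hx
      obtain ⟨h2, h3, _⟩ := hmT y (mem_filter.1 hy).1
      rw [mem_product, mem_filter, mem_range, mem_range]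
      exact ⟨⟨hdivlt y h2, h3, (mem_filter.1 hy).2⟩, Nat.mod_lt _ hgd0⟩
    have hcard := Finset.card_le_card hsub
    rw [Finset.card_image_of_injOn hinj, card_product, card_range] at hcard
    calc (T2.card : ℝ) ≤ (((range (g ^ a)).filter (fun y => (roughPart p (cp + y)).Prime ∧
          Real.exp (lg * a / 2) ≤ (((cp + y) / roughPart p (cp + y) : ℕ) : ℝ))).card : ℝ) *
          ((g ^ d : ℕ) : ℝ) := by exact_mod_cast hcard
      _ ≤ (g : ℝ) ^ a * w ^ 2 * ((g ^ d : ℕ) : ℝ) := mul_le_mul_of_nonneg_right h1 (Nat.cast_nonneg _)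
      _ = _ := by push_cast; rw [pow_add]; ring
  -- T3
  have c3 : (T3.card : ℝ) ≤ (g : ℝ) ^ (a + d) * w ^ 2 := by
    have h1 := hswp q hpq.le (a + d) (cq) haq hhq98
    rw [← hlg] at h1
    refine le_trans ?_ h1
    have hsub : T3 ⊆ (range (g ^ (a + d))).filter (fun y => (roughPart q (cq + y)).Prime ∧
        Real.exp (lg * ((a + d : ℕ) : ℝ) / 2) ≤ (((cq + y) / roughPart q (cq + y) : ℕ) : ℝ)) := by
      intro y hy
      obtain ⟨h2, _, h3⟩ := hmT y (mem_filter.1 hy).1
      rw [mem_filter, mem_range]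
      exact ⟨h2, h3, (mem_filter.1 hy).2⟩
    exact_mod_cast Finset.card_le_card hsub
  -- T4
  have c4 : (T4.card : ℝ) ≤ C * w ^ 2 * (g : ℝ) ^ (a + d) := by
    have hfib := Finset.card_eq_sum_card_fiberwise (s := T4) (t := range (g ^ d)) (f := fun y => y % g ^ d)
      (fun y _ => Finset.mem_coe.2 (mem_range.2 (Nat.mod_lt _ hgd0)))
    rw [hfib]
    push_cast
    have hone : ∀ t ∈ range (g ^ d), ((T4.filter (fun y => y % g ^ d = t)).card : ℝ) ≤
        C * w ^ 2 * (g : ℝ) ^ a := by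
      intro t ht
      rw [mem_range] at ht
      rcases Finset.eq_empty_or_nonempty (T4.filter (fun y => y % g ^ d = t)) with hemp | ⟨y0, hy0⟩
      · rw [hemp]
        simp only [Finset.card_empty, Nat.cast_zero]
        positivity
      obtain ⟨hy01, hy02⟩ := mem_filter.1 hy0
      have hne := (mem_filter.1 hy01).2.1
      rw [hy02] at hne
      have h1 := hcorep q hpq hqL a d (cp) (cq) t hap hcp hcq ht hne (by
        refine le_trans ?_ (hsizeQ.trans hD1)
        have : g ^ d ≤ g ^ (a + d) := Nat.pow_le_pow_right (by omega) (by omega)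
        omega) hD2
      rw [← hlg] at h1
      refine le_trans ?_ h1
      have hinj : Set.InjOn (fun y : ℕ => y / g ^ d) ((T4.filter (fun y => y % g ^ d = t)) : Set ℕ) := by
        intro y hy y' hy' hyy
        have h1 := (mem_filter.1 (Finset.mem_coe.1 hy)).2
        have h2 := (mem_filter.1 (Finset.mem_coe.1 hy')).2
        simp only at hyy
        rw [← Nat.mod_add_div y (g ^ d), ← Nat.mod_add_div y' (g ^ d), hyy, h1, h2]
      rw [← Finset.card_image_of_injOn hinj]
      refine Nat.cast_le.2 (Finset.card_le_card ?_)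
      intro x hx
      rw [mem_image] at hx
      obtain ⟨y, hy, rfl⟩ := hx
      obtain ⟨hy1, hy2⟩ := mem_filter.1 hy
      obtain ⟨hy3, _, hy4, hy5⟩ := mem_filter.1 hy1
      obtain ⟨h2, h3, h4⟩ := hmT y hy3
      have e : cq + t + g ^ d * (y / g ^ d) = cq + y := by
        have := Nat.mod_add_div y (g ^ d)
        rw [hy2] at this
        omega
      rw [mem_filter, mem_range, e]
      exact ⟨hdivlt y h2, ⟨h3, hy4⟩, h4, hy5⟩
    calc ∑ t ∈ range (g ^ d), ((T4.filter (fun y => y % g ^ d = t)).card : ℝ) ≤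
          ∑ t ∈ range (g ^ d), C * w ^ 2 * (g : ℝ) ^ a := Finset.sum_le_sum hone
      _ = _ := by
          rw [Finset.sum_const, card_range, nsmul_eq_mul]
          push_cast
          rw [pow_add]
          ring
  have hcardT : (T.card : ℝ) ≤ T0.card + T2.card + T3.card + T4.card := by
    have h1 := Finset.card_le_card hTsub
    have h2 := Finset.card_union_le (((T0 ∪ T2) ∪ T3)) T4
    have h3 := Finset.card_union_le ((T0 ∪ T2)) T3
    have h4 := Finset.card_union_le T0 T2
    exact_mod_cast (by omega : T.card ≤ T0.card + T2.card + T3.card + T4.card)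
  rw [hJJ]
  have e1 : (g : ℝ) ^ (a + d) * ((g : ℝ) ^ d)⁻¹ = (g : ℝ) ^ a := by
    rw [pow_add]
    field_simp
  have hw2 : 0 ≤ w ^ 2 := sq_nonneg w
  have hgad : (0 : ℝ) < (g : ℝ) ^ (a + d) := by positivity
  calc (T.card : ℝ) ≤ K1 * (g : ℝ) ^ a * w + (g : ℝ) ^ (a + d) * w ^ 2 + (g : ℝ) ^ (a + d) * w ^ 2 +
        C * w ^ 2 * (g : ℝ) ^ (a + d) := by linarith
    _ = K1 * ((g : ℝ) ^ (a + d) * ((g : ℝ) ^ d)⁻¹) * w + (C + 2) * (g : ℝ) ^ (a + d) * w ^ 2 := by
        rw [e1]; ring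
    _ ≤ (C + 2 + K1) * ((g : ℝ) ^ (a + d) * ((g : ℝ) ^ d)⁻¹) * w +
        (C + 2 + K1) * (g : ℝ) ^ (a + d) * w ^ 2 := by
        have h1 : 0 ≤ ((g : ℝ) ^ (a + d) * ((g : ℝ) ^ d)⁻¹) * w := by positivity
        have h2 : 0 ≤ (g : ℝ) ^ (a + d) * w ^ 2 := by positivity
        nlinarith
    _ = _ := by ring

end Pool.Agent.W157.MX
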