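import Mathlib
import Pool.Agent.W157.MX.Base
import Pool.Agent.W157.MX.Near
import Pool.Agent.W157.MX.Mean

set_option autoImplicit false

/-!
# One block of exponents
-/

namespace Pool.Agent.W157.MX

open Finset Filter Topology MeasureTheory
open Pool.Agent.W66L (rpi rpi_nonneg rpi_le_one)
open Pool.Agent.TH888.R (wt wt_nonneg)
open Pool.Agent.H305R2 (roughPart)
open Pool.Agent.Q160.TB (wt_anti)
open Pool.Agent.W66S (count_primes)

/-- the number of hits -/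
noncomputable def hits (g n : ℕ) (T : Finset ℕ) (c r : ℕ → ℕ) (u : ℕ) : ℕ :=
  (T.filter (fun p => (roughPart p (c p + u / g ^ (n - r p))).Prime)).card

lemma hits_eq (g n : ℕ) (T : Finset ℕ) (c r : ℕ → ℕ) (u : ℕ) :
    (hits g n T c r u : ℝ) = ∑ p ∈ T, rpi p (c p + u / g ^ (n - r p)) := by
  unfold hits rpi
  rw [Finset.card_eq_sum_ones, Finset.sum_filter]
  push_cast
  rfl

lemma geo {ρ : ℝ} (hρ0 : 0 < ρ) (hρ1 : ρ < 1) (q : ℕ) (T : Finset ℕ) (hT : ∀ p ∈ T, p < q) :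
    ∑ p ∈ T, ρ ^ (q - p) ≤ 1 / (1 - ρ) := by
  have h1 : ∑ p ∈ T, ρ ^ (q - p) ≤ ∑ p ∈ range q, ρ ^ (q - p) :=
    Finset.sum_le_sum_of_subset_of_nonneg (fun p hp => mem_range.2 (hT p hp)) fun _ _ _ => by positivity
  have h2 : ∑ p ∈ range q, ρ ^ (q - p) ≤ ∑ p ∈ range q, ρ ^ (q - 1 - p) := by
    refine Finset.sum_le_sum fun p hp => ?_
    exact pow_le_pow_of_le_one hρ0.le hρ1.le (by omega)
  rw [Finset.sum_range_reflect (fun j => ρ ^ j) q, geom_sum_eq hρ1.ne] at h2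
  refine h1.trans (h2.trans ?_)
  have h3 : (ρ ^ q - 1) / (ρ - 1) = (1 - ρ ^ q) / (1 - ρ) := by
    rw [← neg_sub 1 (ρ ^ q), ← neg_sub 1 ρ, neg_div_neg_eq]
  rw [h3]
  have h4 : 0 < ρ ^ q := by positivity
  exact div_le_div_of_nonneg_right (by linarith) (by linarith)

/-- **One block**, given the digits before it. -/
theorem block : ∃ δ : ℝ, 0 < δ ∧ δ ≤ 1 / 4 ∧ ∀ g : ℕ, 2 ≤ g → ∀ K : ℕ, 16 / δ ≤ K → ∀ v : ℝ, 0 < v →
    ∃ c0 : ℝ, 0 < c0 ∧ ∀ᶠ z : ℕ in atTop, ∀ s : ℝ, 1 - δ / 8 ≤ s → s ≤ 1 →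
    ∀ w : ℕ → ℕ, (∀ p, 1 ≤ p → w p < g ^ (p - ⌊s * p⌋₊)) →
    ∀ T : Finset ℕ, (∀ p ∈ T, p.Prime ∧ K * z < p ∧ p ≤ K ^ 2 * z) → v ≤ ∑ p ∈ T, wt p →
    ∀ A : ℕ, 3 ≤ A → A < g ^ z →
    ∑ y ∈ range (g ^ (K ^ 2 * z - z)), (1 / 2 : ℝ) ^ hits g (K ^ 2 * z) T
      (fun p => w p * g ^ ⌊s * p⌋₊) (fun p => ⌊s * p⌋₊) (A * g ^ (K ^ 2 * z - z) + y) ≤
      (1 - c0) * (g : ℝ) ^ (K ^ 2 * z - z) := by
  classical
  obtain ⟨δ, hδ, hδ4, hmean⟩ := mean_unif
  refine ⟨δ, hδ, hδ4, fun g hg K hK v hv => ?_⟩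
  obtain ⟨c1, c2, hc1, hc2, hmean2⟩ := hmean g hg
  obtain ⟨P1, hP1⟩ := eventually_atTop.1 hmean2
  obtain ⟨K1, hK1, hnear⟩ := near_unif hg (κ := 1 / 2) (by norm_num) 1 K
  obtain ⟨P2, hP2⟩ := eventually_atTop.1 hnear
  obtain ⟨Cp, hCp, hcp⟩ := count_primes
  have hgr : (2 : ℝ) ≤ g := by exact_mod_cast hg
  have hg0 : (0 : ℝ) < g := by linarith
  have hKr : (64 : ℝ) ≤ K := by
    refine le_trans ?_ hK
    rw [le_div_iff₀ hδ]
    linarith
  have hK64 : 64 ≤ K := by exact_mod_cast hKr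
  have hK0 : (0 : ℝ) < K := by linarith
  obtain ⟨lg, hlg⟩ : ∃ lg, lg = Real.log g := ⟨_, rfl⟩
  have hlg0 : 0 < lg := by rw [hlg]; exact Real.log_pos (by linarith)
  obtain ⟨ρ, hρ⟩ : ∃ ρ, ρ = Real.exp (-(lg * (1 / 2))) := ⟨_, rfl⟩
  have hρ0 : 0 < ρ := by rw [hρ]; exact Real.exp_pos _
  have hρ1 : ρ < 1 := by
    rw [hρ, Real.exp_lt_one_iff]
    linarith
  have h1ρ : 0 < 1 - ρ := by linarith
  obtain ⟨M0, hM0⟩ : ∃ M0, M0 = Cp * (2 * K) := ⟨_, rfl⟩
  have hM00 : 0 < M0 := by rw [hM0]; positivity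
  obtain ⟨b, hb⟩ : ∃ b, b = M0 * (c2 + 2 * (K1 * (M0 + g * (1 / (1 - ρ))))) := ⟨_, rfl⟩
  have hb0 : 0 < b := by rw [hb]; positivity
  refine ⟨(c1 * v) ^ 2 / (2 * b), by positivity, ?_⟩
  filter_upwards [eventually_ge_atTop (P1 + P2 + 1)] with z hz s hs hs1 w hw T hT hvT A hA3 hAz
  have hz1 : 1 ≤ z := by omega
  have hKz : z ≤ K * z := Nat.le_mul_of_pos_left _ (by omega)
  have hKz64 : 64 ≤ K * z := by nlinarith
  have hzn : K * z ≤ K ^ 2 * z := by
    rw [sq, mul_assoc]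
    exact Nat.le_mul_of_pos_left _ (by omega)
  obtain ⟨n, hn⟩ : ∃ n, n = K ^ 2 * z := ⟨_, rfl⟩
  rw [← hn] at hT hzn ⊢
  obtain ⟨r, hr⟩ : ∃ r : ℕ → ℕ, r = fun p : ℕ => ⌊s * p⌋₊ := ⟨_, rfl⟩
  have hrp : ∀ p : ℕ, ⌊s * p⌋₊ = r p := fun p => by rw [hr]
  simp only [hrp] at hw ⊢
  have hs0 : 1 / 2 ≤ s := by linarith
  -- facts on `r`
  have hrle : ∀ p, r p ≤ p := by
    intro p
    rw [hr]
    refine Nat.floor_le_of_le ?_
    have : (0 : ℝ) ≤ p := Nat.cast_nonneg p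
    nlinarith
  have hrlo : ∀ p ∈ T, z ≤ r p ∧ (1 - δ / 4) * p ≤ ((r p - z : ℕ) : ℝ) := by
    intro p hp
    obtain ⟨_, hp1, _⟩ := hT p hp
    have hp1' : (K : ℝ) * z < p := by exact_mod_cast hp1
    have hz1' : (1 : ℝ) ≤ z := by exact_mod_cast hz1
    have h1 : s * p < r p + 1 := by rw [hr]; exact Nat.lt_floor_add_one _
    have hδK : 16 ≤ δ * K := by
      rw [div_le_iff₀ hδ] at hK
      linarith
    have h2 : 16 * (z : ℝ) ≤ δ * p := by
      calc 16 * (z : ℝ) ≤ δ * K * z := mul_le_mul_of_nonneg_right hδK (by linarith)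
        _ = δ * (K * z) := by ring
        _ ≤ δ * p := mul_le_mul_of_nonneg_left hp1'.le hδ.le
    have hp0 : (0 : ℝ) ≤ p := Nat.cast_nonneg p
    have h3 : (1 - δ / 8) * (p : ℝ) ≤ s * p := mul_le_mul_of_nonneg_right hs hp0
    have h4 : (1 - δ / 4) * (p : ℝ) + z ≤ r p := by nlinarith
    have h5 : z ≤ r p := by
      have : (z : ℝ) ≤ r p := by nlinarith
      exact_mod_cast this
    refine ⟨h5, ?_⟩
    rw [Nat.cast_sub h5]
    linarith
  have hrgrow : ∀ p q : ℕ, p ≤ q → r p ≤ r q ∧ ((g : ℝ) ^ (r q - r p))⁻¹ ≤ g * ρ ^ (q - p) := by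
    intro p q hpq
    have hpq' : (p : ℝ) ≤ q := by exact_mod_cast hpq
    have hp0 : (0 : ℝ) ≤ p := Nat.cast_nonneg p
    have h2 : r p ≤ r q := by
      rw [hr]
      refine Nat.floor_le_floor ?_
      gcongr
    refine ⟨h2, ?_⟩
    have h1 : (r p : ℝ) ≤ s * p := by rw [hr]; exact Nat.floor_le (by positivity)
    have h3 : s * q < r q + 1 := by rw [hr]; exact Nat.lt_floor_add_one _
    have h4 : 1 / 2 * ((q : ℝ) - p) ≤ s * (q - p) := mul_le_mul_of_nonneg_right hs0 (by linarith)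
    have e1 : (g : ℝ) ^ (r q - r p) = Real.exp (lg * ((r q : ℝ) - r p)) := by
      have : ((r q - r p : ℕ) : ℝ) = (r q : ℝ) - r p := by push_cast [Nat.cast_sub h2]; ring
      rw [← this, mul_comm, Real.exp_nat_mul, hlg, Real.exp_log hg0]
    have e2 : (g : ℝ) * ρ ^ (q - p) = Real.exp (lg - lg * (1 / 2) * ((q : ℝ) - p)) := by
      have : ((q - p : ℕ) : ℝ) = (q : ℝ) - p := by push_cast [Nat.cast_sub hpq]; ring
      rw [hρ, ← Real.exp_nat_mul, this]
      have e3 : (g : ℝ) = Real.exp lg := by rw [hlg, Real.exp_log hg0]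
      nth_rewrite 1 [e3]
      rw [← Real.exp_add]
      congr 1
      ring
    rw [e1, e2, ← Real.exp_neg]
    refine Real.exp_le_exp.2 ?_
    nlinarith
  -- the integers
  obtain ⟨cc, hcc⟩ : ∃ cc : ℕ → ℕ, cc = fun p => w p * g ^ r p + A * g ^ (r p - z) := ⟨_, rfl⟩
  have hterm : ∀ p ∈ T, ∀ y, w p * g ^ r p + (A * g ^ (n - z) + y) / g ^ (n - r p) =
      cc p + y / g ^ (n - r p) := by
    intro p hp y
    obtain ⟨_, _, hpn⟩ := hT p hp
    obtain ⟨hzr, _⟩ := hrlo p hp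
    have hrn := (hrle p).trans hpn
    have e : n - z = (r p - z) + (n - r p) := by omega
    have e2 : A * g ^ (n - z) + y = y + A * g ^ (r p - z) * g ^ (n - r p) := by
      rw [e, pow_add]
      ring
    rw [e2, Nat.add_mul_div_right _ _ (by positivity), hcc]
    ring
  have hccA : ∀ p, 3 * g ^ (r p - z) ≤ cc p := by
    intro p
    rw [hcc]
    have : 3 * g ^ (r p - z) ≤ A * g ^ (r p - z) := Nat.mul_le_mul_right _ hA3
    show 3 * g ^ (r p - z) ≤ w p * g ^ r p + A * g ^ (r p - z)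
    omega
  have hccg : ∀ p ∈ T, cc p + g ^ (r p - z) ≤ g ^ p := by
    intro p hp
    obtain ⟨hpp, _, hpn⟩ := hT p hp
    obtain ⟨hzr, _⟩ := hrlo p hp
    have hw1 := hw p hpp.one_lt.le
    have h1 : (A + 1) * g ^ (r p - z) ≤ g ^ r p := by
      calc (A + 1) * g ^ (r p - z) ≤ g ^ z * g ^ (r p - z) := Nat.mul_le_mul_right _ hAz
        _ = g ^ r p := by rw [← pow_add, Nat.add_sub_cancel' hzr]
    have h2 : (w p + 1) * g ^ r p ≤ g ^ p := by
      calc (w p + 1) * g ^ r p ≤ g ^ (p - r p) * g ^ r p := Nat.mul_le_mul_right _ hw1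
        _ = g ^ p := by rw [← pow_add, Nat.sub_add_cancel (hrle p)]
    rw [hcc]
    show w p * g ^ r p + A * g ^ (r p - z) + g ^ (r p - z) ≤ g ^ p
    nlinarith
  have hcc98 : ∀ p ∈ T, (cc p : ℝ) + (g : ℝ) ^ (r p - z) ≤ ((g : ℝ) ^ (r p - z)) ^ (9 / 8 : ℝ) := by
    intro p hp
    have h1 := hccg p hp
    have h2 : (cc p : ℝ) + (g : ℝ) ^ (r p - z) ≤ (g : ℝ) ^ p := by exact_mod_cast h1
    refine h2.trans ?_
    have hpw : ∀ k : ℕ, (g : ℝ) ^ k = Real.exp (lg * k) := by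
      intro k
      rw [mul_comm, Real.exp_nat_mul, hlg, Real.exp_log hg0]
    rw [hpw, hpw, ← Real.exp_mul]
    refine Real.exp_le_exp.2 ?_
    have h3 := (hrlo p hp).2
    have hp0 : (0 : ℝ) ≤ p := Nat.cast_nonneg p
    have h4 : (p : ℝ) ≤ ((r p - z : ℕ) : ℝ) * (9 / 8) := by nlinarith
    calc lg * p ≤ lg * (((r p - z : ℕ) : ℝ) * (9 / 8)) := mul_le_mul_of_nonneg_left h4 hlg0.le
      _ = _ := by ring
  -- the number of hits as a sum
  obtain ⟨k, hk⟩ : ∃ k : ℕ → ℕ, k = fun y => hits g n T (fun p => w p * g ^ r p) (fun p => r p)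
      (A * g ^ (n - z) + y) := ⟨_, rfl⟩
  have hkeq : ∀ y, (k y : ℝ) = ∑ p ∈ T, rpi p (cc p + y / g ^ (n - r p)) := by
    intro y
    rw [hk]
    show ((hits g n T (fun p => w p * g ^ r p) (fun p => r p) (A * g ^ (n - z) + y) : ℕ) : ℝ) = _
    rw [hits_eq]
    refine Finset.sum_congr rfl fun p hp => ?_
    rw [hterm p hp]
  have hNpos : (0 : ℝ) < (g : ℝ) ^ (n - z) := by positivity
  have hcast : ((g ^ (n - z) : ℕ) : ℝ) = (g : ℝ) ^ (n - z) := by push_cast; rfl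
  -- first moments
  have hone : ∀ p ∈ T, c1 * wt p * (g : ℝ) ^ (n - z) ≤
      ∑ y ∈ range (g ^ (n - z)), rpi p (cc p + y / g ^ (n - r p)) ∧
      ∑ y ∈ range (g ^ (n - z)), rpi p (cc p + y / g ^ (n - r p)) ≤
        c2 * wt p * (g : ℝ) ^ (n - z) := by
    intro p hp
    obtain ⟨_, hpz, hpn⟩ := hT p hp
    obtain ⟨hzr, ha⟩ := hrlo p hp
    have hrn := (hrle p).trans hpn
    have e : n - z = (r p - z) + (n - r p) := by omega
    have h1 := rep g (r p - z) (n - r p) (fun x => rpi p (cc p + x))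
    rw [← e] at h1
    rw [h1]
    obtain ⟨h2, h3⟩ := hP1 p (by omega) (r p - z) (cc p) ha (hccA p) (hccg p hp)
    have hgd : (0 : ℝ) < (g : ℝ) ^ (n - r p) := by positivity
    have e2 : (g : ℝ) ^ (n - z) = (g : ℝ) ^ (n - r p) * (g : ℝ) ^ (r p - z) := by
      rw [e, pow_add]; ring
    rw [e2]
    constructor
    · calc c1 * wt p * ((g : ℝ) ^ (n - r p) * (g : ℝ) ^ (r p - z)) =
            (g : ℝ) ^ (n - r p) * (c1 * wt p * (g : ℝ) ^ (r p - z)) := by ring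
        _ ≤ _ := mul_le_mul_of_nonneg_left h2 hgd.le
    · calc _ ≤ (g : ℝ) ^ (n - r p) * (c2 * wt p * (g : ℝ) ^ (r p - z)) :=
            mul_le_mul_of_nonneg_left h3 hgd.le
        _ = _ := by ring
  have hmom1 : c1 * v * ((g ^ (n - z) : ℕ) : ℝ) ≤ ∑ y ∈ range (g ^ (n - z)), (k y : ℝ) := by
    simp only [hkeq]
    rw [Finset.sum_comm, hcast]
    calc c1 * v * (g : ℝ) ^ (n - z) ≤ c1 * (∑ p ∈ T, wt p) * (g : ℝ) ^ (n - z) := by gcongr
      _ = ∑ p ∈ T, c1 * wt p * (g : ℝ) ^ (n - z) := by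
          rw [Finset.mul_sum, Finset.sum_mul]
      _ ≤ _ := Finset.sum_le_sum fun p hp => (hone p hp).1
  -- the weights
  obtain ⟨W, hW⟩ : ∃ W, W = wt (K * z) := ⟨_, rfl⟩
  have hW0 : 0 ≤ W := by rw [hW]; exact wt_nonneg _
  have hwW : ∀ p ∈ T, wt p ≤ W := by
    intro p hp
    rw [hW]
    exact wt_anti (by omega) (hT p hp).2.1.le
  have hTW : (T.card : ℝ) * W ≤ M0 := by
    have h1 := hcp (n + 1) (by omega) T fun p hp => ⟨(hT p hp).1, by have := (hT p hp).2.2; omega⟩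
    have hKz' : (64 : ℝ) ≤ ((K * z : ℕ) : ℝ) := by exact_mod_cast hKz64
    have hKz0 : (0 : ℝ) < ((K * z : ℕ) : ℝ) := by linarith
    have hn1 : ((K * z : ℕ) : ℝ) ≤ ((n + 1 : ℕ) : ℝ) := by exact_mod_cast (by omega : K * z ≤ n + 1)
    have hl0 : 0 < Real.log ((K * z : ℕ) : ℝ) := Real.log_pos (by linarith)
    have hl1 : Real.log ((K * z : ℕ) : ℝ) ≤ Real.log ((n + 1 : ℕ) : ℝ) := Real.log_le_log hKz0 hn1
    have hl2 : 0 < Real.log ((n + 1 : ℕ) : ℝ) := by linarith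
    have hn2 : ((n + 1 : ℕ) : ℝ) ≤ 2 * K * ((K * z : ℕ) : ℝ) := by
      have : n + 1 ≤ 2 * K * (K * z) := by
        have e : 2 * K * (K * z) = n + n := by rw [hn]; ring
        rw [e]
        omega
      exact_mod_cast this
    calc (T.card : ℝ) * W ≤ (Cp * ((n + 1 : ℕ) : ℝ) / Real.log ((n + 1 : ℕ) : ℝ)) * W :=
          mul_le_mul_of_nonneg_right h1 hW0
      _ = Cp * (((n + 1 : ℕ) : ℝ) / ((K * z : ℕ) : ℝ)) *
          (Real.log ((K * z : ℕ) : ℝ) / Real.log ((n + 1 : ℕ) : ℝ)) := by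
          rw [hW]
          unfold wt
          field_simp
      _ ≤ Cp * (2 * K) * 1 := by
          have h5 : ((n + 1 : ℕ) : ℝ) / ((K * z : ℕ) : ℝ) ≤ 2 * K := by
            rw [div_le_iff₀ hKz0]
            exact hn2
          have h6 : Real.log ((K * z : ℕ) : ℝ) / Real.log ((n + 1 : ℕ) : ℝ) ≤ 1 := by
            rw [div_le_one hl2]
            exact hl1
          have h7 : 0 ≤ Real.log ((K * z : ℕ) : ℝ) / Real.log ((n + 1 : ℕ) : ℝ) := by positivity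
          have h8 : 0 ≤ ((n + 1 : ℕ) : ℝ) / ((K * z : ℕ) : ℝ) := by positivity
          gcongr
      _ = M0 := by rw [hM0]; ring
  -- pairs
  have htwo : ∀ p ∈ T, ∀ q ∈ T, p < q →
      ∑ y ∈ range (g ^ (n - z)), rpi p (cc p + y / g ^ (n - r p)) * rpi q (cc q + y / g ^ (n - r q)) ≤
        K1 * (g : ℝ) ^ (n - z) * (W ^ 2 + g * ρ ^ (q - p) * W) := by
    intro p hp q hq hpq
    obtain ⟨_, hpz, hpn⟩ := hT p hp
    obtain ⟨_, hqz, hqn⟩ := hT q hq
    obtain ⟨hzp, hap⟩ := hrlo p hp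
    obtain ⟨hzq, haq⟩ := hrlo q hq
    have hrqn := (hrle q).trans hqn
    obtain ⟨hrpq, hgrow⟩ := hrgrow p q hpq.le
    have e : n - z = (r q - z) + (n - r q) := by omega
    have h1 := rep g (r q - z) (n - r q)
      (fun x => rpi p (cc p + x / g ^ (r q - r p)) * rpi q (cc q + x))
    rw [← e] at h1
    have e2 : ∀ y, y / g ^ (n - r q) / g ^ (r q - r p) = y / g ^ (n - r p) := by
      intro y
      rw [Nat.div_div_eq_div_mul, ← pow_add]
      congr 2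
      omega
    simp only [e2] at h1
    rw [h1]
    have ead : (r p - z) + (r q - r p) = r q - z := by omega
    have hqK : q ≤ K * p := by
      have h3 : K * (K * z) ≤ K * p := Nat.mul_le_mul_left _ hpz.le
      have h4 : K * (K * z) = n := by rw [hn]; ring
      omega
    have hp0 : (0 : ℝ) ≤ p := Nat.cast_nonneg p
    have hq0 : (0 : ℝ) ≤ q := Nat.cast_nonneg q
    have h2 := hP2 p (by omega) q hpq hqK (r p - z) (r q - r p) (cc p) (cc q) (by nlinarith)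
      (by rw [ead]; nlinarith) (by have := hccA p; omega) (by rw [ead]; have := hccA q; omega)
      (hcc98 p hp) (by rw [ead]; exact hcc98 q hq) (by rw [ead]; have := hrle q; omega)
    rw [ead] at h2
    have hgd : (0 : ℝ) < (g : ℝ) ^ (n - r q) := by positivity
    have e3 : (g : ℝ) ^ (n - z) = (g : ℝ) ^ (n - r q) * (g : ℝ) ^ (r q - z) := by
      rw [e, pow_add]; ring
    rw [e3]
    have hwp := wt_nonneg p
    have hwpW := hwW p hp
    have h5 : 0 ≤ ((g : ℝ) ^ (r q - r p))⁻¹ := by positivity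
    calc _ ≤ (g : ℝ) ^ (n - r q) * (K1 * (g : ℝ) ^ (r q - z) * ((Real.log p / p) ^ 2 +
          ((g : ℝ) ^ (r q - r p))⁻¹ * (Real.log p / p))) := mul_le_mul_of_nonneg_left h2 hgd.le
      _ = K1 * ((g : ℝ) ^ (n - r q) * (g : ℝ) ^ (r q - z)) * (wt p ^ 2 +
          ((g : ℝ) ^ (r q - r p))⁻¹ * wt p) := by unfold wt; ring
      _ ≤ K1 * ((g : ℝ) ^ (n - r q) * (g : ℝ) ^ (r q - z)) * (W ^ 2 + g * ρ ^ (q - p) * W) := by
          gcongr
  have hmom2 : ∑ y ∈ range (g ^ (n - z)), (k y : ℝ) ^ 2 ≤ b * ((g ^ (n - z) : ℕ) : ℝ) := by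
    simp only [hkeq, sq_rows]
    rw [Finset.sum_comm, hcast]
    have hq1 : ∀ q ∈ T, ∑ y ∈ range (g ^ (n - z)), (rpi q (cc q + y / g ^ (n - r q)) ^ 2 +
        2 * ∑ p ∈ T.filter (fun p => p < q), rpi p (cc p + y / g ^ (n - r p)) *
          rpi q (cc q + y / g ^ (n - r q))) ≤
        (g : ℝ) ^ (n - z) * W * (c2 + 2 * (K1 * (M0 + g * (1 / (1 - ρ))))) := by
      intro q hq
      rw [Finset.sum_add_distrib, ← Finset.mul_sum, Finset.sum_comm]
      have h1 : ∑ y ∈ range (g ^ (n - z)), rpi q (cc q + y / g ^ (n - r q)) ^ 2 ≤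
          c2 * W * (g : ℝ) ^ (n - z) := by
        calc _ ≤ ∑ y ∈ range (g ^ (n - z)), rpi q (cc q + y / g ^ (n - r q)) := by
              refine Finset.sum_le_sum fun y _ => ?_
              have a1 := rpi_nonneg q (cc q + y / g ^ (n - r q))
              have a2 := rpi_le_one q (cc q + y / g ^ (n - r q))
              nlinarith
          _ ≤ c2 * wt q * (g : ℝ) ^ (n - z) := (hone q hq).2
          _ ≤ _ := by have := hwW q hq; gcongr
      have h2 : ∑ p ∈ T.filter (fun p => p < q), ∑ y ∈ range (g ^ (n - z)),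
          rpi p (cc p + y / g ^ (n - r p)) * rpi q (cc q + y / g ^ (n - r q)) ≤
          K1 * (g : ℝ) ^ (n - z) * W * (M0 + g * (1 / (1 - ρ))) := by
        calc _ ≤ ∑ p ∈ T.filter (fun p => p < q),
              K1 * (g : ℝ) ^ (n - z) * (W ^ 2 + g * ρ ^ (q - p) * W) := by
              refine Finset.sum_le_sum fun p hp => ?_
              rw [mem_filter] at hp
              exact htwo p hp.1 q hq hp.2
          _ = K1 * (g : ℝ) ^ (n - z) * W * (((T.filter (fun p => p < q)).card : ℝ) * W +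
              g * ∑ p ∈ T.filter (fun p => p < q), ρ ^ (q - p)) := by
              rw [← Finset.mul_sum, Finset.sum_add_distrib, Finset.sum_const, nsmul_eq_mul,
                ← Finset.sum_mul, ← Finset.mul_sum]
              ring
          _ ≤ _ := by
              have h3 := geo hρ0 hρ1 q (T.filter (fun p => p < q)) fun p hp => (mem_filter.1 hp).2
              have h4 : ((T.filter (fun p => p < q)).card : ℝ) ≤ T.card := by
                exact_mod_cast Finset.card_filter_le _ _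
              have h5 : ((T.filter (fun p => p < q)).card : ℝ) * W ≤ M0 :=
                (mul_le_mul_of_nonneg_right h4 hW0).trans hTW
              gcongr
      nlinarith
    calc _ ≤ ∑ q ∈ T, (g : ℝ) ^ (n - z) * W * (c2 + 2 * (K1 * (M0 + g * (1 / (1 - ρ))))) :=
          Finset.sum_le_sum hq1
      _ = (T.card * W) * (g : ℝ) ^ (n - z) * (c2 + 2 * (K1 * (M0 + g * (1 / (1 - ρ))))) := by
          rw [Finset.sum_const, nsmul_eq_mul]
          ring
      _ ≤ M0 * (g : ℝ) ^ (n - z) * (c2 + 2 * (K1 * (M0 + g * (1 / (1 - ρ))))) := by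
          gcongr
      _ = _ := by rw [hb]; ring
  have hfin := half_mean k (m := c1 * v) (b := b) (by positivity) hb0 hmom1 hmom2
  rw [hcast, hk] at hfin
  exact hfin

end Pool.Agent.W157.MX
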