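import Mathlib
import Pool.Agent.Q160.TB5
import Pool.Agent.W157.MX.Block

set_option autoImplicit false

/-!
# Many blocks of exponents
-/

namespace Pool.Agent.W157.MX

open Finset Filter Topology MeasureTheory
open Pool.Agent.W66L (rpi rpi_nonneg rpi_le_one)
open Pool.Agent.TH888.R (wt wt_nonneg VS VS_mono)
open Pool.Agent.H305R2 (roughPart)
open Pool.Agent.Q160.TB (Top)

/-- the blocks -/
def zz (K z0 : ℕ) : ℕ → ℕ
  | 0 => z0
  | j + 1 => K ^ 2 * zz K z0 j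

lemma zz_zero (K z0 : ℕ) : zz K z0 0 = z0 := rfl

lemma zz_succ (K z0 j : ℕ) : zz K z0 (j + 1) = K ^ 2 * zz K z0 j := rfl

lemma zz_eq (K z0 j : ℕ) : zz K z0 j = K ^ (2 * j) * z0 := by
  induction j with
  | zero => simp [zz_zero]
  | succ j ih => rw [zz_succ, ih]; ring

lemma zz_le {K : ℕ} (hK : 1 ≤ K) (z0 j : ℕ) : zz K z0 j ≤ zz K z0 (j + 1) := by
  rw [zz_succ]
  exact Nat.le_mul_of_pos_left _ (by positivity)

lemma zz_mono {K : ℕ} (hK : 1 ≤ K) (z0 : ℕ) : Monotone (zz K z0) := monotone_nat_of_le_succ (zz_le hK z0)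

/-- the weight of a prefix -/
noncomputable def wgt (g K z0 t A : ℕ) (T : ℕ → Finset ℕ) (c r : ℕ → ℕ) : ℕ → ℕ → ℝ
  | 0, u => if u / g ^ (z0 - t) = A then 1 else 0
  | j + 1, u => wgt g K z0 t A T c r j (u / g ^ (K ^ 2 * zz K z0 j - zz K z0 j)) *
      (1 / 2 : ℝ) ^ hits g (K ^ 2 * zz K z0 j) (T j) c r u

section

variable {g K z0 t A : ℕ} {T : ℕ → Finset ℕ} {c r : ℕ → ℕ}

lemma wgt_nonneg (j : ℕ) : ∀ u, 0 ≤ wgt g K z0 t A T c r j u := by
  induction j with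
  | zero =>
    intro u
    unfold wgt
    split_ifs <;> norm_num
  | succ j ih =>
    intro u
    unfold wgt
    exact mul_nonneg (ih _) (by positivity)

lemma wgt_le_one (j : ℕ) : ∀ u, wgt g K z0 t A T c r j u ≤ 1 := by
  induction j with
  | zero =>
    intro u
    unfold wgt
    split_ifs <;> norm_num
  | succ j ih =>
    intro u
    unfold wgt
    have h1 : (1 / 2 : ℝ) ^ hits g (K ^ 2 * zz K z0 j) (T j) c r u ≤ 1 :=
      pow_le_one₀ (by norm_num) (by norm_num)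
    have h2 := wgt_nonneg (g := g) (K := K) (z0 := z0) (t := t) (A := A) (T := T) (c := c) (r := r) j
      (u / g ^ (K ^ 2 * zz K z0 j - zz K z0 j))
    have h3 := ih (u / g ^ (K ^ 2 * zz K z0 j - zz K z0 j))
    exact mul_le_one₀ h3 (by positivity) h1

lemma wgt_supp (hK : 1 ≤ K) (ht : t ≤ z0) (j : ℕ) : ∀ u, wgt g K z0 t A T c r j u ≠ 0 →
    u / g ^ (zz K z0 j - t) = A := by
  induction j with
  | zero =>
    intro u hu
    unfold wgt at hu
    rw [zz_zero]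
    by_contra h
    rw [if_neg h] at hu
    exact hu rfl
  | succ j ih =>
    intro u hu
    unfold wgt at hu
    have h1 := ih _ (left_ne_zero_of_mul hu)
    rw [Nat.div_div_eq_div_mul, ← pow_add] at h1
    have h2 := zz_le hK z0 j
    have h3 : z0 ≤ zz K z0 j := zz_mono hK z0 (Nat.zero_le j)
    rw [zz_succ] at h2 ⊢
    have e : K ^ 2 * zz K z0 j - zz K z0 j + (zz K z0 j - t) = K ^ 2 * zz K z0 j - t := by omega
    rw [e] at h1
    exact h1

/-- the total weight -/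
lemma wgt_sum {c0 : ℝ} (hg : 2 ≤ g) (hK : 1 ≤ K) (ht : t ≤ z0) (hA3 : 3 ≤ A) (hAt : A < g ^ t) (J : ℕ)
    (hc0 : c0 ≤ 1)
    (hb : ∀ j < J, ∀ B : ℕ, 3 ≤ B → B < g ^ zz K z0 j →
      ∑ y ∈ range (g ^ (K ^ 2 * zz K z0 j - zz K z0 j)), (1 / 2 : ℝ) ^ hits g (K ^ 2 * zz K z0 j) (T j)
        c r (B * g ^ (K ^ 2 * zz K z0 j - zz K z0 j) + y) ≤
      (1 - c0) * (g : ℝ) ^ (K ^ 2 * zz K z0 j - zz K z0 j)) :
    (∑ u ∈ range (g ^ zz K z0 J), wgt g K z0 t A T c r J u) * ((g : ℝ) ^ zz K z0 J)⁻¹ ≤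
      (1 - c0) ^ J * ((g : ℝ) ^ t)⁻¹ := by
  have hg0 : 0 < g := by omega
  have hgr : (0 : ℝ) < g := by exact_mod_cast hg0
  induction J with
  | zero =>
    have e : zz K z0 0 = t + (z0 - t) := by rw [zz_zero]; omega
    have h1 : ∑ u ∈ range (g ^ zz K z0 0), wgt g K z0 t A T c r 0 u =
        ∑ u ∈ range (g ^ (t + (z0 - t))), (fun a => if a = A then (1 : ℝ) else 0) (u / g ^ (z0 - t)) := by
      rw [← e]
      refine Finset.sum_congr rfl fun u _ => ?_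
      unfold wgt
      rfl
    rw [h1, rep g t (z0 - t) (fun a => if a = A then (1 : ℝ) else 0), Finset.sum_ite_eq',
      if_pos (mem_range.2 hAt), e, pow_add]
    have h2 : (0 : ℝ) < (g : ℝ) ^ t := by positivity
    have h3 : (0 : ℝ) < (g : ℝ) ^ (z0 - t) := by positivity
    rw [pow_zero, one_mul, mul_one]
    refine le_of_eq ?_
    field_simp
  | succ J ih =>
    have ih1 := ih fun j hj => hb j (by omega)
    have hJ := hb J (by omega)
    obtain ⟨z, hz⟩ : ∃ z, z = zz K z0 J := ⟨_, rfl⟩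
    obtain ⟨d, hd⟩ : ∃ d, d = K ^ 2 * zz K z0 J - zz K z0 J := ⟨_, rfl⟩
    rw [← hd, ← hz] at hJ
    have hle := zz_le hK z0 J
    rw [zz_succ] at hle
    have e : zz K z0 (J + 1) = z + d := by rw [zz_succ]; omega
    have h1 : ∑ u ∈ range (g ^ zz K z0 (J + 1)), wgt g K z0 t A T c r (J + 1) u =
        ∑ u ∈ range (g ^ z), wgt g K z0 t A T c r J u *
          ∑ y ∈ range (g ^ d), (1 / 2 : ℝ) ^ hits g (K ^ 2 * z) (T J) c r (u * g ^ d + y) := by
      rw [e, pow_add, split]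
      refine Finset.sum_congr rfl fun u _ => ?_
      rw [Finset.mul_sum]
      refine Finset.sum_congr rfl fun y hy => ?_
      show wgt g K z0 t A T c r J ((u * g ^ d + y) / g ^ (K ^ 2 * zz K z0 J - zz K z0 J)) *
        (1 / 2 : ℝ) ^ hits g (K ^ 2 * zz K z0 J) (T J) c r (u * g ^ d + y) = _
      rw [← hd, div_add (mem_range.1 hy), ← hz]
    have h2 : ∑ u ∈ range (g ^ zz K z0 (J + 1)), wgt g K z0 t A T c r (J + 1) u ≤
        (1 - c0) * (g : ℝ) ^ d * ∑ u ∈ range (g ^ z), wgt g K z0 t A T c r J u := by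
      rw [h1, Finset.mul_sum]
      refine Finset.sum_le_sum fun u hu => ?_
      rcases eq_or_ne (wgt g K z0 t A T c r J u) 0 with h0 | h0
      · rw [h0]
        simp
      · have h3 := wgt_supp hK ht J u h0
        have h4 : 3 ≤ u := by
          by_contra hlt
          push Not at hlt
          have h5 : u / g ^ (zz K z0 J - t) ≤ u := Nat.div_le_self _ _
          omega
        have h5 := hJ u h4 (mem_range.1 hu)
        have h6 := wgt_nonneg (g := g) (K := K) (z0 := z0) (t := t) (A := A) (T := T) (c := c) (r := r) J u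
        calc _ ≤ wgt g K z0 t A T c r J u * ((1 - c0) * (g : ℝ) ^ d) := mul_le_mul_of_nonneg_left h5 h6
          _ = _ := by ring
    have hpz : (0 : ℝ) < (g : ℝ) ^ z := by positivity
    have hpd : (0 : ℝ) < (g : ℝ) ^ d := by positivity
    rw [← hz] at ih1
    calc _ ≤ ((1 - c0) * (g : ℝ) ^ d * ∑ u ∈ range (g ^ z), wgt g K z0 t A T c r J u) *
          ((g : ℝ) ^ zz K z0 (J + 1))⁻¹ := mul_le_mul_of_nonneg_right h2 (by positivity)
      _ = (1 - c0) * ((∑ u ∈ range (g ^ z), wgt g K z0 t A T c r J u) * ((g : ℝ) ^ z)⁻¹) := by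
          rw [e, pow_add]
          field_simp
      _ ≤ (1 - c0) * ((1 - c0) ^ J * ((g : ℝ) ^ t)⁻¹) :=
          mul_le_mul_of_nonneg_left ih1 (by linarith)
      _ = _ := by rw [pow_succ]; ring

/-- the weight at a point -/
lemma wgt_eval {X : ℕ → ℕ} (hX : ∀ m n, m ≤ n → X n / g ^ (n - m) = X m) (hK : 1 ≤ K) (ht : t ≤ z0)
    (hr : ∀ p, r p ≤ p) (hXt : X t = A) (J : ℕ) (hT : ∀ j < J, ∀ p ∈ T j, p ≤ zz K z0 (j + 1)) :
    wgt g K z0 t A T c r J (X (zz K z0 J)) =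
      (1 / 2 : ℝ) ^ (∑ j ∈ range J, ((T j).filter (fun p => (roughPart p (c p + X (r p))).Prime)).card) := by
  induction J with
  | zero =>
    unfold wgt
    rw [zz_zero, hX t z0 ht, if_pos hXt]
    simp
  | succ J ih =>
    unfold wgt
    have h1 := zz_le hK z0 J
    have e1 : X (zz K z0 (J + 1)) / g ^ (K ^ 2 * zz K z0 J - zz K z0 J) = X (zz K z0 J) := by
      have := hX _ _ h1
      rwa [zz_succ] at this ⊢
    rw [e1, ih fun j hj => hT j (by omega), Finset.sum_range_succ, pow_add]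
    congr 2
    unfold hits
    congr 1
    refine Finset.filter_congr fun p hp => ?_
    have h2 := hT J (by omega) p hp
    have h3 := hX (r p) (zz K z0 (J + 1)) ((hr p).trans h2)
    rw [zz_succ] at h3 ⊢
    rw [h3]

end

/-- **Deviation bound with blocks.** -/
theorem dev_block : ∃ δ : ℝ, 0 < δ ∧ δ < 1 ∧ ∀ g : ℕ, 2 ≤ g → ∀ (S : Set ℕ) (Q : ℕ) (v : ℝ), 0 < v →
    (∀ᶠ n : ℕ in atTop, v ≤ VS S (Q * n) - VS S n) →
    ∃ (K : ℕ) (c0 : ℝ), 2 ≤ K ∧ 0 < c0 ∧ c0 < 1 ∧ ∀ᶠ z0 : ℕ in atTop, ∀ s : ℝ, 1 - δ ≤ s → s ≤ 1 →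
    ∀ w : ℕ → ℕ, (∀ p, 1 ≤ p → w p < g ^ (p - ⌊s * p⌋₊)) →
    ∀ {Ω : Type} [MeasurableSpace Ω] {μ : Measure Ω} [IsProbabilityMeasure μ] {X : ℕ → Ω → ℕ},
    Top g μ X → ∀ t A J : ℕ, t ≤ z0 → 3 ≤ A → A < g ^ t → ∀ (M : Ω → ℕ) (m : ℝ),
    (∀ x, ∀ F : Finset ℕ, (∀ p ∈ F, K * z0 < p ∧ p ≤ K ^ (2 * J) * z0 ∧ p.Prime ∧ p ∈ S ∧
      (roughPart p (w p * g ^ ⌊s * p⌋₊ + X ⌊s * p⌋₊ x)).Prime) → F.card ≤ M x) →
    μ.real {x | X t x = A ∧ (M x : ℝ) < m} ≤ (2 : ℝ) ^ m * ((1 - c0) ^ J * ((g : ℝ) ^ t)⁻¹) := by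
  classical
  obtain ⟨δ, hδ, hδ4, hblock⟩ := block
  refine ⟨δ / 8, by positivity, by linarith, fun g hg S Q v hv hS => ?_⟩
  obtain ⟨K, hKdef⟩ : ∃ K : ℕ, K = ⌈16 / δ⌉₊ + Q + 2 := ⟨_, rfl⟩
  have hKδ : 16 / δ ≤ K := by
    rw [hKdef]
    push_cast
    have := Nat.le_ceil (16 / δ)
    have h2 : (0 : ℝ) ≤ Q := Nat.cast_nonneg Q
    linarith
  have hKQ : Q ≤ K := by omega
  have hK2 : 2 ≤ K := by omega
  obtain ⟨c0, hc0, hev⟩ := hblock g hg K hKδ v hv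
  obtain ⟨Z1, hZ1⟩ := eventually_atTop.1 hev
  obtain ⟨Z2, hZ2⟩ := eventually_atTop.1 hS
  have hgr : (2 : ℝ) ≤ g := by exact_mod_cast hg
  refine ⟨K, min c0 (1 / 2), hK2, lt_min hc0 (by norm_num), by
    have := min_le_right c0 (1 / 2); linarith, ?_⟩
  filter_upwards [eventually_ge_atTop (Z1 + Z2 + 1)] with z0 hz0 s hs hs1 w hw
  intro Ω _ μ _ X hX t A J ht hA3 hAt M m hM
  obtain ⟨T, hT⟩ : ∃ T : ℕ → Finset ℕ, T = fun j => (Ioc (K * zz K z0 j) (zz K z0 (j + 1))).filter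
      (fun p => p.Prime ∧ p ∈ S) := ⟨_, rfl⟩
  have hmT : ∀ j p, p ∈ T j ↔ (K * zz K z0 j < p ∧ p ≤ zz K z0 (j + 1)) ∧ p.Prime ∧ p ∈ S := by
    intro j p
    rw [hT]
    simp only [mem_filter, mem_Ioc]
  have hz0le : ∀ j, z0 ≤ zz K z0 j := fun j => zz_mono (by omega) z0 (Nat.zero_le j)
  have hTw : ∀ j, v ≤ ∑ p ∈ T j, wt p := by
    intro j
    obtain ⟨z, hz⟩ : ∃ z, z = zz K z0 j := ⟨_, rfl⟩
    have hz1 : z0 ≤ z := by rw [hz]; exact hz0le j
    have h1 := hZ2 (K * z) (by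
      have : z ≤ K * z := Nat.le_mul_of_pos_left _ (by omega)
      omega)
    have h2 : VS S (Q * (K * z)) ≤ VS S (K ^ 2 * z) := by
      refine VS_mono S ?_
      rw [sq, mul_assoc]
      exact Nat.mul_le_mul_right _ hKQ
    have hle : K * z ≤ K ^ 2 * z := by
      rw [sq, mul_assoc]
      exact Nat.le_mul_of_pos_left _ (by omega)
    have h3 : ∑ p ∈ T j, wt p = VS S (K ^ 2 * z) - VS S (K * z) := by
      rw [hT]
      simp only
      rw [zz_succ, ← hz, Finset.sum_filter]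
      unfold VS
      have e1 : range (K ^ 2 * z + 1) = range (K * z + 1) ∪ Ioc (K * z) (K ^ 2 * z) := by
        ext p
        simp only [mem_range, mem_union, mem_Ioc]
        omega
      have hd : Disjoint (range (K * z + 1)) (Ioc (K * z) (K ^ 2 * z)) := by
        rw [Finset.disjoint_left]
        intro p hp hp'
        rw [mem_range] at hp
        rw [mem_Ioc] at hp'
        omega
      rw [e1, Finset.sum_union hd, add_sub_cancel_left]
      refine Finset.sum_congr rfl fun p _ => ?_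
      by_cases h : p.Prime ∧ p ∈ S
      · rw [if_pos h, if_pos ⟨h.2, h.1⟩]
      · rw [if_neg h, if_neg fun h1 => h ⟨h1.2, h1.1⟩]
    rw [h3]
    linarith
  have hrle : ∀ p : ℕ, ⌊s * p⌋₊ ≤ p := by
    intro p
    refine Nat.floor_le_of_le ?_
    have : (0 : ℝ) ≤ p := Nat.cast_nonneg p
    nlinarith
  have hsum := wgt_sum (g := g) (K := K) (z0 := z0) (t := t) (A := A) (T := T)
    (c := fun p => w p * g ^ ⌊s * p⌋₊) (r := fun p => ⌊s * p⌋₊) (c0 := min c0 (1 / 2)) hg (by omega) ht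
    hA3 hAt J (by have := min_le_right c0 (1 / 2); linarith) (by
      intro j _ B hB3 hB
      have h1 := hZ1 (zz K z0 j) (by have := hz0le j; omega) s hs hs1 w hw (T j) (fun p hp => by
        rw [hmT] at hp
        rw [zz_succ] at hp
        exact ⟨hp.2.1, hp.1.1, hp.1.2⟩) (hTw j) B hB3 hB
      refine h1.trans ?_
      have h2 : (0 : ℝ) < (g : ℝ) ^ (K ^ 2 * zz K z0 j - zz K z0 j) := by positivity
      have h3 := min_le_left c0 (1 / 2)
      nlinarith)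
  have hint := hX.integral hg (zz K z0 J) (wgt g K z0 t A T (fun p => w p * g ^ ⌊s * p⌋₊)
    (fun p => ⌊s * p⌋₊) J)
  rw [← hint] at hsum
  -- Markov
  obtain ⟨Y, hY⟩ : ∃ Y : Ω → ℝ, Y = fun x => wgt g K z0 t A T (fun p => w p * g ^ ⌊s * p⌋₊)
    (fun p => ⌊s * p⌋₊) J (X (zz K z0 J) x) := ⟨_, rfl⟩
  have hYm : Measurable Y := by
    rw [hY]
    exact (measurable_from_nat (f := wgt g K z0 t A T (fun p => w p * g ^ ⌊s * p⌋₊)
      (fun p => ⌊s * p⌋₊) J)).comp (hX.meas _)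
  have hY0 : ∀ x, 0 ≤ Y x := fun x => by rw [hY]; exact wgt_nonneg _ _
  have hY1 : ∀ x, Y x ≤ 1 := fun x => by rw [hY]; exact wgt_le_one _ _
  have hYi : Integrable Y μ := Integrable.of_bound hYm.aestronglyMeasurable 1
    (Eventually.of_forall fun x => by rw [Real.norm_of_nonneg (hY0 x)]; exact hY1 x)
  have hsub : {x | X t x = A ∧ (M x : ℝ) < m} ⊆ {x | ((2 : ℝ) ^ m)⁻¹ ≤ Y x} := by
    intro x hx
    obtain ⟨hx1, hx2⟩ := hx
    show ((2 : ℝ) ^ m)⁻¹ ≤ Y x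
    have h1 := wgt_eval (g := g) (K := K) (z0 := z0) (t := t) (A := A) (T := T)
      (c := fun p => w p * g ^ ⌊s * p⌋₊) (r := fun p => ⌊s * p⌋₊) (X := fun n => X n x)
      (fun m n hmn => hX.compat m n x hmn) (by omega) ht hrle hx1 J (by
        intro j _ p hp
        rw [hmT] at hp
        exact hp.1.2)
    have h2 : Y x = wgt g K z0 t A T (fun p => w p * g ^ ⌊s * p⌋₊) (fun p => ⌊s * p⌋₊) J
        (X (zz K z0 J) x) := by rw [hY]
    rw [h2, h1]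
    set n := ∑ j ∈ range J, ((T j).filter (fun p =>
      (roughPart p (w p * g ^ ⌊s * p⌋₊ + X ⌊s * p⌋₊ x)).Prime)).card with hn
    have hnM : n ≤ M x := by
      have h3 := chain_card (K := K) (by omega) (zz K z0) (zz_succ K z0)
        (fun p => p.Prime ∧ p ∈ S ∧ (roughPart p (w p * g ^ ⌊s * p⌋₊ + X ⌊s * p⌋₊ x)).Prime) J
      have h4 := hM x ((Ioc (K * zz K z0 0) (zz K z0 J)).filter (fun p => p.Prime ∧ p ∈ S ∧
        (roughPart p (w p * g ^ ⌊s * p⌋₊ + X ⌊s * p⌋₊ x)).Prime)) (by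
          intro p hp
          rw [mem_filter, mem_Ioc, zz_zero, zz_eq] at hp
          exact ⟨hp.1.1, hp.1.2, hp.2⟩)
      refine le_trans (le_of_eq ?_) (h3.trans h4)
      rw [hn]
      refine Finset.sum_congr rfl fun j _ => ?_
      rw [hT]
      simp only [Finset.filter_filter]
      congr 1
      ext p
      simp only [mem_filter, and_assoc]
    have hn2 : (n : ℝ) ≤ m := by
      have : (n : ℝ) ≤ M x := by exact_mod_cast hnM
      linarith
    have h5 : (1 / 2 : ℝ) ^ n = ((2 : ℝ) ^ (n : ℝ))⁻¹ := by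
      rw [Real.rpow_natCast, one_div, inv_pow]
    rw [h5]
    refine inv_anti₀ (by positivity) ?_
    exact Real.rpow_le_rpow_of_exponent_le (by norm_num) hn2
  have hmk := mul_meas_ge_le_integral_of_nonneg (μ := μ) (Eventually.of_forall hY0) hYi (((2 : ℝ) ^ m)⁻¹)
  have h2m : (0 : ℝ) < (2 : ℝ) ^ m := by positivity
  have hmono : μ.real {x | X t x = A ∧ (M x : ℝ) < m} ≤ μ.real {x | ((2 : ℝ) ^ m)⁻¹ ≤ Y x} :=
    measureReal_mono hsub
  have hYint : ∫ x, Y x ∂μ ≤ (1 - min c0 (1 / 2)) ^ J * ((g : ℝ) ^ t)⁻¹ := by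
    rw [hY]
    exact hsum
  have h6 : μ.real {x | ((2 : ℝ) ^ m)⁻¹ ≤ Y x} ≤ (2 : ℝ) ^ m * ∫ x, Y x ∂μ := by
    have h7 : ((2 : ℝ) ^ m)⁻¹ * μ.real {x | ((2 : ℝ) ^ m)⁻¹ ≤ Y x} ≤ ∫ x, Y x ∂μ := hmk
    rw [inv_mul_le_iff₀ h2m] at h7
    exact h7
  calc _ ≤ μ.real {x | ((2 : ℝ) ^ m)⁻¹ ≤ Y x} := hmono
    _ ≤ (2 : ℝ) ^ m * ∫ x, Y x ∂μ := h6
    _ ≤ _ := mul_le_mul_of_nonneg_left hYint h2m.le

end Pool.Agent.W157.MX
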