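import Mathlib
import Pool.Agent.Q160.TB2
import Pool.Agent.W157.MX.Mean

set_option autoImplicit false

/-!
# Sieve bounds for integers with prime rough part, uniformly in the base
-/

namespace Pool.Agent.W157.MG

open Finset Filter Topology MeasureTheory
open Pool.Agent.W66L
open Pool.Agent.W66 (sift_two MM MM_ne two_dvd_MM lt_of_not_dvd_MM no_mid_prime large_smooth_count VV_le_log
  dvd_primorial le_of_dvd_primorial inv_factor_le)
open Pool.Agent.H305R2 (roughPart roughPart_prime roughPart_mul SM SM_pos SMz mem_SMz ZZ VV sum_rough_eq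
  sum_le_VV tail_le ZZ_le_exp ZZ_nonneg VV_nonneg log_nat_tendsto)
open Pool.Agent.Helper112.E456.SieveAux (DD)
open Pool.Agent.Q160.TB (bt_int sum_rpi_eq win_lower rpi_pos_arg)
open Pool.Agent.TH888.R (wt wt_nonneg)
open Pool.Agent.W157.MX (sum_win)

/-- the sieve ratio -/
lemma ratio_unif : ∃ C : ℝ, 0 < C ∧ ∀ b : ℕ, 2 ≤ b → ∀ D : ℕ, ∀ᶠ q : ℕ in atTop, ∀ h r : ℕ,
    0 < r → r ≤ b ^ (D * q) →
    ((MM q b h r : ℕ) : ℝ) / (Nat.totient (MM q b h r) : ℝ) ≤ C * Real.log q := by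
  obtain ⟨C, hC, hV⟩ := VV_le_log
  refine ⟨C * Real.exp 1, by positivity, fun b hb D => ?_⟩
  filter_upwards [hV, log_nat_tendsto.eventually_ge_atTop 1, eventually_ge_atTop b,
    eventually_ge_atTop 2, log_nat_tendsto.eventually_ge_atTop (2 * (D * Real.log b))] with
    q hVq hlq hbq hq2 hlqD h r hr hrb
  set M := MM q b h r with hM
  have hM0 : M ≠ 0 := MM_ne hb hr
  have hq0 : (0 : ℝ) < q := by positivity
  have hlb : 0 < Real.log b := Real.log_pos (by exact_mod_cast hb)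
  -- formula
  have hφ : (Nat.totient M : ℝ) = M * ∏ p ∈ M.primeFactors, (1 - (p : ℝ)⁻¹) := by
    have h1 := Nat.totient_eq_mul_prod_factors M
    have h2 : ((Nat.totient M : ℚ) : ℝ) =
        ((M * ∏ p ∈ M.primeFactors, (1 - (p : ℚ)⁻¹) : ℚ) : ℝ) := by rw [h1]
    push_cast at h2
    exact h2
  have hMr : (M : ℝ) ≠ 0 := by exact_mod_cast hM0
  have hratio : (M : ℝ) / (Nat.totient M : ℝ) = ∏ p ∈ M.primeFactors, (1 - (p : ℝ)⁻¹)⁻¹ := by
    rw [hφ, Finset.prod_inv_distrib, div_mul_eq_div_div, div_self hMr, one_div]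
  have hfac1 : ∀ p : ℕ, p.Prime → 1 ≤ (1 - (p : ℝ)⁻¹)⁻¹ := by
    intro p hp
    have h2 : (2 : ℝ) ≤ p := by exact_mod_cast hp.two_le
    have hx : (p : ℝ)⁻¹ ≤ 1 / 2 := by rw [← one_div]; exact one_div_le_one_div_of_le (by norm_num) h2
    have hx0 : 0 < (p : ℝ)⁻¹ := by positivity
    exact (one_le_inv₀ (by linarith)).2 (by linarith)
  rw [hratio]
  set A := (Icc 1 q).filter Nat.Prime with hA
  set B := r.primeFactors.filter (fun l => q < l) with hB
  have hsub : M.primeFactors ⊆ A ∪ B := by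
    intro l hl
    have hlp := Nat.prime_of_mem_primeFactors hl
    have hld := Nat.dvd_of_mem_primeFactors hl
    rw [mem_union, hA, mem_filter, mem_Icc, hB, mem_filter, Nat.mem_primeFactors]
    by_cases hlq' : l ≤ q
    · left; exact ⟨⟨hlp.one_lt.le, hlq'⟩, hlp⟩
    · right
      rw [hM, MM] at hld
      rcases (Nat.Prime.dvd_mul hlp).1 hld with h1 | h1
      · exact absurd (le_of_dvd_primorial hlp h1) hlq'
      · rcases (Nat.Prime.dvd_mul hlp).1 h1 with h2 | h2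
        · have h3 := Nat.le_of_dvd (by omega) (hlp.dvd_of_dvd_pow h2)
          omega
        · exact ⟨⟨hlp, h2, hr.ne'⟩, by omega⟩
  have hdisj : Disjoint A B := by
    rw [Finset.disjoint_left]
    intro l h1 h2
    rw [hA, mem_filter, mem_Icc] at h1
    rw [hB, mem_filter] at h2
    omega
  have hAB : ∀ p ∈ A ∪ B, p.Prime := by
    intro p hp
    rw [mem_union] at hp
    rcases hp with hp | hp
    · exact (mem_filter.1 hp).2
    · exact Nat.prime_of_mem_primeFactors (mem_filter.1 hp).1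
  have h1 : ∏ p ∈ M.primeFactors, (1 - (p : ℝ)⁻¹)⁻¹ ≤ ∏ p ∈ A ∪ B, (1 - (p : ℝ)⁻¹)⁻¹ := by
    refine Finset.prod_le_prod_of_subset_of_one_le hsub ?_ ?_
    · intro p hp
      have := hfac1 p (Nat.prime_of_mem_primeFactors hp)
      linarith
    · intro p hp _
      exact hfac1 p (hAB p hp)
  rw [Finset.prod_union hdisj] at h1
  have hVA : ∏ p ∈ A, (1 - (p : ℝ)⁻¹)⁻¹ = VV q := rfl
  rw [hVA] at h1
  have h2 : ∏ p ∈ B, (1 - (p : ℝ)⁻¹)⁻¹ ≤ Real.exp (2 / q) ^ B.card := by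
    rw [← Finset.prod_const]
    refine Finset.prod_le_prod ?_ ?_
    · intro p hp
      have := hfac1 p (Nat.prime_of_mem_primeFactors (mem_filter.1 hp).1)
      linarith
    · intro p hp
      have hp' := mem_filter.1 hp
      refine (inv_factor_le (by have := (Nat.prime_of_mem_primeFactors hp'.1).two_le; omega)).trans ?_
      rw [Real.exp_le_exp]
      refine div_le_div_of_nonneg_left (by norm_num) hq0 ?_
      exact_mod_cast hp'.2.le
  have h3 : q ^ B.card ≤ r := by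
    calc q ^ B.card ≤ ∏ l ∈ B, l := by
          rw [← Finset.prod_const]
          exact Finset.prod_le_prod' fun l hl => (mem_filter.1 hl).2.le
      _ ≤ ∏ l ∈ r.primeFactors, l := by
          refine Finset.prod_le_prod_of_subset_of_one_le' (filter_subset _ _) ?_
          intro l hl _
          exact (Nat.prime_of_mem_primeFactors hl).one_lt.le
      _ ≤ r := Nat.le_of_dvd hr (Nat.prod_primeFactors_dvd r)
  have h4 : (B.card : ℝ) * Real.log q ≤ ((D * q : ℕ) : ℝ) * Real.log b := by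
    rw [← Real.log_pow, ← Real.log_pow]
    refine Real.log_le_log (by positivity) ?_
    exact_mod_cast h3.trans hrb
  have h5 : Real.exp (2 / q) ^ B.card ≤ Real.exp 1 := by
    rw [← Real.exp_nat_mul, Real.exp_le_exp]
    have h6 : (B.card : ℝ) * Real.log q ≤ (D * q) * Real.log b := by
      push_cast at h4
      exact h4
    have hlq0 : 0 < Real.log q := by linarith
    have h7 : (B.card : ℝ) * (2 / q) * Real.log q ≤ 1 * Real.log q := by
      calc (B.card : ℝ) * (2 / q) * Real.log q = (B.card * Real.log q) * (2 / q) := by ring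
        _ ≤ ((D * q) * Real.log b) * (2 / q) := by gcongr
        _ = 2 * (D * Real.log b) := by field_simp
        _ ≤ 1 * Real.log q := by linarith
    exact le_of_mul_le_mul_right h7 hlq0
  have hV0 := VV_nonneg q
  calc ∏ p ∈ M.primeFactors, (1 - (p : ℝ)⁻¹)⁻¹ ≤ VV q * ∏ p ∈ B, (1 - (p : ℝ)⁻¹)⁻¹ := h1
    _ ≤ VV q * Real.exp 1 := mul_le_mul_of_nonneg_left (h2.trans h5) hV0
    _ ≤ (C * Real.log q) * Real.exp 1 := by gcongr
    _ = _ := by ring

/-- an exponential is small compared with any multiple of `(log p / p) ^ 2` -/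
lemma exp_small_eps {c ε : ℝ} (hc : 0 < c) (hε : 0 < ε) : ∀ᶠ p : ℕ in atTop,
    Real.exp (-(c * p)) ≤ ε * (Real.log p / p) ^ 2 := by
  have h1 := exp_small2 (c := c / 2) (by positivity)
  have h2 : Tendsto (fun p : ℕ => Real.exp (-(c / 2 * p))) atTop (𝓝 0) := by
    refine Real.tendsto_exp_atBot.comp ?_
    refine tendsto_neg_atTop_atBot.comp ?_
    exact tendsto_natCast_atTop_atTop.const_mul_atTop (by positivity)
  filter_upwards [h1, h2.eventually (eventually_le_nhds hε)] with p hp1 hp2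
  calc Real.exp (-(c * p)) = Real.exp (-(c / 2 * p)) * Real.exp (-(c / 2 * p)) := by
        rw [← Real.exp_add]; ring_nf
    _ ≤ ε * (Real.log p / p) ^ 2 := mul_le_mul hp2 hp1 (Real.exp_pos _).le hε.le

/-- **Upper bound in short intervals.** -/
theorem win_upper2 : ∃ K : ℝ, 0 < K ∧ ∀ κ : ℝ, 0 < κ → ∀ᶠ q : ℕ in atTop, ∀ A H : ℕ,
    Real.exp (κ * q) ≤ H → ((A + H : ℕ) : ℝ) ≤ (H : ℝ) ^ (9 / 8 : ℝ) →
    ∑ m ∈ Ioc A (A + H), rpi q m ≤ K / κ * H * (Real.log q / q) := by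
  classical
  obtain ⟨C, hC, hVV⟩ := VV_le_log
  refine ⟨120 * C + 1, by positivity, fun κ hκ => ?_⟩
  have hZZ := ZZ_le_exp (c := κ / 16) (by positivity)
  have hsm := exp_small_eps (c := κ / 16) (ε := 1 / κ) (by positivity) (by positivity)
  have hκq : ∀ᶠ q : ℕ in atTop, 4 / κ ≤ (q : ℝ) := tendsto_natCast_atTop_atTop.eventually_ge_atTop _
  filter_upwards [hVV, hZZ, hsm, hκq, eventually_ge_atTop 3] with q h1 h2 h3 h4 hq3 A H hH hAH
  have hq3' : (3 : ℝ) ≤ q := by exact_mod_cast hq3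
  have hq0 : (0 : ℝ) < q := by linarith
  have hκq4 : 4 ≤ κ * q := by
    rwa [div_le_iff₀ hκ, mul_comm] at h4
  have hlq0 : 0 < Real.log q := Real.log_pos (by linarith)
  have hw1 : Real.log q / q ≤ 1 := by
    rw [div_le_one hq0]
    have := Real.log_le_sub_one_of_pos hq0
    linarith
  have hw0 : 0 < Real.log q / q := by positivity
  have hHpos : (0 : ℝ) < H := lt_of_lt_of_le (Real.exp_pos _) hH
  have hlH : κ * q ≤ Real.log H := by
    rw [Real.le_log_iff_exp_le hHpos]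
    exact hH
  have hlH0 : 0 < Real.log H := by linarith
  have hH1 : (1 : ℝ) ≤ H := by
    have := Real.add_one_le_exp (κ * q)
    linarith
  have hH16 : (16 : ℝ) ≤ H := by
    refine le_trans ?_ hH
    have h5 : Real.exp 4 ≤ Real.exp (κ * q) := Real.exp_le_exp.2 hκq4
    have h6 : Real.exp 4 = Real.exp 1 ^ 4 := by rw [← Real.exp_nat_mul]; norm_num
    have h7 := Real.exp_one_gt_d9
    have h8 : (2 : ℝ) ^ 4 ≤ Real.exp 1 ^ 4 := by gcongr; linarith
    linarith
  set S : ℝ := (H : ℝ) ^ (1 / 2 : ℝ) with hS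
  have hS0 : 0 < S := Real.rpow_pos_of_pos hHpos _
  have hSS : S * S = H := by rw [hS, ← Real.rpow_add hHpos]; norm_num
  have hS4 : 4 ≤ S := by nlinarith
  rw [sum_rpi_eq, ← Finset.sum_filter_add_sum_filter_not _ (fun s : ℕ => (s : ℝ) ≤ S)]
  have hX0 : (0 : ℝ) ≤ ((A + H : ℕ) : ℝ) := Nat.cast_nonneg _
  -- small smooth part
  have hmain : ∑ s ∈ (SMz q ((A + H : ℕ) : ℝ)).filter (fun s : ℕ => (s : ℝ) ≤ S),
      ∑ l ∈ (Ioc (A / s) ((A + H) / s)).filter (fun l => l.Prime ∧ q < l), (1 : ℝ) ≤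
      120 / κ * C * H * (Real.log q / q) := by
    have hterm : ∀ s ∈ (SMz q ((A + H : ℕ) : ℝ)).filter (fun s : ℕ => (s : ℝ) ≤ S),
        ∑ l ∈ (Ioc (A / s) ((A + H) / s)).filter (fun l => l.Prime ∧ q < l), (1 : ℝ) ≤
        (120 * H / (κ * q)) * (s : ℝ)⁻¹ := by
      intro s hs
      rw [mem_filter, mem_SMz hX0] at hs
      have hs0 : 0 < s := SM_pos hs.1.1
      have hs0' : (0 : ℝ) < s := by exact_mod_cast hs0
      have hHs : S ≤ (H : ℝ) / s := by
        rw [le_div_iff₀ hs0']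
        calc S * s ≤ S * S := mul_le_mul_of_nonneg_left hs.2 hS0.le
          _ = H := hSS
      set N := H / s + 2 with hN
      have hNr1 : (H : ℝ) / s ≤ N := by
        rw [hN]
        push_cast
        have := Nat.lt_floor_add_one ((H : ℝ) / s)
        rw [Nat.floor_div_eq_div] at this
        linarith
      have hNr2 : (N : ℝ) ≤ 3 * (H / s) := by
        rw [hN]
        push_cast
        have : ((H / s : ℕ) : ℝ) ≤ (H : ℝ) / s := Nat.cast_div_le
        linarith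
      rw [Finset.sum_const, nsmul_eq_mul, mul_one]
      have hsub : (Ioc (A / s) ((A + H) / s)).filter (fun l => l.Prime ∧ q < l) ⊆
          (Ioc (A / s) (A / s + N)).filter Nat.Prime := by
        intro l hl
        rw [mem_filter, mem_Ioc] at hl ⊢
        refine ⟨⟨hl.1.1, hl.1.2.trans ?_⟩, hl.2.1⟩
  
        have h5 : (A + H) / s ≤ A / s + H / s + 1 := by
          rw [Nat.add_div hs0]
          split_ifs <;> omega
        omega
      have h5 : (((Ioc (A / s) (A / s + N)).filter Nat.Prime).card : ℝ) ≤ 20 * (N / Real.log N) :=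
        bt_int (by rw [hN]; exact Nat.le_add_left 2 _)
      have h6 : (((Ioc (A / s) ((A + H) / s)).filter (fun l => l.Prime ∧ q < l)).card : ℝ) ≤
          20 * (N / Real.log N) := le_trans (by exact_mod_cast Finset.card_le_card hsub) h5
      refine h6.trans ?_
      have hlN : κ * q / 2 ≤ Real.log N := by
        have h7 : Real.log S ≤ Real.log N := Real.log_le_log hS0 (hHs.trans hNr1)
        rw [hS, Real.log_rpow hHpos] at h7
        linarith
      have hκq0 : 0 < κ * q / 2 := by positivity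
      calc 20 * ((N : ℝ) / Real.log N) ≤ 20 * ((3 * (H / s)) / (κ * q / 2)) := by gcongr
        _ = _ := by field_simp; norm_num
    have hF : ∀ n ∈ (SMz q ((A + H : ℕ) : ℝ)).filter (fun s : ℕ => (s : ℝ) ≤ S), n ∈ SM q := by
      intro n hn
      rw [Finset.mem_filter, mem_SMz hX0] at hn
      exact hn.1.1
    calc _ ≤ ∑ s ∈ (SMz q ((A + H : ℕ) : ℝ)).filter (fun s : ℕ => (s : ℝ) ≤ S),
          (120 * H / (κ * q)) * (s : ℝ)⁻¹ := Finset.sum_le_sum hterm
      _ = (120 * H / (κ * q)) * ∑ s ∈ (SMz q ((A + H : ℕ) : ℝ)).filter (fun s : ℕ => (s : ℝ) ≤ S),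
          (s : ℝ)⁻¹ := by rw [Finset.mul_sum]
      _ ≤ (120 * H / (κ * q)) * (C * Real.log q) :=
          mul_le_mul_of_nonneg_left ((sum_le_VV q _ hF).trans h1) (by positivity)
      _ = _ := by field_simp
  -- large smooth part
  have hrest : ∑ s ∈ (SMz q ((A + H : ℕ) : ℝ)).filter (fun s : ℕ => ¬ (s : ℝ) ≤ S),
      ∑ l ∈ (Ioc (A / s) ((A + H) / s)).filter (fun l => l.Prime ∧ q < l), (1 : ℝ) ≤
      H * (1 / κ * (Real.log q / q)) := by
    have hterm : ∀ s ∈ (SMz q ((A + H : ℕ) : ℝ)).filter (fun s : ℕ => ¬ (s : ℝ) ≤ S),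
        ∑ l ∈ (Ioc (A / s) ((A + H) / s)).filter (fun l => l.Prime ∧ q < l), (1 : ℝ) ≤
        ((A + H : ℕ) : ℝ) * (s : ℝ)⁻¹ := by
      intro s hs
      rw [Finset.sum_const, nsmul_eq_mul, mul_one]
      calc (((Ioc (A / s) ((A + H) / s)).filter (fun l => l.Prime ∧ q < l)).card : ℝ) ≤
            ((Ioc (A / s) ((A + H) / s)).card : ℝ) := by
              exact_mod_cast Finset.card_filter_le _ _
        _ ≤ (((A + H) / s : ℕ) : ℝ) := by
              rw [Nat.card_Ioc]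
              exact_mod_cast Nat.sub_le _ _
        _ ≤ ((A + H : ℕ) : ℝ) / s := Nat.cast_div_le
        _ = _ := by rw [div_eq_mul_inv]
    have hF : ∀ n ∈ (SMz q ((A + H : ℕ) : ℝ)).filter (fun s : ℕ => ¬ (s : ℝ) ≤ S),
        n ∈ SM q ∧ S ≤ (n : ℝ) := by
      intro n hn
      rw [Finset.mem_filter, mem_SMz hX0] at hn
      exact ⟨hn.1.1, (not_le.1 hn.2).le⟩
    have hSm : S ^ (-(1 / 2) : ℝ) = (H : ℝ) ^ (-(1 / 4) : ℝ) := by
      rw [hS, ← Real.rpow_mul hHpos.le]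
      norm_num
    have hpow : ((A + H : ℕ) : ℝ) * (S ^ (-(1 / 2) : ℝ) * ZZ q) ≤
        H * (1 / κ * (Real.log q / q)) := by
      rw [hSm]
      have hZ0 := ZZ_nonneg q
      have h5 : (H : ℝ) ^ (-(1 / 8) : ℝ) ≤ Real.exp (-(κ / 8 * q)) := by
        rw [Real.rpow_def_of_pos hHpos]
        refine Real.exp_le_exp.2 ?_
        nlinarith
      calc ((A + H : ℕ) : ℝ) * ((H : ℝ) ^ (-(1 / 4) : ℝ) * ZZ q) ≤
            (H : ℝ) ^ (9 / 8 : ℝ) * ((H : ℝ) ^ (-(1 / 4) : ℝ) * Real.exp (κ / 16 * q)) := by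
              gcongr
        _ = H * ((H : ℝ) ^ (-(1 / 8) : ℝ) * Real.exp (κ / 16 * q)) := by
              have e1 : (H : ℝ) ^ (9 / 8 : ℝ) * (H : ℝ) ^ (-(1 / 4) : ℝ) =
                  H * (H : ℝ) ^ (-(1 / 8) : ℝ) := by
                have e2 : (H : ℝ) * (H : ℝ) ^ (-(1 / 8) : ℝ) =
                    (H : ℝ) ^ (1 : ℝ) * (H : ℝ) ^ (-(1 / 8) : ℝ) := by rw [Real.rpow_one]
                rw [e2, ← Real.rpow_add hHpos, ← Real.rpow_add hHpos]
                norm_num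
              calc _ = (H : ℝ) ^ (9 / 8 : ℝ) * (H : ℝ) ^ (-(1 / 4) : ℝ) * Real.exp (κ / 16 * q) := by ring
                _ = _ := by rw [e1]; ring
        _ ≤ H * (Real.exp (-(κ / 8 * q)) * Real.exp (κ / 16 * q)) := by gcongr
        _ = H * Real.exp (-(κ / 16 * q)) := by rw [← Real.exp_add]; ring_nf
        _ ≤ H * (1 / κ * (Real.log q / q) ^ 2) := mul_le_mul_of_nonneg_left h3 hHpos.le
        _ ≤ H * (1 / κ * (Real.log q / q)) := by
              refine mul_le_mul_of_nonneg_left ?_ hHpos.le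
              refine mul_le_mul_of_nonneg_left ?_ (by positivity)
              nlinarith
    calc _ ≤ ∑ s ∈ (SMz q ((A + H : ℕ) : ℝ)).filter (fun s : ℕ => ¬ (s : ℝ) ≤ S),
          ((A + H : ℕ) : ℝ) * (s : ℝ)⁻¹ := Finset.sum_le_sum hterm
      _ = ((A + H : ℕ) : ℝ) * ∑ s ∈ (SMz q ((A + H : ℕ) : ℝ)).filter (fun s : ℕ => ¬ (s : ℝ) ≤ S),
          (s : ℝ)⁻¹ := by rw [Finset.mul_sum]
      _ ≤ ((A + H : ℕ) : ℝ) * (S ^ (-(1 / 2) : ℝ) * ZZ q) :=
          mul_le_mul_of_nonneg_left (tail_le q hS0 _ hF) hX0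
      _ ≤ _ := hpow
  calc _ ≤ 120 / κ * C * H * (Real.log q / q) + H * (1 / κ * (Real.log q / q)) := add_le_add hmain hrest
    _ = _ := by ring

/-- few elements of a window have a large smooth part -/
lemma smooth_win2 {g : ℕ} (hg : 2 ≤ g) {κ ε : ℝ} (hκ : 0 < κ) (hε : 0 < ε) : ∀ᶠ p : ℕ in atTop, ∀ q : ℕ, p ≤ q →
    ∀ a c0 : ℕ, κ * q ≤ a → ((c0 : ℝ) + (g : ℝ) ^ a) ≤ ((g : ℝ) ^ a) ^ (9 / 8 : ℝ) →
    (((range (g ^ a)).filter (fun y => (roughPart q (c0 + y)).Prime ∧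
      Real.exp (Real.log g * a / 2) ≤ (((c0 + y) / roughPart q (c0 + y) : ℕ) : ℝ))).card : ℝ) ≤
      (g : ℝ) ^ a * (ε * (Real.log p / p) ^ 2) := by
  classical
  obtain ⟨lg, hlg⟩ : ∃ lg, lg = Real.log g := ⟨_, rfl⟩
  have hlg0 : 0 < lg := by rw [hlg]; exact Real.log_pos (by exact_mod_cast hg)
  rw [← hlg]
  obtain ⟨P1, hP1⟩ := eventually_atTop.1 (ZZ_le_exp (c := lg * κ / 16) (by positivity))
  obtain ⟨P2, hP2⟩ := eventually_atTop.1 (exp_small_eps (c := lg * κ / 16) (by positivity) hε)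
  filter_upwards [eventually_ge_atTop P1, eventually_ge_atTop P2, eventually_ge_atTop 3] with p h1 h2 h3
    q hpq a c0 ha hc
  have hgr : (2 : ℝ) ≤ g := by exact_mod_cast hg
  have hga : (g : ℝ) ^ a = Real.exp (lg * a) := by
    rw [mul_comm, Real.exp_nat_mul, hlg, Real.exp_log (by linarith)]
  have hp0 : (0 : ℝ) < p := by exact_mod_cast (by omega : 0 < p)
  have hq0 : (0 : ℝ) < q := by exact_mod_cast (by omega : 0 < q)
  have hZ := hP1 q (by omega)
  have hE := hP2 p (by omega)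
  have hcount := large_smooth_count q (c0 + g ^ a) (S := Real.exp (lg * a / 2)) (Real.exp_pos _)
  have hsub : ((range (g ^ a)).filter (fun y => (roughPart q (c0 + y)).Prime ∧
      Real.exp (lg * a / 2) ≤ (((c0 + y) / roughPart q (c0 + y) : ℕ) : ℝ))).image (fun y => c0 + y) ⊆
      (Icc 1 (c0 + g ^ a)).filter (fun m => (roughPart q m).Prime ∧
      Real.exp (lg * a / 2) ≤ ((m / roughPart q m : ℕ) : ℝ)) := by
    intro m hm
    rw [mem_image] at hm
    obtain ⟨y, hy, rfl⟩ := hm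
    rw [mem_filter, mem_range] at hy
    rw [mem_filter, mem_Icc]
    exact ⟨⟨rpi_pos_arg hy.2.1, by omega⟩, hy.2⟩
  have hcard : (((range (g ^ a)).filter (fun y => (roughPart q (c0 + y)).Prime ∧
      Real.exp (lg * a / 2) ≤ (((c0 + y) / roughPart q (c0 + y) : ℕ) : ℝ))).card : ℝ) ≤
      (((Icc 1 (c0 + g ^ a)).filter (fun m => (roughPart q m).Prime ∧
      Real.exp (lg * a / 2) ≤ ((m / roughPart q m : ℕ) : ℝ))).card : ℝ) := by
    rw [← Finset.card_image_of_injective (f := fun y => c0 + y) _ (add_right_injective c0)]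
    exact_mod_cast Finset.card_le_card hsub
  refine (hcard.trans hcount).trans ?_
  have hZ0 := ZZ_nonneg q
  have hX : ((c0 + g ^ a : ℕ) : ℝ) ≤ Real.exp (lg * a * (9 / 8)) := by
    push_cast
    rw [Real.exp_mul, ← hga]
    exact hc
  have hSm : (Real.exp (lg * a / 2)) ^ (-(1 / 2) : ℝ) = Real.exp (-(lg * a / 4)) := by
    rw [← Real.exp_mul]; ring_nf
  rw [hSm]
  have hpq' : (p : ℝ) ≤ q := by exact_mod_cast hpq
  have hlga : lg * (κ * q) ≤ lg * a := mul_le_mul_of_nonneg_left ha hlg0.le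
  have hlgq : lg * κ * p ≤ lg * κ * q := mul_le_mul_of_nonneg_left hpq' (by positivity)
  calc ((c0 + g ^ a : ℕ) : ℝ) * (Real.exp (-(lg * a / 4)) * ZZ q) ≤
        Real.exp (lg * a * (9 / 8)) * (Real.exp (-(lg * a / 4)) * Real.exp (lg * κ / 16 * q)) := by
          gcongr
    _ = Real.exp (lg * a) * Real.exp (-(lg * a / 8) + lg * κ / 16 * q) := by
          rw [← Real.exp_add, ← Real.exp_add, ← Real.exp_add]; ring_nf
    _ ≤ Real.exp (lg * a) * Real.exp (-(lg * κ / 16 * p)) := by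
          refine mul_le_mul_of_nonneg_left (Real.exp_le_exp.2 ?_) (Real.exp_pos _).le
          linarith
    _ ≤ Real.exp (lg * a) * (ε * (Real.log p / p) ^ 2) := mul_le_mul_of_nonneg_left hE (Real.exp_pos _).le
    _ = _ := by rw [hga]

/-- the sieve bound for the pairs `(cp + x, cq + t + g ^ d * x)` -/
lemma near_core2 : ∃ C : ℝ, 0 < C ∧ ∀ g : ℕ, 2 ≤ g → ∀ κ : ℝ, 0 < κ → ∀ D L : ℕ,
    ∀ᶠ p : ℕ in atTop, ∀ q : ℕ, p < q → q ≤ L * p → ∀ a d cp cq t : ℕ, κ * p ≤ a →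
    g ^ a ≤ cp → g ^ (a + d) ≤ cq → t < g ^ d → cq + t ≠ g ^ d * cp →
    cq + t ≤ g ^ (D * q) → g ^ d * cp ≤ g ^ (D * q) →
    (((range (g ^ a)).filter (fun x : ℕ =>
      ((roughPart p (cp + x)).Prime ∧
        (((cp + x) / roughPart p (cp + x) : ℕ) : ℝ) < Real.exp (Real.log g * a / 2)) ∧
      ((roughPart q (cq + t + g ^ d * x)).Prime ∧
        (((cq + t + g ^ d * x) / roughPart q (cq + t + g ^ d * x) : ℕ) : ℝ) <
          Real.exp (Real.log g * ((a + d : ℕ) : ℝ) / 2)))).card : ℝ) ≤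
      C / (Real.log g * κ) ^ 2 * (Real.log p / p) ^ 2 * (g : ℝ) ^ a := by
  obtain ⟨C0, hC0, hsv⟩ := sift_two
  obtain ⟨C1, hC1, hrat0⟩ := ratio_unif
  refine ⟨C0 * (2 * C1) ^ 2, by positivity, fun g hg κ hκ D L => ?_⟩
  have hrat := hrat0 g hg D
  obtain ⟨lg, hlg⟩ : ∃ lg, lg = Real.log g := ⟨_, rfl⟩
  have hlg0 : 0 < lg := by rw [hlg]; exact Real.log_pos (by exact_mod_cast hg)
  rw [← hlg]
  obtain ⟨P, hP⟩ := eventually_atTop.1 hrat
  have hκp : ∀ᶠ p : ℕ in atTop, 1 / κ ≤ (p : ℝ) := tendsto_natCast_atTop_atTop.eventually_ge_atTop _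
  filter_upwards [eventually_ge_atTop P, eventually_ge_atTop 2, eventually_ge_atTop L, hκp] with
    p hpP hp2 hpL hκp1 q hpq hqL a d cp cq t ha hcp hcq ht hne hD1 hD2
  have hp2' : (2 : ℝ) ≤ p := by exact_mod_cast hp2
  have hp0 : (0 : ℝ) < p := by linarith
  have ha1 : (1 : ℝ) ≤ a := by
    rw [div_le_iff₀ hκ] at hκp1
    linarith
  have ha1n : 1 ≤ a := by exact_mod_cast ha1
  have ha0 : (0 : ℝ) < a := by linarith
  have hgr : (2 : ℝ) ≤ g := by exact_mod_cast hg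
  have hga : (g : ℝ) ^ a = Real.exp (lg * a) := by
    rw [mul_comm, Real.exp_nat_mul, hlg, Real.exp_log (by linarith)]
  have hgad : (g : ℝ) ^ (a + d) = Real.exp (lg * ((a + d : ℕ) : ℝ)) := by
    rw [mul_comm, Real.exp_nat_mul, hlg, Real.exp_log (by linarith)]
  have hH2 : 2 ≤ g ^ a := by
    calc 2 ≤ g ^ 1 := by simpa using hg
      _ ≤ g ^ a := Nat.pow_le_pow_right (by omega) ha1n
  have hgd1 : 1 ≤ g ^ d := Nat.one_le_pow _ _ (by omega)
  have hgdad : g ^ d ≤ g ^ (a + d) := Nat.pow_le_pow_right (by omega) (by omega)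
  obtain ⟨b2, hb2⟩ : ∃ b2, b2 + g ^ d = cq + t := ⟨cq + t - g ^ d, by omega⟩
  obtain ⟨b1, hb1⟩ : ∃ b1, b1 + 1 = cp := ⟨cp - 1, by omega⟩
  obtain ⟨r, hr⟩ : ∃ r : ℕ, r = (((cq + t : ℕ) : ℤ) - ((g ^ d * cp : ℕ) : ℤ)).natAbs := ⟨_, rfl⟩
  have hr0 : 0 < r := by
    rw [hr, Int.natAbs_pos]
    intro h
    apply hne
    have : ((cq + t : ℕ) : ℤ) = ((g ^ d * cp : ℕ) : ℤ) := by linarith
    exact_mod_cast this
  have hrD : r ≤ g ^ (D * q) := by
    rw [hr]
    omega
  set S0 := (range (g ^ a)).filter (fun x : ℕ =>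
      ((roughPart p (cp + x)).Prime ∧
        (((cp + x) / roughPart p (cp + x) : ℕ) : ℝ) < Real.exp (lg * a / 2)) ∧
      ((roughPart q (cq + t + g ^ d * x)).Prime ∧
        (((cq + t + g ^ d * x) / roughPart q (cq + t + g ^ d * x) : ℕ) : ℝ) <
          Real.exp (lg * ((a + d : ℕ) : ℝ) / 2))) with hS0
  set S := S0.image (fun x => x + 1) with hS
  have hcardS : S0.card = S.card := by
    rw [hS, Finset.card_image_of_injective]
    intro x y hxy
    simpa using hxy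
  have hSm : ∀ n ∈ S, 1 ≤ n ∧ n ≤ g ^ a ∧ n - 1 ∈ S0 := by
    intro n hn
    rw [hS, mem_image] at hn
    obtain ⟨x, hx, rfl⟩ := hn
    have hx1 := (mem_filter.1 hx).1
    rw [mem_range] at hx1
    exact ⟨by omega, by omega, by simpa using hx⟩
  have hq2 : 2 ≤ q := by omega
  have hM0 : MM q g d r ≠ 0 := MM_ne hg hr0
  have hDD : DD 1 b1 (g ^ d) b2 ∣ MM q g d r := by
    have e : DD 1 b1 (g ^ d) b2 = g ^ d * r := by
      unfold DD
      have e2 : ((((1 * b2 : ℕ)) : ℤ)) - ((g ^ d * b1 : ℕ) : ℤ) =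
          ((cq + t : ℕ) : ℤ) - ((g ^ d * cp : ℕ) : ℤ) := by
        rw [← hb2, ← hb1]
        push_cast
        ring
      rw [e2, ← hr, one_mul]
    rw [e]; unfold MM; exact dvd_mul_left _ _
  have hcastN : ((g ^ a : ℕ) : ℝ) = (g : ℝ) ^ a := by push_cast; rfl
  have hz : ((g ^ a : ℕ) : ℝ) ^ ((1 : ℝ) / 8) = Real.exp (lg * a / 8) := by
    rw [hcastN, hga, ← Real.exp_mul]; ring_nf
  have hlga : 0 < lg * a := by positivity
  have had : (a : ℝ) ≤ ((a + d : ℕ) : ℝ) := by push_cast; linarith [(Nat.cast_nonneg d : (0 : ℝ) ≤ d)]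
  have hmain := hsv 1 b1 (g ^ d) b2 (g ^ a) (MM q g d r) one_pos (by omega)
    (two_dvd_MM hq2) hM0 hDD hH2 S (fun n hn => mem_Icc.2 ⟨(hSm n hn).1, (hSm n hn).2.1⟩) (by
      intro n hn l hl hlz hlM
      have hql := lt_of_not_dvd_MM hl hlM
      obtain ⟨hn1, _, hnS⟩ := hSm n hn
      obtain ⟨_, hQ1, hQ2⟩ := mem_filter.1 hnS
      rw [hz] at hlz
      have e1 : 1 * n + b1 = cp + (n - 1) := by omega
      have e2 : g ^ d * n + b2 = cq + t + g ^ d * (n - 1) := by
        obtain ⟨k, rfl⟩ : ∃ k, n = k + 1 := ⟨n - 1, by omega⟩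
        rw [Nat.add_sub_cancel, ← hb2]
        ring
      rw [e1, e2]
      constructor
      · refine no_mid_prime hQ1.1 hQ1.2 ?_ hl (by omega) hlz
        calc Real.exp (lg * a / 8) * Real.exp (lg * a / 2) = Real.exp (lg * a / 8 + lg * a / 2) :=
              (Real.exp_add _ _).symm
          _ ≤ Real.exp (lg * a) := Real.exp_le_exp.2 (by linarith)
          _ = ((g ^ a : ℕ) : ℝ) := by rw [hcastN, hga]
          _ ≤ _ := by exact_mod_cast (by omega : g ^ a ≤ cp + (n - 1))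
      · refine no_mid_prime hQ2.1 hQ2.2 ?_ hl hql hlz
        calc Real.exp (lg * a / 8) * Real.exp (lg * ((a + d : ℕ) : ℝ) / 2) =
              Real.exp (lg * a / 8 + lg * ((a + d : ℕ) : ℝ) / 2) := (Real.exp_add _ _).symm
          _ ≤ Real.exp (lg * ((a + d : ℕ) : ℝ)) := Real.exp_le_exp.2 (by nlinarith)
          _ = ((g ^ (a + d) : ℕ) : ℝ) := by push_cast; rw [hgad]; push_cast; rfl
          _ ≤ _ := by exact_mod_cast (by omega : g ^ (a + d) ≤ cq + t + g ^ d * (n - 1)))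
  have hr1 := hP q (by omega) d r hr0 hrD
  have hlq : Real.log q ≤ 2 * Real.log p := by
    have hq2p : (q : ℝ) ≤ p * p := by
      have : q ≤ p * p := hqL.trans (Nat.mul_le_mul_right p hpL)
      exact_mod_cast this
    calc Real.log q ≤ Real.log (p * p) := Real.log_le_log (by positivity) hq2p
      _ = 2 * Real.log p := by rw [Real.log_mul hp0.ne' hp0.ne']; ring
  have hlq0 : 0 ≤ Real.log q := Real.log_natCast_nonneg q
  have hlp0 : 0 ≤ Real.log p := Real.log_natCast_nonneg p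
  have hr2 : ((MM q g d r : ℕ) : ℝ) / (Nat.totient (MM q g d r) : ℝ) ≤ 2 * C1 * Real.log p := by
    calc _ ≤ C1 * Real.log q := hr1
      _ ≤ C1 * (2 * Real.log p) := by gcongr
      _ = _ := by ring
  have hr00 : 0 ≤ ((MM q g d r : ℕ) : ℝ) / (Nat.totient (MM q g d r) : ℝ) := by positivity
  have hlogH : Real.log ((g ^ a : ℕ) : ℝ) = lg * a := by
    rw [hcastN, hga, Real.log_exp]
  have hκlg : lg * κ * p ≤ lg * a := by
    calc lg * κ * p = lg * (κ * p) := by ring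
      _ ≤ _ := mul_le_mul_of_nonneg_left ha hlg0.le
  have hκlg0 : 0 < lg * κ * p := by positivity
  rw [hcardS]
  calc (S.card : ℝ) ≤ C0 * (((MM q g d r : ℕ) : ℝ) / (Nat.totient (MM q g d r) : ℝ)) ^ 2 *
        (g ^ a : ℕ) / (Real.log ((g ^ a : ℕ) : ℝ)) ^ 2 := hmain
    _ ≤ C0 * (2 * C1 * Real.log p) ^ 2 * (g ^ a : ℕ) / (lg * κ * p) ^ 2 := by
        rw [hlogH]
        gcongr
    _ = _ := by rw [hcastN]; field_simp

/-- **Near pairs, uniformly in the windows.** -/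
theorem near_unif2 : ∃ K : ℝ, 0 < K ∧ ∀ g : ℕ, 2 ≤ g → ∀ D L : ℕ, ∀ κ : ℝ, κ = 1 / 2 →
    ∀ᶠ p : ℕ in atTop, ∀ q : ℕ, p < q → q ≤ L * p → ∀ a d cp cq : ℕ, κ * p ≤ a →
    κ * q ≤ ((a + d : ℕ) : ℝ) → g ^ a ≤ cp → g ^ (a + d) ≤ cq →
    (cp : ℝ) + (g : ℝ) ^ a ≤ ((g : ℝ) ^ a) ^ (9 / 8 : ℝ) →
    (cq : ℝ) + (g : ℝ) ^ (a + d) ≤ ((g : ℝ) ^ (a + d)) ^ (9 / 8 : ℝ) → a + d ≤ D * q →
    ∑ y ∈ range (g ^ (a + d)), rpi p (cp + y / g ^ d) * rpi q (cq + y) ≤
      K * (g : ℝ) ^ (a + d) * ((wt p / Real.log g) ^ 2 + ((g : ℝ) ^ d)⁻¹ * (wt p / Real.log g)) := by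
  classical
  obtain ⟨C0, hC0, hcore0⟩ := near_core2
  obtain ⟨K0, hK0, hup0⟩ := win_upper2
  refine ⟨4 * C0 + 2 + 2 * K0, by positivity, fun g hg D L κ hκ2 => ?_⟩
  have hκ : 0 < κ := by rw [hκ2]; norm_num
  obtain ⟨lg, hlg⟩ : ∃ lg, lg = Real.log g := ⟨_, rfl⟩
  have hlg0 : 0 < lg := by rw [hlg]; exact Real.log_pos (by exact_mod_cast hg)
  obtain ⟨C, hC⟩ : ∃ C, C = C0 / (lg * κ) ^ 2 := ⟨_, rfl⟩
  obtain ⟨K1, hK1⟩ : ∃ K1, K1 = K0 / (lg * κ) := ⟨_, rfl⟩
  have hCpos : 0 < C := by rw [hC]; positivity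
  have hcore := hcore0 g hg κ hκ (3 * D + 1) L
  have hup := hup0 (lg * κ) (by positivity)
  rw [← hlg, ← hC] at hcore
  rw [← hK1] at hup
  obtain ⟨ε, hεdef⟩ : ∃ ε, ε = 1 / lg ^ 2 := ⟨_, rfl⟩
  have hε : 0 < ε := by rw [hεdef]; positivity
  have hsw := smooth_win2 hg (κ := κ) (ε := ε) hκ hε
  filter_upwards [hcore, hup, hsw, eventually_ge_atTop 3] with p hcorep hupp hswp hp3 q hpq hqL
    a d cp cq hap haq hcp hcq hhp98 hhq98 hup_q
  have hp3' : (3 : ℝ) ≤ p := by exact_mod_cast hp3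
  have hp0 : (0 : ℝ) < p := by linarith
  have hpq' : (p : ℝ) ≤ q := by exact_mod_cast hpq.le
  have hgr : (2 : ℝ) ≤ g := by exact_mod_cast hg
  have hg0 : (0 : ℝ) < g := by linarith
  have hgpow : ∀ n : ℕ, (g : ℝ) ^ n = Real.exp (lg * n) := by
    intro n
    rw [mul_comm, Real.exp_nat_mul, hlg, Real.exp_log (by linarith)]
  have hpow1 : ∀ n : ℕ, (1 : ℝ) ≤ (g : ℝ) ^ n := fun n => one_le_pow₀ (by linarith)
  have hw0 : 0 ≤ Real.log p / (p : ℝ) := div_nonneg (Real.log_natCast_nonneg p) hp0.le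
  set w := Real.log p / (p : ℝ) with hw
  -- sizes
  have hsq : ∀ n : ℕ, ((g : ℝ) ^ n) ^ (9 / 8 : ℝ) ≤ (g : ℝ) ^ (2 * n) := by
    intro n
    calc ((g : ℝ) ^ n) ^ (9 / 8 : ℝ) ≤ ((g : ℝ) ^ n) ^ (2 : ℝ) :=
          Real.rpow_le_rpow_of_exponent_le (hpow1 n) (by norm_num)
      _ = (g : ℝ) ^ (2 * n) := by rw [Real.rpow_two, ← pow_mul]; ring_nf
  have hsizeP : cp + g ^ a ≤ g ^ (2 * a) := by
    have h1 := hhp98.trans (hsq a)
    exact_mod_cast h1
  have hsizeQ : cq + g ^ (a + d) ≤ g ^ (2 * (a + d)) := by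
    have h1 := hhq98.trans (hsq (a + d))
    exact_mod_cast h1
  have hD1 : g ^ (2 * (a + d)) ≤ g ^ ((3 * D + 1) * q) := by
    refine Nat.pow_le_pow_right (by omega) ?_
    nlinarith
  have hD2 : g ^ d * cp ≤ g ^ ((3 * D + 1) * q) := by
    calc g ^ d * cp ≤ g ^ d * g ^ (2 * a) := Nat.mul_le_mul_left _ (by omega)
      _ = g ^ (d + 2 * a) := by rw [pow_add]
      _ ≤ g ^ ((3 * D + 1) * q) := by
          refine Nat.pow_le_pow_right (by omega) ?_
          have h1 : d + 2 * a ≤ 2 * (a + d) := by omega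
          nlinarith
  have hgd0 : 0 < g ^ d := by positivity
  have hgd0' : (0 : ℝ) < (g : ℝ) ^ d := by positivity
  have hga0' : (0 : ℝ) < (g : ℝ) ^ a := by positivity
  -- the exceptional sets
  set Sp := Real.exp (lg * a / 2) with hSp
  set Sq := Real.exp (lg * ((a + d : ℕ) : ℝ) / 2) with hSq
  set T := (range (g ^ (a + d))).filter (fun y => (roughPart p (cp + y / g ^ d)).Prime ∧
    (roughPart q (cq + y)).Prime) with hT
  have hJJ : ∑ y ∈ range (g ^ (a + d)), rpi p (cp + y / g ^ d) * rpi q (cq + y) =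
      (T.card : ℝ) := by
    rw [hT, Finset.card_eq_sum_ones, Finset.sum_filter]
    push_cast
    refine Finset.sum_congr rfl fun y _ => ?_
    unfold rpi
    by_cases h1 : (roughPart p (cp + y / g ^ d)).Prime <;>
      by_cases h2 : (roughPart q (cq + y)).Prime <;> simp [h1, h2]
  have hmT : ∀ y ∈ T, y < g ^ (a + d) ∧ (roughPart p (cp + y / g ^ d)).Prime ∧
      (roughPart q (cq + y)).Prime := by
    intro y hy
    rw [hT, mem_filter, mem_range] at hy
    exact hy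
  have hdivlt : ∀ y, y < g ^ (a + d) → y / g ^ d < g ^ a := by
    intro y hy
    rw [Nat.div_lt_iff_lt_mul hgd0, ← pow_add]
    exact hy
  set T0 := T.filter (fun y => cq + y % g ^ d = g ^ d * cp) with hT0
  set T2 := T.filter (fun y => Sp ≤ (((cp + y / g ^ d) / roughPart p (cp + y / g ^ d) : ℕ) : ℝ)) with hT2
  set T3 := T.filter (fun y => Sq ≤ (((cq + y) / roughPart q (cq + y) : ℕ) : ℝ)) with hT3
  set T4 := T.filter (fun y => cq + y % g ^ d ≠ g ^ d * cp ∧
    (((cp + y / g ^ d) / roughPart p (cp + y / g ^ d) : ℕ) : ℝ) < Sp ∧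
    (((cq + y) / roughPart q (cq + y) : ℕ) : ℝ) < Sq) with hT4
  have hTsub : T ⊆ ((T0 ∪ T2) ∪ T3) ∪ T4 := by
    intro m hm
    simp only [mem_union]
    by_cases h0 : cq + m % g ^ d = g ^ d * cp
    · left; left; left; exact mem_filter.2 ⟨hm, h0⟩
    by_cases h2 : Sp ≤ (((cp + m / g ^ d) / roughPart p (cp + m / g ^ d) : ℕ) : ℝ)
    · left; left; right; exact mem_filter.2 ⟨hm, h2⟩
    by_cases h3 : Sq ≤ (((cq + m) / roughPart q (cq + m) : ℕ) : ℝ)
    · left; right; exact mem_filter.2 ⟨hm, h3⟩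
    · right
      exact mem_filter.2 ⟨hm, h0, not_le.1 h2, not_le.1 h3⟩
  -- T0
  have c0 : (T0.card : ℝ) ≤ K1 * (g : ℝ) ^ a * w := by
    have hinj : Set.InjOn (fun y : ℕ => y / g ^ d) (T0 : Set ℕ) := by
      intro y hy y' hy' hyy
      have h1 := (mem_filter.1 (Finset.mem_coe.1 hy)).2
      have h2 := (mem_filter.1 (Finset.mem_coe.1 hy')).2
      simp only at hyy
      rw [← Nat.mod_add_div y (g ^ d), ← Nat.mod_add_div y' (g ^ d), hyy]
      omega
    have hsub : T0.image (fun y => y / g ^ d) ⊆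
        (range (g ^ a)).filter (fun x => (roughPart p (cp + x)).Prime) := by
      intro x hx
      rw [mem_image] at hx
      obtain ⟨y, hy, rfl⟩ := hx
      obtain ⟨h1, h2, _⟩ := hmT y (mem_filter.1 hy).1
      rw [mem_filter, mem_range]
      exact ⟨hdivlt y h1, h2⟩
    have hcard := Finset.card_le_card hsub
    rw [Finset.card_image_of_injOn hinj] at hcard
    have h1 := hupp (cp - 1) (g ^ a) ?_ ?_
    · refine le_trans ?_ (h1.trans (le_of_eq ?_))
      · have h2 : (((range (g ^ a)).filter (fun x => (roughPart p (cp + x)).Prime)).card : ℝ) =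
            ∑ m ∈ Ioc (cp - 1) (cp - 1 + g ^ a), rpi p m := by
          rw [Finset.card_eq_sum_ones, Finset.sum_filter]
          push_cast
          have hcp1 : 1 ≤ cp := le_trans (Nat.one_le_pow _ _ (by omega)) hcp
          refine Finset.sum_bij' (i := fun x _ => cp + x) (j := fun m _ => m - cp) ?_ ?_ ?_ ?_ ?_
          · intro x hx
            rw [mem_range] at hx
            rw [mem_Ioc]
            omega
          · intro m hm
            rw [mem_Ioc] at hm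
            rw [mem_range]
            omega
          · intro x _
            simp
          · intro m hm
            rw [mem_Ioc] at hm
            omega
          · intro x _
            rfl
        rw [← h2]
        exact_mod_cast hcard
      · push_cast
        ring
    · push_cast
      rw [hgpow]
      refine Real.exp_le_exp.2 ?_
      calc lg * κ * p = lg * (κ * p) := by ring
        _ ≤ lg * a := mul_le_mul_of_nonneg_left hap hlg0.le
    · have h2 : ((cp - 1 + g ^ a : ℕ) : ℝ) ≤ (cp : ℝ) + (g : ℝ) ^ a := by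
        have : cp - 1 + g ^ a ≤ cp + g ^ a := by omega
        exact_mod_cast this
      refine h2.trans (hhp98.trans ?_)
      push_cast
      exact le_rfl
  -- T2
  have c2 : (T2.card : ℝ) ≤ (g : ℝ) ^ (a + d) * (ε * w ^ 2) := by
    have h1 := hswp p le_rfl a (cp) hap hhp98
    rw [← hlg] at h1
    have hinj : Set.InjOn (fun y : ℕ => (y / g ^ d, y % g ^ d)) (T2 : Set ℕ) := by
      intro y _ y' _ hyy
      simp only [Prod.mk.injEq] at hyy
      rw [← Nat.mod_add_div y (g ^ d), ← Nat.mod_add_div y' (g ^ d), hyy.1, hyy.2]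
    have hsub : T2.image (fun y => (y / g ^ d, y % g ^ d)) ⊆
        ((range (g ^ a)).filter (fun y => (roughPart p (cp + y)).Prime ∧
          Real.exp (lg * a / 2) ≤ (((cp + y) / roughPart p (cp + y) : ℕ) : ℝ))) ×ˢ range (g ^ d) := by
      intro x hx
      rw [mem_image] at hx
      obtain ⟨y, hy, rfl⟩ := hx
      obtain ⟨h2, h3, _⟩ := hmT y (mem_filter.1 hy).1
      rw [mem_product, mem_filter, mem_range, mem_range]
      exact ⟨⟨hdivlt y h2, h3, (mem_filter.1 hy).2⟩, Nat.mod_lt _ hgd0⟩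
    have hcard := Finset.card_le_card hsub
    rw [Finset.card_image_of_injOn hinj, card_product, card_range] at hcard
    calc (T2.card : ℝ) ≤ (((range (g ^ a)).filter (fun y => (roughPart p (cp + y)).Prime ∧
          Real.exp (lg * a / 2) ≤ (((cp + y) / roughPart p (cp + y) : ℕ) : ℝ))).card : ℝ) *
          ((g ^ d : ℕ) : ℝ) := by exact_mod_cast hcard
      _ ≤ (g : ℝ) ^ a * (ε * w ^ 2) * ((g ^ d : ℕ) : ℝ) := mul_le_mul_of_nonneg_right h1 (Nat.cast_nonneg _)
      _ = _ := by push_cast; rw [pow_add]; ring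
  -- T3
  have c3 : (T3.card : ℝ) ≤ (g : ℝ) ^ (a + d) * (ε * w ^ 2) := by
    have h1 := hswp q hpq.le (a + d) (cq) haq hhq98
    rw [← hlg] at h1
    refine le_trans ?_ h1
    have hsub : T3 ⊆ (range (g ^ (a + d))).filter (fun y => (roughPart q (cq + y)).Prime ∧
        Real.exp (lg * ((a + d : ℕ) : ℝ) / 2) ≤ (((cq + y) / roughPart q (cq + y) : ℕ) : ℝ)) := by
      intro y hy
      obtain ⟨h2, _, h3⟩ := hmT y (mem_filter.1 hy).1
      rw [mem_filter, mem_range]
      exact ⟨h2, h3, (mem_filter.1 hy).2⟩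
    exact_mod_cast Finset.card_le_card hsub
  -- T4
  have c4 : (T4.card : ℝ) ≤ C * w ^ 2 * (g : ℝ) ^ (a + d) := by
    have hfib := Finset.card_eq_sum_card_fiberwise (s := T4) (t := range (g ^ d)) (f := fun y => y % g ^ d)
      (fun y _ => Finset.mem_coe.2 (mem_range.2 (Nat.mod_lt _ hgd0)))
    rw [hfib]
    push_cast
    have hone : ∀ t ∈ range (g ^ d), ((T4.filter (fun y => y % g ^ d = t)).card : ℝ) ≤
        C * w ^ 2 * (g : ℝ) ^ a := by
      intro t ht
      rw [mem_range] at ht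
      rcases Finset.eq_empty_or_nonempty (T4.filter (fun y => y % g ^ d = t)) with hemp | ⟨y0, hy0⟩
      · rw [hemp]
        simp only [Finset.card_empty, Nat.cast_zero]
        positivity
      obtain ⟨hy01, hy02⟩ := mem_filter.1 hy0
      have hne := (mem_filter.1 hy01).2.1
      rw [hy02] at hne
      have h1 := hcorep q hpq hqL a d (cp) (cq) t hap hcp hcq ht hne (by
        refine le_trans ?_ (hsizeQ.trans hD1)
        have : g ^ d ≤ g ^ (a + d) := Nat.pow_le_pow_right (by omega) (by omega)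
        omega) hD2
      refine le_trans ?_ h1
      have hinj : Set.InjOn (fun y : ℕ => y / g ^ d) ((T4.filter (fun y => y % g ^ d = t)) : Set ℕ) := by
        intro y hy y' hy' hyy
        have h1 := (mem_filter.1 (Finset.mem_coe.1 hy)).2
        have h2 := (mem_filter.1 (Finset.mem_coe.1 hy')).2
        simp only at hyy
        rw [← Nat.mod_add_div y (g ^ d), ← Nat.mod_add_div y' (g ^ d), hyy, h1, h2]
      rw [← Finset.card_image_of_injOn hinj]
      refine Nat.cast_le.2 (Finset.card_le_card ?_)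
      intro x hx
      rw [mem_image] at hx
      obtain ⟨y, hy, rfl⟩ := hx
      obtain ⟨hy1, hy2⟩ := mem_filter.1 hy
      obtain ⟨hy3, _, hy4, hy5⟩ := mem_filter.1 hy1
      obtain ⟨h2, h3, h4⟩ := hmT y hy3
      have e : cq + t + g ^ d * (y / g ^ d) = cq + y := by
        have := Nat.mod_add_div y (g ^ d)
        rw [hy2] at this
        omega
      rw [mem_filter, mem_range, e]
      exact ⟨hdivlt y h2, ⟨h3, hy4⟩, h4, hy5⟩
    calc ∑ t ∈ range (g ^ d), ((T4.filter (fun y => y % g ^ d = t)).card : ℝ) ≤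
          ∑ t ∈ range (g ^ d), C * w ^ 2 * (g : ℝ) ^ a := Finset.sum_le_sum hone
      _ = _ := by
          rw [Finset.sum_const, card_range, nsmul_eq_mul]
          push_cast
          rw [pow_add]
          ring
  have hcardT : (T.card : ℝ) ≤ T0.card + T2.card + T3.card + T4.card := by
    have h1 := Finset.card_le_card hTsub
    have h2 := Finset.card_union_le (((T0 ∪ T2) ∪ T3)) T4
    have h3 := Finset.card_union_le ((T0 ∪ T2)) T3
    have h4 := Finset.card_union_le T0 T2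
    exact_mod_cast (by omega : T.card ≤ T0.card + T2.card + T3.card + T4.card)
  rw [hJJ]
  have e1 : (g : ℝ) ^ (a + d) * ((g : ℝ) ^ d)⁻¹ = (g : ℝ) ^ a := by
    rw [pow_add]
    field_simp
  have hgad : (0 : ℝ) < (g : ℝ) ^ (a + d) := by positivity
  have hwt : wt p = w := rfl
  rw [hwt, ← hlg]
  have eC : C = 4 * C0 / lg ^ 2 := by
    rw [hC, hκ2]
    field_simp
    norm_num
  have eK : K1 = 2 * K0 / lg := by
    rw [hK1, hκ2]
    field_simp
  have f1 : 0 ≤ (w / lg) ^ 2 := sq_nonneg _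
  have f2 : 0 ≤ ((g : ℝ) ^ d)⁻¹ * (w / lg) := by positivity
  calc (T.card : ℝ) ≤ K1 * (g : ℝ) ^ a * w + (g : ℝ) ^ (a + d) * (ε * w ^ 2) +
        (g : ℝ) ^ (a + d) * (ε * w ^ 2) + C * w ^ 2 * (g : ℝ) ^ (a + d) := by linarith
    _ = (g : ℝ) ^ (a + d) * ((4 * C0 + 2) * (w / lg) ^ 2 +
        2 * K0 * (((g : ℝ) ^ d)⁻¹ * (w / lg))) := by
        rw [← e1, eC, eK, hεdef]
        generalize (g : ℝ) ^ (a + d) = u
        generalize ((g : ℝ) ^ d)⁻¹ = v
        ring
    _ ≤ (g : ℝ) ^ (a + d) * ((4 * C0 + 2 + 2 * K0) * (w / lg) ^ 2 +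
        (4 * C0 + 2 + 2 * K0) * (((g : ℝ) ^ d)⁻¹ * (w / lg))) := by
        refine mul_le_mul_of_nonneg_left ?_ hgad.le
        nlinarith
    _ = _ := by ring

/-- the number of integers with prime rough part in a window of length `g ^ a` below `g ^ q` -/
theorem mean_unif2 : ∃ δ c1 c2 : ℝ, 0 < δ ∧ δ ≤ 1 / 4 ∧ 0 < c1 ∧ 0 < c2 ∧ ∀ g : ℕ, 2 ≤ g →
    ∀ᶠ q : ℕ in atTop, ∀ a c : ℕ, (1 - δ / 4) * q ≤ a → 3 * g ^ a ≤ c → c + g ^ a ≤ g ^ q →
      c1 * (wt q / Real.log g) * (g : ℝ) ^ a ≤ ∑ y ∈ range (g ^ a), rpi q (c + y) ∧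
      ∑ y ∈ range (g ^ a), rpi q (c + y) ≤ c2 * (wt q / Real.log g) * (g : ℝ) ^ a := by
  obtain ⟨δ, η, hδ, hδ4, hη, hlow⟩ := win_lower
  obtain ⟨K, hK, hup0⟩ := win_upper2
  refine ⟨δ, η, 2 * K, hδ, hδ4, hη, by positivity, fun g hg => ?_⟩
  obtain ⟨lg, hlg⟩ : ∃ lg, lg = Real.log g := ⟨_, rfl⟩
  have hgr : (2 : ℝ) ≤ g := by exact_mod_cast hg
  have hg0 : (0 : ℝ) < g := by linarith
  have hlg0 : 0 < lg := by rw [hlg]; exact Real.log_pos (by linarith)
  have hup := hup0 (lg / 2) (by positivity)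
  rw [← hlg]
  filter_upwards [hup, hlow (lg / 2) (by positivity), eventually_ge_atTop 3] with q hupq hlowq hq3
    a c ha hc hcq
  have hq3' : (3 : ℝ) ≤ q := by exact_mod_cast hq3
  have hq0 : (0 : ℝ) < q := by linarith
  have hlq0 : 0 < Real.log q := Real.log_pos (by linarith)
  have hpw : ∀ k : ℕ, (g : ℝ) ^ k = Real.exp (lg * k) := by
    intro k
    rw [mul_comm, Real.exp_nat_mul, hlg, Real.exp_log hg0]
  have hga1 : 1 ≤ g ^ a := Nat.one_le_pow _ _ (by omega)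
  have hc1 : 1 ≤ c := by omega
  rw [sum_win c (g ^ a) hc1 (fun m => rpi q m)]
  obtain ⟨A, hA⟩ : ∃ A, A = c - 1 := ⟨_, rfl⟩
  rw [← hA]
  have hA2 : 2 * g ^ a ≤ A := by omega
  have hAH : A + g ^ a ≤ g ^ q := by omega
  have hAHr : ((A + g ^ a : ℕ) : ℝ) ≤ Real.exp (lg * q) := by
    rw [← hpw]
    exact_mod_cast hAH
  have hHr : ((g ^ a : ℕ) : ℝ) = Real.exp (lg * a) := by push_cast; exact hpw a
  have hH0 : (0 : ℝ) < ((g ^ a : ℕ) : ℝ) := by rw [hHr]; exact Real.exp_pos _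
  have hAH0 : (0 : ℝ) < ((A + g ^ a : ℕ) : ℝ) := by exact_mod_cast (by omega : 0 < A + g ^ a)
  have ha1 : (15 / 16 : ℝ) * q ≤ a := by nlinarith
  have hexpH : Real.exp (lg / 2 * q) ≤ ((g ^ a : ℕ) : ℝ) := by
    rw [hHr]
    refine Real.exp_le_exp.2 ?_
    nlinarith
  have hupper := hupq A (g ^ a) hexpH (by
    refine hAHr.trans ?_
    rw [hHr, ← Real.exp_mul]
    refine Real.exp_le_exp.2 ?_
    nlinarith)
  have hlower := hlowq A (g ^ a) hexpH hA2 (by
    have h2 : ((A + g ^ a : ℕ) : ℝ) ^ (1 - δ / 2) ≤ (Real.exp (lg * q)) ^ (1 - δ / 2) :=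
      Real.rpow_le_rpow hAH0.le hAHr (by linarith)
    refine h2.trans ?_
    rw [hHr, ← Real.exp_mul]
    refine Real.exp_le_exp.2 ?_
    have h1 : (q : ℝ) * (1 - δ / 2) ≤ a := by nlinarith
    calc lg * q * (1 - δ / 2) = lg * (q * (1 - δ / 2)) := by ring
      _ ≤ lg * a := mul_le_mul_of_nonneg_left h1 hlg0.le)
  have hcast : ((g ^ a : ℕ) : ℝ) = (g : ℝ) ^ a := by push_cast; rfl
  rw [hcast] at hupper hlower
  have hga' : (0 : ℝ) < (g : ℝ) ^ a := by positivity
  constructor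
  · have hA1 : (1 : ℝ) < A := by
      have : 2 ≤ A := by omega
      exact_mod_cast this
    have hlA0 : 0 < Real.log A := Real.log_pos hA1
    have hlA : Real.log A ≤ lg * q := by
      rw [Real.log_le_iff_le_exp (by linarith)]
      refine le_trans ?_ hAHr
      exact_mod_cast (by omega : A ≤ A + g ^ a)
    refine le_trans ?_ hlower
    unfold wt
    calc η * (Real.log q / q / lg) * (g : ℝ) ^ a =
          η * (g : ℝ) ^ a * (Real.log q / (lg * q)) := by field_simp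
      _ ≤ _ := by
          refine mul_le_mul_of_nonneg_left ?_ (by positivity)
          exact div_le_div_of_nonneg_left hlq0.le hlA0 hlA
  · refine hupper.trans (le_of_eq ?_)
    unfold wt
    field_simp

/-- upper bound for windows of length `g ^ a` with `8 q / 9 ≤ a` -/
theorem upper_unif : ∃ c2 : ℝ, 0 < c2 ∧ ∀ g : ℕ, 2 ≤ g → ∀ᶠ q : ℕ in atTop, ∀ a c : ℕ,
    (q : ℝ) ≤ 9 / 8 * a → 1 ≤ c → c + g ^ a ≤ g ^ q →
      ∑ y ∈ range (g ^ a), rpi q (c + y) ≤ c2 * (wt q / Real.log g) * (g : ℝ) ^ a := by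
  obtain ⟨K, hK, hup0⟩ := win_upper2
  refine ⟨2 * K, by positivity, fun g hg => ?_⟩
  obtain ⟨lg, hlg⟩ : ∃ lg, lg = Real.log g := ⟨_, rfl⟩
  have hgr : (2 : ℝ) ≤ g := by exact_mod_cast hg
  have hg0 : (0 : ℝ) < g := by linarith
  have hlg0 : 0 < lg := by rw [hlg]; exact Real.log_pos (by linarith)
  have hup := hup0 (lg / 2) (by positivity)
  rw [← hlg]
  filter_upwards [hup, eventually_ge_atTop 3] with q hupq hq3 a c ha hc hcq
  have hq3' : (3 : ℝ) ≤ q := by exact_mod_cast hq3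
  have hq0 : (0 : ℝ) < q := by linarith
  have hpw : ∀ k : ℕ, (g : ℝ) ^ k = Real.exp (lg * k) := by
    intro k
    rw [mul_comm, Real.exp_nat_mul, hlg, Real.exp_log hg0]
  rw [sum_win c (g ^ a) hc (fun m => rpi q m)]
  obtain ⟨A, hA⟩ : ∃ A, A = c - 1 := ⟨_, rfl⟩
  rw [← hA]
  have hAH : A + g ^ a ≤ g ^ q := by omega
  have hAHr : ((A + g ^ a : ℕ) : ℝ) ≤ Real.exp (lg * q) := by
    rw [← hpw]
    exact_mod_cast hAH
  have hHr : ((g ^ a : ℕ) : ℝ) = Real.exp (lg * a) := by push_cast; exact hpw a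
  have hupper := hupq A (g ^ a) (by
    rw [hHr]
    refine Real.exp_le_exp.2 ?_
    nlinarith) (by
    refine hAHr.trans ?_
    rw [hHr, ← Real.exp_mul]
    refine Real.exp_le_exp.2 ?_
    nlinarith)
  have hcast : ((g ^ a : ℕ) : ℝ) = (g : ℝ) ^ a := by push_cast; rfl
  rw [hcast] at hupper
  refine hupper.trans (le_of_eq ?_)
  unfold wt
  field_simp

end Pool.Agent.W157.MG
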