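import Mathlib
import Pool.Agent.W157.MX.Unif
import Pool.Agent.W157.MX.Block

set_option autoImplicit false

/-!
# One block of exponents, uniformly in the base and in the density
-/

namespace Pool.Agent.W157.MG

open Finset Filter Topology MeasureTheory
open Pool.Agent.W66L (rpi rpi_nonneg rpi_le_one)
open Pool.Agent.TH888.R (wt wt_nonneg)
open Pool.Agent.H305R2 (roughPart)
open Pool.Agent.Q160.TB (wt_anti)
open Pool.Agent.W157.MX (hits hits_eq geo rep split div_add half_mean sq_rows)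

/-- pairs far apart -/
theorem far_unif : ∃ c2 : ℝ, 0 < c2 ∧ ∀ g : ℕ, 2 ≤ g → ∀ᶠ p : ℕ in atTop, ∀ q : ℕ, p ≤ q →
    ∀ a d cp cq : ℕ, (p : ℝ) ≤ 9 / 8 * a → (q : ℝ) ≤ 9 / 8 * d → 1 ≤ cp → 1 ≤ cq →
    cp + g ^ a ≤ g ^ p → cq + g ^ (a + d) ≤ g ^ q →
    ∑ y ∈ range (g ^ (a + d)), rpi p (cp + y / g ^ d) * rpi q (cq + y) ≤
      c2 * (wt p / Real.log g) * (wt q / Real.log g) * (g : ℝ) ^ (a + d) := by
  obtain ⟨c, hc, hup⟩ := upper_unif
  refine ⟨c * c, by positivity, fun g hg => ?_⟩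
  obtain ⟨P, hP⟩ := eventually_atTop.1 (hup g hg)
  have hgr : (2 : ℝ) ≤ g := by exact_mod_cast hg
  have hlg0 : 0 < Real.log g := Real.log_pos (by linarith)
  filter_upwards [eventually_ge_atTop P] with p hp q hpq a d cp cq ha hd hcp hcq hp1 hq1
  have hgd : 0 < g ^ d := by positivity
  have hin : ∀ u ∈ range (g ^ a), ∑ t ∈ range (g ^ d), rpi q (cq + (u * g ^ d + t)) ≤
      c * (wt q / Real.log g) * (g : ℝ) ^ d := by
    intro u hu
    rw [mem_range] at hu
    have h1 := hP q (by omega) d (cq + u * g ^ d) hd (by omega) (by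
      refine le_trans ?_ hq1
      have h2 : (u + 1) * g ^ d ≤ g ^ a * g ^ d := Nat.mul_le_mul_right _ hu
      rw [← pow_add] at h2
      nlinarith)
    refine le_trans (le_of_eq ?_) h1
    refine Finset.sum_congr rfl fun t _ => ?_
    rw [Nat.add_assoc]
  have hwp : 0 ≤ wt p / Real.log g := div_nonneg (wt_nonneg _) hlg0.le
  have hwq : 0 ≤ wt q / Real.log g := div_nonneg (wt_nonneg _) hlg0.le
  rw [pow_add, split]
  calc ∑ u ∈ range (g ^ a), ∑ t ∈ range (g ^ d), rpi p (cp + (u * g ^ d + t) / g ^ d) *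
        rpi q (cq + (u * g ^ d + t)) =
        ∑ u ∈ range (g ^ a), rpi p (cp + u) * ∑ t ∈ range (g ^ d), rpi q (cq + (u * g ^ d + t)) := by
        refine Finset.sum_congr rfl fun u _ => ?_
        rw [Finset.mul_sum]
        refine Finset.sum_congr rfl fun t ht => ?_
        rw [div_add (mem_range.1 ht)]
    _ ≤ ∑ u ∈ range (g ^ a), rpi p (cp + u) * (c * (wt q / Real.log g) * (g : ℝ) ^ d) := by
        refine Finset.sum_le_sum fun u hu => ?_
        exact mul_le_mul_of_nonneg_left (hin u hu) (rpi_nonneg _ _)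
    _ = (∑ u ∈ range (g ^ a), rpi p (cp + u)) * (c * (wt q / Real.log g) * (g : ℝ) ^ d) := by
        rw [Finset.sum_mul]
    _ ≤ (c * (wt p / Real.log g) * (g : ℝ) ^ a) * (c * (wt q / Real.log g) * (g : ℝ) ^ d) := by
        refine mul_le_mul_of_nonneg_right (hP p hp a cp ha hcp hp1) (by positivity)
    _ = _ := by rw [pow_add]; ring

/-- **One block**, given the digits before it. -/
theorem block2 : ∃ δ c0 : ℝ, 0 < δ ∧ δ ≤ 1 / 4 ∧ 0 < c0 ∧ ∀ g : ℕ, 2 ≤ g → ∀ K : ℕ, 16 / δ ≤ K →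
    ∀ᶠ z : ℕ in atTop, ∀ s : ℝ, 1 - δ / 8 ≤ s → s ≤ 1 →
    ∀ w : ℕ → ℕ, (∀ p, 1 ≤ p → w p < g ^ (p - ⌊s * p⌋₊)) →
    ∀ T : Finset ℕ, (∀ p ∈ T, p.Prime ∧ K * z < p ∧ p ≤ K ^ 2 * z) → Real.log g ≤ ∑ p ∈ T, wt p →
    ∀ A : ℕ, 3 ≤ A → A < g ^ z →
    ∑ y ∈ range (g ^ (K ^ 2 * z - z)), (1 / 2 : ℝ) ^ hits g (K ^ 2 * z) T
      (fun p => w p * g ^ ⌊s * p⌋₊) (fun p => ⌊s * p⌋₊) (A * g ^ (K ^ 2 * z - z) + y) ≤
      (1 - c0) * (g : ℝ) ^ (K ^ 2 * z - z) := by
  classical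
  obtain ⟨δ, c1, c2, hδ, hδ4, hc1, hc2, hmean⟩ := mean_unif2
  obtain ⟨K1, hK1, hnear0⟩ := near_unif2
  obtain ⟨K2, hK2, hfar0⟩ := far_unif
  obtain ⟨ρ, hρ⟩ : ∃ ρ, ρ = Real.exp (-(Real.log 2 / 4)) := ⟨_, rfl⟩
  have hρ0 : 0 < ρ := by rw [hρ]; exact Real.exp_pos _
  have hl2 : 0 < Real.log 2 := Real.log_pos (by norm_num)
  have hρ1 : ρ < 1 := by
    rw [hρ, Real.exp_lt_one_iff]
    linarith
  have h1ρ : 0 < 1 - ρ := by linarith
  obtain ⟨C3, hC3⟩ : ∃ C3, C3 = 16 * K1 + K2 := ⟨_, rfl⟩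
  have hC30 : 0 < C3 := by rw [hC3]; positivity
  obtain ⟨b, hb⟩ : ∃ b, b = c2 + 2 * (C3 + 16 * K1 * (1 / (1 - ρ))) := ⟨_, rfl⟩
  have hb0 : 0 < b := by rw [hb]; positivity
  refine ⟨δ, c1 ^ 2 / (2 * b), hδ, hδ4, by positivity, fun g hg K hK => ?_⟩
  obtain ⟨P1, hP1⟩ := eventually_atTop.1 (hmean g hg)
  obtain ⟨P2, hP2⟩ := eventually_atTop.1 (hnear0 g hg 1 16 (1 / 2) rfl)
  obtain ⟨P3, hP3⟩ := eventually_atTop.1 (hfar0 g hg)
  have hgr : (2 : ℝ) ≤ g := by exact_mod_cast hg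
  have hg0 : (0 : ℝ) < g := by linarith
  have hKr : (64 : ℝ) ≤ K := by
    refine le_trans ?_ hK
    rw [le_div_iff₀ hδ]
    linarith
  have hK64 : 64 ≤ K := by exact_mod_cast hKr
  have hK0 : (0 : ℝ) < K := by linarith
  obtain ⟨lg, hlg⟩ : ∃ lg, lg = Real.log g := ⟨_, rfl⟩
  have hlg0 : 0 < lg := by rw [hlg]; exact Real.log_pos (by linarith)
  rw [← hlg] at hP1 hP2 hP3 ⊢
  filter_upwards [eventually_ge_atTop (P1 + P2 + P3 + 100)] with z hz s hs hs1 w hw T hT hvT A hA3 hAz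
  have hz1 : 1 ≤ z := by omega
  have hKz : z ≤ K * z := Nat.le_mul_of_pos_left _ (by omega)
  have hKz64 : 64 ≤ K * z := by nlinarith
  have hzn : K * z ≤ K ^ 2 * z := by
    rw [sq, mul_assoc]
    exact Nat.le_mul_of_pos_left _ (by omega)
  obtain ⟨n, hn⟩ : ∃ n, n = K ^ 2 * z := ⟨_, rfl⟩
  rw [← hn] at hT hzn ⊢
  obtain ⟨r, hr⟩ : ∃ r : ℕ → ℕ, r = fun p : ℕ => ⌊s * p⌋₊ := ⟨_, rfl⟩
  have hrp : ∀ p : ℕ, ⌊s * p⌋₊ = r p := fun p => by rw [hr]
  simp only [hrp] at hw ⊢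
  have hs0 : 1 / 2 ≤ s := by linarith
  -- facts on `r`
  have hrle : ∀ p, r p ≤ p := by
    intro p
    rw [hr]
    refine Nat.floor_le_of_le ?_
    have : (0 : ℝ) ≤ p := Nat.cast_nonneg p
    nlinarith
  have hrlo : ∀ p ∈ T, z ≤ r p ∧ (1 - δ / 4) * p ≤ ((r p - z : ℕ) : ℝ) := by
    intro p hp
    obtain ⟨_, hp1, _⟩ := hT p hp
    have hp1' : (K : ℝ) * z < p := by exact_mod_cast hp1
    have hz1' : (1 : ℝ) ≤ z := by exact_mod_cast hz1
    have h1 : s * p < r p + 1 := by rw [hr]; exact Nat.lt_floor_add_one _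
    have hδK : 16 ≤ δ * K := by
      rw [div_le_iff₀ hδ] at hK
      linarith
    have h2 : 16 * (z : ℝ) ≤ δ * p := by
      calc 16 * (z : ℝ) ≤ δ * K * z := mul_le_mul_of_nonneg_right hδK (by linarith)
        _ = δ * (K * z) := by ring
        _ ≤ δ * p := mul_le_mul_of_nonneg_left hp1'.le hδ.le
    have hp0 : (0 : ℝ) ≤ p := Nat.cast_nonneg p
    have h3 : (1 - δ / 8) * (p : ℝ) ≤ s * p := mul_le_mul_of_nonneg_right hs hp0
    have h4 : (1 - δ / 4) * (p : ℝ) + z ≤ r p := by nlinarith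
    have h5 : z ≤ r p := by
      have : (z : ℝ) ≤ r p := by nlinarith
      exact_mod_cast this
    refine ⟨h5, ?_⟩
    rw [Nat.cast_sub h5]
    linarith
  have hrgrow : ∀ p q : ℕ, p + 2 ≤ q → r p ≤ r q ∧ ((g : ℝ) ^ (r q - r p))⁻¹ ≤ ρ ^ (q - p) := by
    intro p q hpq
    have hpq' : (p : ℝ) + 2 ≤ q := by exact_mod_cast hpq
    have hp0 : (0 : ℝ) ≤ p := Nat.cast_nonneg p
    have h2 : r p ≤ r q := by
      rw [hr]
      refine Nat.floor_le_floor ?_
      have : (p : ℝ) ≤ q := by linarith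
      gcongr
    refine ⟨h2, ?_⟩
    have h1 : (r p : ℝ) ≤ s * p := by rw [hr]; exact Nat.floor_le (by positivity)
    have h3 : s * q < r q + 1 := by rw [hr]; exact Nat.lt_floor_add_one _
    have h4 : 31 / 32 * ((q : ℝ) - p) ≤ s * (q - p) :=
      mul_le_mul_of_nonneg_right (by linarith) (by linarith)
    have h5 : ((q : ℝ) - p) / 4 ≤ (r q : ℝ) - r p := by linarith
    have e0 : ((r q - r p : ℕ) : ℝ) = (r q : ℝ) - r p := by push_cast [Nat.cast_sub h2]; ring
    have e1 : (2 : ℝ) ^ (r q - r p) = Real.exp (Real.log 2 * ((r q : ℝ) - r p)) := by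
      rw [← e0, mul_comm, Real.exp_nat_mul, Real.exp_log (by norm_num)]
    have e2 : ρ ^ (q - p) = Real.exp (-(Real.log 2 / 4 * ((q : ℝ) - p))) := by
      have : ((q - p : ℕ) : ℝ) = (q : ℝ) - p := by push_cast [Nat.cast_sub (by omega : p ≤ q)]; ring
      rw [hρ, ← Real.exp_nat_mul, this]
      ring_nf
    have h6 : ((g : ℝ) ^ (r q - r p))⁻¹ ≤ ((2 : ℝ) ^ (r q - r p))⁻¹ :=
      inv_anti₀ (by positivity) (pow_le_pow_left₀ (by norm_num) hgr _)
    refine h6.trans ?_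
    rw [e1, e2, ← Real.exp_neg]
    refine Real.exp_le_exp.2 ?_
    nlinarith
  -- the integers
  obtain ⟨cc, hcc⟩ : ∃ cc : ℕ → ℕ, cc = fun p => w p * g ^ r p + A * g ^ (r p - z) := ⟨_, rfl⟩
  have hterm : ∀ p ∈ T, ∀ y, w p * g ^ r p + (A * g ^ (n - z) + y) / g ^ (n - r p) =
      cc p + y / g ^ (n - r p) := by
    intro p hp y
    obtain ⟨_, _, hpn⟩ := hT p hp
    obtain ⟨hzr, _⟩ := hrlo p hp
    have hrn := (hrle p).trans hpn
    have e : n - z = (r p - z) + (n - r p) := by omega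
    have e2 : A * g ^ (n - z) + y = y + A * g ^ (r p - z) * g ^ (n - r p) := by
      rw [e, pow_add]
      ring
    rw [e2, Nat.add_mul_div_right _ _ (by positivity), hcc]
    ring
  have hccA : ∀ p, 3 * g ^ (r p - z) ≤ cc p := by
    intro p
    rw [hcc]
    have : 3 * g ^ (r p - z) ≤ A * g ^ (r p - z) := Nat.mul_le_mul_right _ hA3
    show 3 * g ^ (r p - z) ≤ w p * g ^ r p + A * g ^ (r p - z)
    omega
  have hccg : ∀ p ∈ T, cc p + g ^ (r p - z) ≤ g ^ p := by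
    intro p hp
    obtain ⟨hpp, _, hpn⟩ := hT p hp
    obtain ⟨hzr, _⟩ := hrlo p hp
    have hw1 := hw p hpp.one_lt.le
    have h1 : (A + 1) * g ^ (r p - z) ≤ g ^ r p := by
      calc (A + 1) * g ^ (r p - z) ≤ g ^ z * g ^ (r p - z) := Nat.mul_le_mul_right _ hAz
        _ = g ^ r p := by rw [← pow_add, Nat.add_sub_cancel' hzr]
    have h2 : (w p + 1) * g ^ r p ≤ g ^ p := by
      calc (w p + 1) * g ^ r p ≤ g ^ (p - r p) * g ^ r p := Nat.mul_le_mul_right _ hw1
        _ = g ^ p := by rw [← pow_add, Nat.sub_add_cancel (hrle p)]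
    rw [hcc]
    show w p * g ^ r p + A * g ^ (r p - z) + g ^ (r p - z) ≤ g ^ p
    nlinarith
  have hcc98 : ∀ p ∈ T, (cc p : ℝ) + (g : ℝ) ^ (r p - z) ≤ ((g : ℝ) ^ (r p - z)) ^ (9 / 8 : ℝ) := by
    intro p hp
    have h1 := hccg p hp
    have h2 : (cc p : ℝ) + (g : ℝ) ^ (r p - z) ≤ (g : ℝ) ^ p := by exact_mod_cast h1
    refine h2.trans ?_
    have hpw : ∀ k : ℕ, (g : ℝ) ^ k = Real.exp (lg * k) := by
      intro k
      rw [mul_comm, Real.exp_nat_mul, hlg, Real.exp_log hg0]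
    rw [hpw, hpw, ← Real.exp_mul]
    refine Real.exp_le_exp.2 ?_
    have h3 := (hrlo p hp).2
    have hp0 : (0 : ℝ) ≤ p := Nat.cast_nonneg p
    have h4 : (p : ℝ) ≤ ((r p - z : ℕ) : ℝ) * (9 / 8) := by nlinarith
    calc lg * p ≤ lg * (((r p - z : ℕ) : ℝ) * (9 / 8)) := mul_le_mul_of_nonneg_left h4 hlg0.le
      _ = _ := by ring
  -- the number of hits as a sum
  obtain ⟨k, hk⟩ : ∃ k : ℕ → ℕ, k = fun y => hits g n T (fun p => w p * g ^ r p) (fun p => r p)
      (A * g ^ (n - z) + y) := ⟨_, rfl⟩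
  have hkeq : ∀ y, (k y : ℝ) = ∑ p ∈ T, rpi p (cc p + y / g ^ (n - r p)) := by
    intro y
    rw [hk]
    show ((hits g n T (fun p => w p * g ^ r p) (fun p => r p) (A * g ^ (n - z) + y) : ℕ) : ℝ) = _
    rw [hits_eq]
    refine Finset.sum_congr rfl fun p hp => ?_
    rw [hterm p hp]
  have hNpos : (0 : ℝ) < (g : ℝ) ^ (n - z) := by positivity
  have hcast : ((g ^ (n - z) : ℕ) : ℝ) = (g : ℝ) ^ (n - z) := by push_cast; rfl
  -- first moments
  have hone : ∀ p ∈ T, c1 * (wt p / lg) * (g : ℝ) ^ (n - z) ≤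
      ∑ y ∈ range (g ^ (n - z)), rpi p (cc p + y / g ^ (n - r p)) ∧
      ∑ y ∈ range (g ^ (n - z)), rpi p (cc p + y / g ^ (n - r p)) ≤
        c2 * (wt p / lg) * (g : ℝ) ^ (n - z) := by
    intro p hp
    obtain ⟨_, hpz, hpn⟩ := hT p hp
    obtain ⟨hzr, ha⟩ := hrlo p hp
    have hrn := (hrle p).trans hpn
    have e : n - z = (r p - z) + (n - r p) := by omega
    have h1 := rep g (r p - z) (n - r p) (fun x => rpi p (cc p + x))
    rw [← e] at h1
    rw [h1]
    obtain ⟨h2, h3⟩ := hP1 p (by omega) (r p - z) (cc p) ha (hccA p) (hccg p hp)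
    have hgd : (0 : ℝ) < (g : ℝ) ^ (n - r p) := by positivity
    have e2 : (g : ℝ) ^ (n - z) = (g : ℝ) ^ (n - r p) * (g : ℝ) ^ (r p - z) := by
      rw [e, pow_add]; ring
    rw [e2]
    constructor
    · calc c1 * (wt p / lg) * ((g : ℝ) ^ (n - r p) * (g : ℝ) ^ (r p - z)) =
            (g : ℝ) ^ (n - r p) * (c1 * (wt p / lg) * (g : ℝ) ^ (r p - z)) := by ring
        _ ≤ _ := mul_le_mul_of_nonneg_left h2 hgd.le
    · calc _ ≤ (g : ℝ) ^ (n - r p) * (c2 * (wt p / lg) * (g : ℝ) ^ (r p - z)) :=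
            mul_le_mul_of_nonneg_left h3 hgd.le
        _ = _ := by ring
  obtain ⟨ω, hω⟩ : ∃ ω, ω = ∑ p ∈ T, wt p / lg := ⟨_, rfl⟩
  have hω1 : 1 ≤ ω := by
    rw [hω, ← Finset.sum_div, le_div_iff₀ hlg0, one_mul]
    exact hvT
  have hmom1 : c1 * ω * ((g ^ (n - z) : ℕ) : ℝ) ≤ ∑ y ∈ range (g ^ (n - z)), (k y : ℝ) := by
    simp only [hkeq]
    rw [Finset.sum_comm, hcast]
    calc c1 * ω * (g : ℝ) ^ (n - z) = ∑ p ∈ T, c1 * (wt p / lg) * (g : ℝ) ^ (n - z) := by
          rw [hω, Finset.mul_sum, Finset.sum_mul]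
      _ ≤ _ := Finset.sum_le_sum fun p hp => (hone p hp).1
  -- pairs
  have htwo : ∀ p ∈ T, ∀ q ∈ T, p < q →
      ∑ y ∈ range (g ^ (n - z)), rpi p (cc p + y / g ^ (n - r p)) * rpi q (cc q + y / g ^ (n - r q)) ≤
        (g : ℝ) ^ (n - z) * (wt q / lg) * (C3 * (wt p / lg) + 16 * K1 * ρ ^ (q - p)) := by
    intro p hp q hq hpq
    obtain ⟨hpp, hpz, hpn⟩ := hT p hp
    obtain ⟨hqp, hqz, hqn⟩ := hT q hq
    obtain ⟨hzp, hap⟩ := hrlo p hp
    obtain ⟨hzq, haq⟩ := hrlo q hq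
    have hrqn := (hrle q).trans hqn
    have hpq2 : p + 2 ≤ q := by
      have h1 : p % 2 = 1 := by
        rcases hpp.eq_two_or_odd with h | h
        · omega
        · exact h
      have h2 : q % 2 = 1 := by
        rcases hqp.eq_two_or_odd with h | h
        · omega
        · exact h
      omega
    obtain ⟨hrpq, hgrow⟩ := hrgrow p q hpq2
    have e : n - z = (r q - z) + (n - r q) := by omega
    have h1 := rep g (r q - z) (n - r q)
      (fun x => rpi p (cc p + x / g ^ (r q - r p)) * rpi q (cc q + x))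
    rw [← e] at h1
    have e2 : ∀ y, y / g ^ (n - r q) / g ^ (r q - r p) = y / g ^ (n - r p) := by
      intro y
      rw [Nat.div_div_eq_div_mul, ← pow_add]
      congr 2
      omega
    simp only [e2] at h1
    rw [h1]
    have ead : (r p - z) + (r q - r p) = r q - z := by omega
    have hp0 : (0 : ℝ) < p := by exact_mod_cast hpp.pos
    have hq0 : (0 : ℝ) < q := by exact_mod_cast hqp.pos
    have hgd : (0 : ℝ) < (g : ℝ) ^ (n - r q) := by positivity
    have e3 : (g : ℝ) ^ (n - z) = (g : ℝ) ^ (n - r q) * (g : ℝ) ^ (r q - z) := by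
      rw [e, pow_add]; ring
    have hwp : 0 ≤ wt p / lg := div_nonneg (wt_nonneg p) hlg0.le
    have hwq : 0 ≤ wt q / lg := div_nonneg (wt_nonneg q) hlg0.le
    have hgz : (0 : ℝ) < (g : ℝ) ^ (r q - z) := by positivity
    have hρq : 0 < ρ ^ (q - p) := by positivity
    rw [e3]
    rcases Nat.lt_or_ge (16 * p) q with hfar | hnr
    · -- far
      have h2 := hP3 p (by omega) q (by omega) (r p - z) (r q - r p) (cc p) (cc q) (by nlinarith) (by
        have hs1' : (r p : ℝ) ≤ p := by exact_mod_cast hrle p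
        have h3 : s * q < r q + 1 := by rw [hr]; exact Nat.lt_floor_add_one _
        have e0 : ((r q - r p : ℕ) : ℝ) = (r q : ℝ) - r p := by push_cast [Nat.cast_sub hrpq]; ring
        have h4 : (16 : ℝ) * p < q := by exact_mod_cast hfar
        have h5 : 31 / 32 * (q : ℝ) ≤ s * q := mul_le_mul_of_nonneg_right (by linarith) hq0.le
        have h6 : (100 : ℝ) ≤ z := by exact_mod_cast (by omega : 100 ≤ z)
        have h7 : (z : ℝ) ≤ q := by exact_mod_cast (by omega : z ≤ q)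
        rw [e0]
        linarith) (by
        have h3 := hccA p
        have h4 : 1 ≤ g ^ (r p - z) := Nat.one_le_pow _ _ (by omega)
        omega) (by
        have h3 := hccA q
        have h4 : 1 ≤ g ^ (r q - z) := Nat.one_le_pow _ _ (by omega)
        omega) (hccg p hp) (by rw [ead]; exact hccg q hq)
      rw [ead] at h2
      have h5 : K2 * (wt p / lg) ≤ C3 * (wt p / lg) + 16 * K1 * ρ ^ (q - p) := by
        have h6 : 0 ≤ 16 * K1 * ρ ^ (q - p) := by positivity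
        have h7 : K2 * (wt p / lg) ≤ C3 * (wt p / lg) :=
          mul_le_mul_of_nonneg_right (by rw [hC3]; linarith) hwp
        linarith
      calc _ ≤ (g : ℝ) ^ (n - r q) * (K2 * (wt p / lg) * (wt q / lg) * (g : ℝ) ^ (r q - z)) :=
            mul_le_mul_of_nonneg_left h2 hgd.le
        _ = (g : ℝ) ^ (n - r q) * (g : ℝ) ^ (r q - z) * (wt q / lg) * (K2 * (wt p / lg)) := by ring
        _ ≤ _ := mul_le_mul_of_nonneg_left h5 (by positivity)
    · -- near
      have h2 := hP2 p (by omega) q hpq hnr (r p - z) (r q - r p) (cc p) (cc q) (by nlinarith)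
        (by rw [ead]; nlinarith) (by have := hccA p; omega) (by rw [ead]; have := hccA q; omega)
        (hcc98 p hp) (by rw [ead]; exact hcc98 q hq) (by rw [ead]; have := hrle q; omega)
      rw [ead] at h2
      have h16 : wt p / lg ≤ 16 * (wt q / lg) := by
        have h3 : wt p ≤ 16 * wt q := by
          unfold wt
          have h4 : Real.log p ≤ Real.log q := Real.log_le_log hp0 (by exact_mod_cast hpq.le)
          have h5 : (q : ℝ) ≤ 16 * p := by exact_mod_cast hnr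
          have h6 : 0 ≤ Real.log q := Real.log_natCast_nonneg q
          rw [div_le_iff₀ hp0]
          calc Real.log p ≤ Real.log q := h4
            _ = Real.log q / q * q := by field_simp
            _ ≤ Real.log q / q * (16 * p) := by gcongr
            _ = _ := by ring
        calc wt p / lg ≤ 16 * wt q / lg := div_le_div_of_nonneg_right h3 hlg0.le
          _ = _ := by ring
      have h5 : K1 * ((wt p / lg) ^ 2 + ((g : ℝ) ^ (r q - r p))⁻¹ * (wt p / lg)) ≤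
          (wt q / lg) * (C3 * (wt p / lg) + 16 * K1 * ρ ^ (q - p)) := by
        have h6 : (wt p / lg) ^ 2 ≤ 16 * (wt q / lg) * (wt p / lg) := by
          rw [sq]
          exact mul_le_mul_of_nonneg_right h16 hwp
        have h7 : ((g : ℝ) ^ (r q - r p))⁻¹ * (wt p / lg) ≤ ρ ^ (q - p) * (16 * (wt q / lg)) :=
          mul_le_mul hgrow h16 hwp hρq.le
        have h8 : 0 ≤ K2 * ((wt q / lg) * (wt p / lg)) := by positivity
        rw [hC3]
        calc K1 * ((wt p / lg) ^ 2 + ((g : ℝ) ^ (r q - r p))⁻¹ * (wt p / lg)) ≤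
              K1 * (16 * (wt q / lg) * (wt p / lg) + ρ ^ (q - p) * (16 * (wt q / lg))) := by gcongr
          _ ≤ _ := by nlinarith
      calc _ ≤ (g : ℝ) ^ (n - r q) * (K1 * (g : ℝ) ^ (r q - z) * ((wt p / lg) ^ 2 +
            ((g : ℝ) ^ (r q - r p))⁻¹ * (wt p / lg))) := mul_le_mul_of_nonneg_left h2 hgd.le
        _ = (g : ℝ) ^ (n - r q) * (g : ℝ) ^ (r q - z) * (K1 * ((wt p / lg) ^ 2 +
            ((g : ℝ) ^ (r q - r p))⁻¹ * (wt p / lg))) := by ring
        _ ≤ (g : ℝ) ^ (n - r q) * (g : ℝ) ^ (r q - z) *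
            ((wt q / lg) * (C3 * (wt p / lg) + 16 * K1 * ρ ^ (q - p))) :=
            mul_le_mul_of_nonneg_left h5 (by positivity)
        _ = _ := by ring
  have hmom2 : ∑ y ∈ range (g ^ (n - z)), (k y : ℝ) ^ 2 ≤ (b * ω ^ 2) * ((g ^ (n - z) : ℕ) : ℝ) := by
    simp only [hkeq, sq_rows]
    rw [Finset.sum_comm, hcast]
    have hq1 : ∀ q ∈ T, ∑ y ∈ range (g ^ (n - z)), (rpi q (cc q + y / g ^ (n - r q)) ^ 2 +
        2 * ∑ p ∈ T.filter (fun p => p < q), rpi p (cc p + y / g ^ (n - r p)) *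
          rpi q (cc q + y / g ^ (n - r q))) ≤
        (wt q / lg) * ((g : ℝ) ^ (n - z) * (c2 + 2 * (C3 * ω + 16 * K1 * (1 / (1 - ρ))))) := by
      intro q hq
      have hwq : 0 ≤ wt q / lg := div_nonneg (wt_nonneg q) hlg0.le
      rw [Finset.sum_add_distrib, ← Finset.mul_sum, Finset.sum_comm]
      have h1 : ∑ y ∈ range (g ^ (n - z)), rpi q (cc q + y / g ^ (n - r q)) ^ 2 ≤
          c2 * (wt q / lg) * (g : ℝ) ^ (n - z) := by
        calc _ ≤ ∑ y ∈ range (g ^ (n - z)), rpi q (cc q + y / g ^ (n - r q)) := by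
              refine Finset.sum_le_sum fun y _ => ?_
              have a1 := rpi_nonneg q (cc q + y / g ^ (n - r q))
              have a2 := rpi_le_one q (cc q + y / g ^ (n - r q))
              nlinarith
          _ ≤ _ := (hone q hq).2
      have h2 : ∑ p ∈ T.filter (fun p => p < q), ∑ y ∈ range (g ^ (n - z)),
          rpi p (cc p + y / g ^ (n - r p)) * rpi q (cc q + y / g ^ (n - r q)) ≤
          (g : ℝ) ^ (n - z) * (wt q / lg) * (C3 * ω + 16 * K1 * (1 / (1 - ρ))) := by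
        calc _ ≤ ∑ p ∈ T.filter (fun p => p < q),
              (g : ℝ) ^ (n - z) * (wt q / lg) * (C3 * (wt p / lg) + 16 * K1 * ρ ^ (q - p)) := by
              refine Finset.sum_le_sum fun p hp => ?_
              rw [mem_filter] at hp
              exact htwo p hp.1 q hq hp.2
          _ = (g : ℝ) ^ (n - z) * (wt q / lg) * (C3 * (∑ p ∈ T.filter (fun p => p < q), wt p / lg) +
              16 * K1 * ∑ p ∈ T.filter (fun p => p < q), ρ ^ (q - p)) := by
              rw [← Finset.mul_sum, Finset.sum_add_distrib, ← Finset.mul_sum, ← Finset.mul_sum]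
          _ ≤ _ := by
              have h3 := geo hρ0 hρ1 q (T.filter (fun p => p < q)) fun p hp => (mem_filter.1 hp).2
              have h4 : ∑ p ∈ T.filter (fun p => p < q), wt p / lg ≤ ω := by
                rw [hω]
                exact Finset.sum_le_sum_of_subset_of_nonneg (Finset.filter_subset _ _) fun p _ _ =>
                  div_nonneg (wt_nonneg p) hlg0.le
              gcongr
      nlinarith
    calc _ ≤ ∑ q ∈ T, (wt q / lg) * ((g : ℝ) ^ (n - z) * (c2 + 2 * (C3 * ω + 16 * K1 * (1 / (1 - ρ))))) :=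
          Finset.sum_le_sum hq1
      _ = ω * ((g : ℝ) ^ (n - z) * (c2 + 2 * (C3 * ω + 16 * K1 * (1 / (1 - ρ))))) := by
          rw [← Finset.sum_mul, ← hω]
      _ ≤ ω * ((g : ℝ) ^ (n - z) * (c2 * ω + 2 * (C3 * ω + 16 * K1 * (1 / (1 - ρ)) * ω))) := by
          have h1 : 0 ≤ 16 * K1 * (1 / (1 - ρ)) := by positivity
          have h2 : c2 ≤ c2 * ω := by nlinarith
          have h3 : 16 * K1 * (1 / (1 - ρ)) ≤ 16 * K1 * (1 / (1 - ρ)) * ω := by nlinarith
          have h4 : 0 ≤ ω := by linarith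
          gcongr
      _ = _ := by rw [hb]; ring
  have hω0 : 0 < ω := by linarith
  have hfin := half_mean k (m := c1 * ω) (b := b * ω ^ 2) (by positivity) (by positivity) hmom1 hmom2
  have e0 : (c1 * ω) ^ 2 / (2 * (b * ω ^ 2)) = c1 ^ 2 / (2 * b) := by
    field_simp
  rw [hcast, hk, e0] at hfin
  exact hfin

end Pool.Agent.W157.MG
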