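import Mathlib
import Pool.Agent.W157.MX.Chain
import Pool.Agent.W157.MX.Block2

set_option autoImplicit false

/-!
# Many blocks of exponents, uniformly in the base and in the density
-/

namespace Pool.Agent.W157.MG

open Finset Filter Topology MeasureTheory
open Pool.Agent.W66L (rpi rpi_nonneg rpi_le_one)
open Pool.Agent.TH888.R (wt wt_nonneg VS VS_mono)
open Pool.Agent.H305R2 (roughPart)
open Pool.Agent.Q160.TB (Top bt_int wt_anti)
open Pool.Agent.W157.MX (zz zz_zero zz_succ zz_eq zz_le zz_mono wgt wgt_sum wgt_eval wgt_nonneg wgt_le_one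
  chain_card hits)

/-- a difference of `VS` as a sum -/
lemma VS_sub (S : Set ℕ) [DecidablePred fun p => p.Prime ∧ p ∈ S] {a b : ℕ} (hab : a ≤ b) :
    VS S b - VS S a = ∑ p ∈ (Ioc a b).filter (fun p => p.Prime ∧ p ∈ S), wt p := by
  classical
  rw [Finset.sum_filter]
  unfold VS
  have e1 : range (b + 1) = range (a + 1) ∪ Ioc a b := by
    ext p
    simp only [mem_range, mem_union, mem_Ioc]
    omega
  have hd : Disjoint (range (a + 1)) (Ioc a b) := by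
    rw [Finset.disjoint_left]
    intro p hp hp'
    rw [mem_range] at hp
    rw [mem_Ioc] at hp'
    omega
  rw [e1, Finset.sum_union hd, add_sub_cancel_left]
  refine Finset.sum_congr rfl fun p _ => ?_
  by_cases h : p.Prime ∧ p ∈ S
  · rw [if_pos h, if_pos ⟨h.2, h.1⟩]
  · rw [if_neg h, if_neg fun h1 => h ⟨h1.2, h1.1⟩]

/-- the weight of a dyadic interval is bounded -/
lemma VS_double_le (S : Set ℕ) {n : ℕ} (hn : 3 ≤ n) : VS S (2 * n) - VS S n ≤ 20 := by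
  classical
  rw [VS_sub S (by omega)]
  have hn' : (3 : ℝ) ≤ n := by exact_mod_cast hn
  have hl0 : 0 < Real.log n := Real.log_pos (by linarith)
  have h1 : (((Ioc n (n + n)).filter Nat.Prime).card : ℝ) ≤ 20 * (n / Real.log n) := bt_int (by omega)
  have h2 : (((Ioc n (2 * n)).filter (fun p => p.Prime ∧ p ∈ S)).card : ℝ) ≤ 20 * (n / Real.log n) := by
    refine le_trans ?_ h1
    have : (Ioc n (2 * n)).filter (fun p => p.Prime ∧ p ∈ S) ⊆ (Ioc n (n + n)).filter Nat.Prime := by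
      intro p hp
      rw [mem_filter, mem_Ioc] at hp ⊢
      exact ⟨⟨hp.1.1, by omega⟩, hp.2.1⟩
    exact_mod_cast Finset.card_le_card this
  calc ∑ p ∈ (Ioc n (2 * n)).filter (fun p => p.Prime ∧ p ∈ S), wt p ≤
        ∑ p ∈ (Ioc n (2 * n)).filter (fun p => p.Prime ∧ p ∈ S), wt n := by
        refine Finset.sum_le_sum fun p hp => ?_
        rw [mem_filter, mem_Ioc] at hp
        exact wt_anti hn hp.1.1.le
    _ = ((Ioc n (2 * n)).filter (fun p => p.Prime ∧ p ∈ S)).card * wt n := by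
        rw [Finset.sum_const, nsmul_eq_mul]
    _ ≤ 20 * (n / Real.log n) * wt n := mul_le_mul_of_nonneg_right h2 (wt_nonneg n)
    _ = 20 := by
        unfold wt
        field_simp

/-- many dyadic intervals -/
lemma VS_pow {S : Set ℕ} {a : ℝ} {N : ℕ} (h : ∀ n ≥ N, a ≤ VS S (2 * n) - VS S n) {m : ℕ} (hm : N ≤ m)
    (k : ℕ) : k * a ≤ VS S (2 ^ k * m) - VS S m := by
  induction k with
  | zero => simp
  | succ k ih =>
    have h1 := h (2 ^ k * m) (by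
      have : m ≤ 2 ^ k * m := Nat.le_mul_of_pos_left _ (by positivity)
      omega)
    have e : 2 ^ (k + 1) * m = 2 * (2 ^ k * m) := by ring
    rw [e]
    push_cast
    linarith

/-- **Deviation bound with blocks.** -/
theorem dev_block2 : ∃ δ c0 C : ℝ, 0 < δ ∧ δ < 1 ∧ 0 < c0 ∧ c0 < 1 ∧ 0 < C ∧ ∀ g : ℕ, 2 ≤ g →
    ∀ (S : Set ℕ) (a : ℝ), 0 < a → (∀ᶠ n : ℕ in atTop, a ≤ VS S (2 * n) - VS S n) →
    ∃ K : ℕ, 2 ≤ K ∧ Real.log K ≤ C * (Real.log g / a) ∧ ∀ᶠ z0 : ℕ in atTop, ∀ s : ℝ, 1 - δ ≤ s → s ≤ 1 →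
    ∀ w : ℕ → ℕ, (∀ p, 1 ≤ p → w p < g ^ (p - ⌊s * p⌋₊)) →
    ∀ {Ω : Type} [MeasurableSpace Ω] {μ : Measure Ω} [IsProbabilityMeasure μ] {X : ℕ → Ω → ℕ},
    Top g μ X → ∀ t A J : ℕ, t ≤ z0 → 3 ≤ A → A < g ^ t → ∀ (M : Ω → ℕ) (m : ℝ),
    (∀ x, ∀ F : Finset ℕ, (∀ p ∈ F, K * z0 < p ∧ p ≤ K ^ (2 * J) * z0 ∧ p.Prime ∧ p ∈ S ∧
      (roughPart p (w p * g ^ ⌊s * p⌋₊ + X ⌊s * p⌋₊ x)).Prime) → F.card ≤ M x) →
    μ.real {x | X t x = A ∧ (M x : ℝ) < m} ≤ (2 : ℝ) ^ m * ((1 - c0) ^ J * ((g : ℝ) ^ t)⁻¹) := by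
  classical
  obtain ⟨δ, c0, hδ, hδ4, hc0, hblock⟩ := block2
  obtain ⟨k0, hk0⟩ : ∃ k0 : ℕ, k0 = ⌈16 / δ⌉₊ + 1 := ⟨_, rfl⟩
  have hl2 : 0 < Real.log 2 := Real.log_pos (by norm_num)
  have hl21 : Real.log 2 < 1 := by linarith [Real.log_two_lt_d9]
  refine ⟨δ / 8, min c0 (1 / 2), 1 + (1 + k0) * (20 / Real.log 2), by positivity, by linarith,
    lt_min hc0 (by norm_num), by have := min_le_right c0 (1 / 2); linarith, by positivity,
    fun g hg S v hv hS => ?_⟩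
  have hgr : (2 : ℝ) ≤ g := by exact_mod_cast hg
  obtain ⟨lg, hlg⟩ : ∃ lg, lg = Real.log g := ⟨_, rfl⟩
  have hlg2 : Real.log 2 ≤ lg := by rw [hlg]; exact Real.log_le_log (by norm_num) hgr
  have hlg0 : 0 < lg := by linarith
  obtain ⟨Z2, hZ2⟩ := eventually_atTop.1 hS
  have hv20 : v ≤ 20 :=
    (hZ2 (Z2 + 3) (by omega)).trans (VS_double_le S (by omega))
  obtain ⟨k, hk⟩ : ∃ k : ℕ, k = ⌈lg / v⌉₊ + k0 := ⟨_, rfl⟩
  obtain ⟨K, hKdef⟩ : ∃ K : ℕ, K = 2 ^ k := ⟨_, rfl⟩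
  have hk0k : (2 : ℕ) ^ k0 ≤ K := by
    rw [hKdef]
    exact Nat.pow_le_pow_right (by norm_num) (by omega)
  have hKδ : 16 / δ ≤ K := by
    have h1 : k0 ≤ 2 ^ k0 := (Nat.lt_two_pow_self).le
    have h2 : ((k0 : ℕ) : ℝ) ≤ K := by exact_mod_cast h1.trans hk0k
    refine le_trans ?_ h2
    rw [hk0]
    push_cast
    have := Nat.le_ceil (16 / δ)
    linarith
  have hK2 : 2 ≤ K := by
    refine le_trans ?_ hk0k
    calc 2 = 2 ^ 1 := by norm_num
      _ ≤ 2 ^ k0 := Nat.pow_le_pow_right (by norm_num) (by omega)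
  have hkv : lg ≤ k * v := by
    have h1 : lg / v ≤ k := by
      rw [hk]
      push_cast
      have := Nat.le_ceil (lg / v)
      have h2 : (0 : ℝ) ≤ k0 := Nat.cast_nonneg _
      linarith
    rwa [div_le_iff₀ hv] at h1
  have hlogK : Real.log K ≤ (1 + (1 + k0) * (20 / Real.log 2)) * (lg / v) := by
    have h1 : Real.log K = k * Real.log 2 := by
      rw [hKdef]
      push_cast
      rw [Real.log_pow]
    have h2 : (k : ℝ) ≤ lg / v + (1 + k0) := by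
      rw [hk]
      push_cast
      have := (Nat.ceil_lt_add_one (div_nonneg hlg0.le hv.le)).le
      linarith
    have h3 : 1 ≤ 20 / Real.log 2 * (lg / v) := by
      rw [div_mul_div_comm, le_div_iff₀ (by positivity)]
      nlinarith
    have hk00 : (0 : ℝ) ≤ k0 := Nat.cast_nonneg _
    have h4 : (1 + (k0 : ℝ)) * 1 ≤ (1 + k0) * (20 / Real.log 2 * (lg / v)) :=
      mul_le_mul_of_nonneg_left h3 (by positivity)
    have h5 : (0 : ℝ) ≤ k := Nat.cast_nonneg _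
    rw [h1]
    calc (k : ℝ) * Real.log 2 ≤ k * 1 := mul_le_mul_of_nonneg_left hl21.le h5
      _ ≤ _ := by linarith
  obtain ⟨Z1, hZ1⟩ := eventually_atTop.1 (hblock g hg K hKδ)
  rw [← hlg] at hZ1
  refine ⟨K, hK2, by rw [← hlg]; exact hlogK, ?_⟩
  filter_upwards [eventually_ge_atTop (Z1 + Z2 + 1)] with z0 hz0 s hs hs1 w hw
  intro Ω _ μ _ X hX t A J ht hA3 hAt M m hM
  obtain ⟨T, hT⟩ : ∃ T : ℕ → Finset ℕ, T = fun j => (Ioc (K * zz K z0 j) (zz K z0 (j + 1))).filter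
      (fun p => p.Prime ∧ p ∈ S) := ⟨_, rfl⟩
  have hmT : ∀ j p, p ∈ T j ↔ (K * zz K z0 j < p ∧ p ≤ zz K z0 (j + 1)) ∧ p.Prime ∧ p ∈ S := by
    intro j p
    rw [hT]
    simp only [mem_filter, mem_Ioc]
  have hz0le : ∀ j, z0 ≤ zz K z0 j := fun j => zz_mono (by omega) z0 (Nat.zero_le j)
  have hTw : ∀ j, lg ≤ ∑ p ∈ T j, wt p := by
    intro j
    obtain ⟨z, hz⟩ : ∃ z, z = zz K z0 j := ⟨_, rfl⟩
    have hz1 : z0 ≤ z := by rw [hz]; exact hz0le j
    have h1 := VS_pow hZ2 (m := K * z) (by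
      have : z ≤ K * z := Nat.le_mul_of_pos_left _ (by omega)
      omega) k
    rw [← hKdef] at h1
    have e : K * (K * z) = K ^ 2 * z := by ring
    rw [e, VS_sub S (by rw [← e]; exact Nat.le_mul_of_pos_left _ (by omega))] at h1
    rw [hT]
    simp only
    rw [zz_succ, ← hz]
    exact hkv.trans h1
  have hrle : ∀ p : ℕ, ⌊s * p⌋₊ ≤ p := by
    intro p
    refine Nat.floor_le_of_le ?_
    have : (0 : ℝ) ≤ p := Nat.cast_nonneg p
    nlinarith
  have hsum := wgt_sum (g := g) (K := K) (z0 := z0) (t := t) (A := A) (T := T)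
    (c := fun p => w p * g ^ ⌊s * p⌋₊) (r := fun p => ⌊s * p⌋₊) (c0 := min c0 (1 / 2)) hg (by omega) ht
    hA3 hAt J (by have := min_le_right c0 (1 / 2); linarith) (by
      intro j _ B hB3 hB
      have h1 := hZ1 (zz K z0 j) (by have := hz0le j; omega) s hs hs1 w hw (T j) (fun p hp => by
        rw [hmT] at hp
        rw [zz_succ] at hp
        exact ⟨hp.2.1, hp.1.1, hp.1.2⟩) (hTw j) B hB3 hB
      refine h1.trans ?_
      have h2 : (0 : ℝ) < (g : ℝ) ^ (K ^ 2 * zz K z0 j - zz K z0 j) := by positivity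
      have h3 := min_le_left c0 (1 / 2)
      nlinarith)
  have hint := hX.integral hg (zz K z0 J) (wgt g K z0 t A T (fun p => w p * g ^ ⌊s * p⌋₊)
    (fun p => ⌊s * p⌋₊) J)
  rw [← hint] at hsum
  -- Markov
  obtain ⟨Y, hY⟩ : ∃ Y : Ω → ℝ, Y = fun x => wgt g K z0 t A T (fun p => w p * g ^ ⌊s * p⌋₊)
    (fun p => ⌊s * p⌋₊) J (X (zz K z0 J) x) := ⟨_, rfl⟩
  have hYm : Measurable Y := by
    rw [hY]
    exact (measurable_from_nat (f := wgt g K z0 t A T (fun p => w p * g ^ ⌊s * p⌋₊)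
      (fun p => ⌊s * p⌋₊) J)).comp (hX.meas _)
  have hY0 : ∀ x, 0 ≤ Y x := fun x => by rw [hY]; exact wgt_nonneg _ _
  have hY1 : ∀ x, Y x ≤ 1 := fun x => by rw [hY]; exact wgt_le_one _ _
  have hYi : Integrable Y μ := Integrable.of_bound hYm.aestronglyMeasurable 1
    (Eventually.of_forall fun x => by rw [Real.norm_of_nonneg (hY0 x)]; exact hY1 x)
  have hsub : {x | X t x = A ∧ (M x : ℝ) < m} ⊆ {x | ((2 : ℝ) ^ m)⁻¹ ≤ Y x} := by
    intro x hx
    obtain ⟨hx1, hx2⟩ := hx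
    show ((2 : ℝ) ^ m)⁻¹ ≤ Y x
    have h1 := wgt_eval (g := g) (K := K) (z0 := z0) (t := t) (A := A) (T := T)
      (c := fun p => w p * g ^ ⌊s * p⌋₊) (r := fun p => ⌊s * p⌋₊) (X := fun n => X n x)
      (fun m n hmn => hX.compat m n x hmn) (by omega) ht hrle hx1 J (by
        intro j _ p hp
        rw [hmT] at hp
        exact hp.1.2)
    have h2 : Y x = wgt g K z0 t A T (fun p => w p * g ^ ⌊s * p⌋₊) (fun p => ⌊s * p⌋₊) J
        (X (zz K z0 J) x) := by rw [hY]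
    rw [h2, h1]
    set n := ∑ j ∈ range J, ((T j).filter (fun p =>
      (roughPart p (w p * g ^ ⌊s * p⌋₊ + X ⌊s * p⌋₊ x)).Prime)).card with hn
    have hnM : n ≤ M x := by
      have h3 := chain_card (K := K) (by omega) (zz K z0) (zz_succ K z0)
        (fun p => p.Prime ∧ p ∈ S ∧ (roughPart p (w p * g ^ ⌊s * p⌋₊ + X ⌊s * p⌋₊ x)).Prime) J
      have h4 := hM x ((Ioc (K * zz K z0 0) (zz K z0 J)).filter (fun p => p.Prime ∧ p ∈ S ∧
        (roughPart p (w p * g ^ ⌊s * p⌋₊ + X ⌊s * p⌋₊ x)).Prime)) (by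
          intro p hp
          rw [mem_filter, mem_Ioc, zz_zero, zz_eq] at hp
          exact ⟨hp.1.1, hp.1.2, hp.2⟩)
      refine le_trans (le_of_eq ?_) (h3.trans h4)
      rw [hn]
      refine Finset.sum_congr rfl fun j _ => ?_
      rw [hT]
      simp only [Finset.filter_filter]
      congr 1
      ext p
      simp only [mem_filter, and_assoc]
    have hn2 : (n : ℝ) ≤ m := by
      have : (n : ℝ) ≤ M x := by exact_mod_cast hnM
      linarith
    have h5 : (1 / 2 : ℝ) ^ n = ((2 : ℝ) ^ (n : ℝ))⁻¹ := by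
      rw [Real.rpow_natCast, one_div, inv_pow]
    rw [h5]
    refine inv_anti₀ (by positivity) ?_
    exact Real.rpow_le_rpow_of_exponent_le (by norm_num) hn2
  have hmk := mul_meas_ge_le_integral_of_nonneg (μ := μ) (Eventually.of_forall hY0) hYi (((2 : ℝ) ^ m)⁻¹)
  have h2m : (0 : ℝ) < (2 : ℝ) ^ m := by positivity
  have hmono : μ.real {x | X t x = A ∧ (M x : ℝ) < m} ≤ μ.real {x | ((2 : ℝ) ^ m)⁻¹ ≤ Y x} :=
    measureReal_mono hsub
  have hYint : ∫ x, Y x ∂μ ≤ (1 - min c0 (1 / 2)) ^ J * ((g : ℝ) ^ t)⁻¹ := by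
    rw [hY]
    exact hsum
  have h6 : μ.real {x | ((2 : ℝ) ^ m)⁻¹ ≤ Y x} ≤ (2 : ℝ) ^ m * ∫ x, Y x ∂μ := by
    have h7 : ((2 : ℝ) ^ m)⁻¹ * μ.real {x | ((2 : ℝ) ^ m)⁻¹ ≤ Y x} ≤ ∫ x, Y x ∂μ := hmk
    rw [inv_mul_le_iff₀ h2m] at h7
    exact h7
  calc _ ≤ μ.real {x | ((2 : ℝ) ^ m)⁻¹ ≤ Y x} := hmono
    _ ≤ (2 : ℝ) ^ m * ∫ x, Y x ∂μ := h6
    _ ≤ _ := mul_le_mul_of_nonneg_left hYint h2m.le

end Pool.Agent.W157.MG
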