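import Mathlib
import Pool.Agent.W157.MX.Unif
import Pool.Agent.W157.MX.Base
import Pool.Agent.Q160.TB5

set_option autoImplicit false

/-!
# A lower bound for the probability that a window contains no exponent
-/

namespace Pool.Agent.W157.MG

open Finset Filter Topology MeasureTheory
open Pool.Agent.W66L (rpi rpi_nonneg rpi_le_one)
open Pool.Agent.TH888.R (wt wt_nonneg VS VS_mono)
open Pool.Agent.H305R2 (roughPart)
open Pool.Agent.Q160.TB (Top)
open Pool.Agent.W157.MX (rep split div_add)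

open Classical in
/-- the indicator function of the prefixes without exponents -/
noncomputable def emp (g z0 t A : ℕ) (S : Set ℕ) (c r : ℕ → ℕ) (n u : ℕ) : ℝ :=
  if u / g ^ (n - t) = A ∧ ∀ p, z0 < p → p ≤ n → p.Prime → p ∈ S →
    ¬ (roughPart p (c p + u / g ^ (n - r p))).Prime then 1 else 0

/-- the proportion of these prefixes -/
noncomputable def pe (g z0 t A : ℕ) (S : Set ℕ) (c r : ℕ → ℕ) (n : ℕ) : ℝ :=
  (∑ u ∈ range (g ^ n), emp g z0 t A S c r n u) * ((g : ℝ) ^ n)⁻¹

section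

variable {g z0 t A : ℕ} {S : Set ℕ} {c r : ℕ → ℕ}

lemma emp_nonneg (n u : ℕ) : 0 ≤ emp g z0 t A S c r n u := by
  unfold emp
  split_ifs <;> norm_num

lemma emp_le_one (n u : ℕ) : emp g z0 t A S c r n u ≤ 1 := by
  unfold emp
  split_ifs <;> norm_num

lemma emp_one {n u : ℕ} (h : emp g z0 t A S c r n u ≠ 0) : u / g ^ (n - t) = A ∧
    ∀ p, z0 < p → p ≤ n → p.Prime → p ∈ S → ¬ (roughPart p (c p + u / g ^ (n - r p))).Prime := by
  unfold emp at h
  by_contra h1
  rw [if_neg h1] at h
  exact h rfl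

lemma emp_mono (hr : ∀ p, r p ≤ p) {m n : ℕ} (htm : t ≤ m) (hmn : m ≤ n) (u : ℕ) :
    emp g z0 t A S c r n u ≤ emp g z0 t A S c r m (u / g ^ (n - m)) := by
  by_cases h : emp g z0 t A S c r n u = 0
  · rw [h]
    exact emp_nonneg _ _
  · obtain ⟨h1, h2⟩ := emp_one h
    have h3 : emp g z0 t A S c r m (u / g ^ (n - m)) = 1 := by
      unfold emp
      rw [if_pos]
      refine ⟨?_, fun p hp1 hp2 hp3 hp4 => ?_⟩
      · rw [Nat.div_div_eq_div_mul, ← pow_add]
        have e : n - m + (m - t) = n - t := by omega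
        rw [e]
        exact h1
      · rw [Nat.div_div_eq_div_mul, ← pow_add]
        have h4 := hr p
        have e : n - m + (m - r p) = n - r p := by omega
        rw [e]
        exact h2 p hp1 (by omega) hp3 hp4
    rw [h3]
    exact emp_le_one _ _

lemma pe_nonneg (n : ℕ) : 0 ≤ pe g z0 t A S c r n := by
  unfold pe
  have : 0 ≤ ∑ u ∈ range (g ^ n), emp g z0 t A S c r n u := Finset.sum_nonneg fun u _ => emp_nonneg n u
  positivity

lemma pe_base (hg : 2 ≤ g) (hA : A < g ^ t) {n : ℕ} (htn : t ≤ n) (hn : n ≤ z0) :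
    pe g z0 t A S c r n = ((g : ℝ) ^ t)⁻¹ := by
  classical
  unfold pe
  have hgr : (0 : ℝ) < g := by exact_mod_cast (by omega : 0 < g)
  have e : n = t + (n - t) := by omega
  have h1 : ∑ u ∈ range (g ^ n), emp g z0 t A S c r n u =
      ∑ u ∈ range (g ^ (t + (n - t))), (fun a => if a = A then (1 : ℝ) else 0) (u / g ^ (n - t)) := by
    rw [← e]
    refine Finset.sum_congr rfl fun u _ => ?_
    unfold emp
    by_cases h : u / g ^ (n - t) = A
    · rw [if_pos ⟨h, fun p hp1 hp2 => by omega⟩]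
      simp only
      rw [if_pos h]
    · rw [if_neg fun h1 => h h1.1]
      simp only
      rw [if_neg h]
  rw [h1, rep g t (n - t) (fun a => if a = A then (1 : ℝ) else 0), Finset.sum_ite_eq',
    if_pos (mem_range.2 hA), mul_one]
  nth_rewrite 2 [e]
  rw [pow_add]
  have h2 : (0 : ℝ) < (g : ℝ) ^ t := by positivity
  have h3 : (0 : ℝ) < (g : ℝ) ^ (n - t) := by positivity
  field_simp

lemma pe_mono (hg : 2 ≤ g) (hr : ∀ p, r p ≤ p) {m n : ℕ} (htm : t ≤ m) (hmn : m ≤ n) :
    pe g z0 t A S c r n ≤ pe g z0 t A S c r m := by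
  unfold pe
  have hgr : (0 : ℝ) < g := by exact_mod_cast (by omega : 0 < g)
  obtain ⟨d, rfl⟩ := Nat.exists_eq_add_of_le hmn
  have h1 := rep g m d (fun u => emp g z0 t A S c r m u)
  have h2 : ∑ u ∈ range (g ^ (m + d)), emp g z0 t A S c r (m + d) u ≤
      (g : ℝ) ^ d * ∑ u ∈ range (g ^ m), emp g z0 t A S c r m u := by
    rw [← h1]
    refine Finset.sum_le_sum fun u _ => ?_
    have := emp_mono (g := g) (z0 := z0) (A := A) (S := S) (c := c) hr htm hmn u
    rwa [Nat.add_sub_cancel_left] at this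
  have h3 : (0 : ℝ) < (g : ℝ) ^ m := by positivity
  have h4 : (0 : ℝ) < (g : ℝ) ^ d := by positivity
  calc _ ≤ ((g : ℝ) ^ d * ∑ u ∈ range (g ^ m), emp g z0 t A S c r m u) * ((g : ℝ) ^ (m + d))⁻¹ :=
        mul_le_mul_of_nonneg_right h2 (by positivity)
    _ = _ := by rw [pow_add]; field_simp

/-- the next integer is not an index -/
lemma pe_skip (hg : 2 ≤ g) {n : ℕ} (htn : t ≤ n) (hr : ∀ p, r p ≤ p)
    (hn : ¬ ((n + 1).Prime ∧ n + 1 ∈ S)) :
    pe g z0 t A S c r n ≤ pe g z0 t A S c r (n + 1) := by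
  unfold pe
  have hgr : (0 : ℝ) < g := by exact_mod_cast (by omega : 0 < g)
  have h1 := rep g n 1 (fun u => emp g z0 t A S c r n u)
  rw [pow_one, pow_one] at h1
  have h2 : ∑ u ∈ range (g ^ (n + 1)), emp g z0 t A S c r n (u / g) ≤
      ∑ u ∈ range (g ^ (n + 1)), emp g z0 t A S c r (n + 1) u := by
    refine Finset.sum_le_sum fun u _ => ?_
    by_cases h : emp g z0 t A S c r n (u / g) = 0
    · rw [h]
      exact emp_nonneg _ _
    · obtain ⟨h3, h4⟩ := emp_one h
      have h5 : emp g z0 t A S c r (n + 1) u = 1 := by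
        unfold emp
        rw [if_pos]
        refine ⟨?_, fun p hp1 hp2 hp3 hp4 => ?_⟩
        · rw [← h3, Nat.div_div_eq_div_mul, ← pow_succ']
          congr 2
          omega
        · rcases Nat.lt_or_ge n p with h6 | h6
          · have : p = n + 1 := by omega
            subst this
            exact absurd ⟨hp3, hp4⟩ hn
          · have h7 := h4 p hp1 h6 hp3 hp4
            rw [Nat.div_div_eq_div_mul, ← pow_succ'] at h7
            have h8 := hr p
            have e : n - r p + 1 = n + 1 - r p := by omega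
            rwa [e] at h7
      rw [h5]
      exact emp_le_one _ _
  rw [h1] at h2
  have h3 : (0 : ℝ) < (g : ℝ) ^ n := by positivity
  calc _ = (g * ∑ u ∈ range (g ^ n), emp g z0 t A S c r n u) * ((g : ℝ) ^ (n + 1))⁻¹ := by
        rw [pow_succ]
        field_simp
    _ ≤ _ := mul_le_mul_of_nonneg_right h2 (by positivity)

/-- the next integer is an index -/
lemma pe_step (hg : 2 ≤ g) {n m : ℕ} (htm : t ≤ m) (hmn : m ≤ n) (hr : ∀ p, r p ≤ p)
    (hmr : m ≤ r (n + 1)) (hA : 1 ≤ A) {B : ℝ} (hB : ∀ v < g ^ m, 1 ≤ v →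
      ∑ y ∈ range (g ^ (r (n + 1) - m)), rpi (n + 1) (c (n + 1) + (v * g ^ (r (n + 1) - m) + y)) ≤
        B * (g : ℝ) ^ (r (n + 1) - m)) :
    pe g z0 t A S c r n - B * pe g z0 t A S c r m ≤ pe g z0 t A S c r (n + 1) := by
  unfold pe
  have hgr : (0 : ℝ) < g := by exact_mod_cast (by omega : 0 < g)
  obtain ⟨q, hq⟩ : ∃ q, q = n + 1 := ⟨_, rfl⟩
  have h1 := rep g n 1 (fun u => emp g z0 t A S c r n u)
  rw [pow_one, pow_one, ← hq] at h1
  rw [← hq] at hmr hB ⊢
  have hrq := hr q
  -- pointwise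
  have h2 : ∀ u, emp g z0 t A S c r n (u / g) - emp g z0 t A S c r m (u / g ^ (q - m)) *
      rpi q (c q + u / g ^ (q - r q)) ≤ emp g z0 t A S c r q u := by
    intro u
    by_cases h : emp g z0 t A S c r n (u / g) = 0
    · rw [h]
      have a1 := emp_nonneg (g := g) (z0 := z0) (t := t) (A := A) (S := S) (c := c) (r := r) m
        (u / g ^ (q - m))
      have a2 := rpi_nonneg q (c q + u / g ^ (q - r q))
      have a3 := emp_nonneg (g := g) (z0 := z0) (t := t) (A := A) (S := S) (c := c) (r := r) q u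
      have := mul_nonneg a1 a2
      linarith
    · obtain ⟨h3, h4⟩ := emp_one h
      have h5 := emp_mono (g := g) (z0 := z0) (A := A) (S := S) (c := c) hr htm hmn (u / g)
      have e0 : u / g / g ^ (n - m) = u / g ^ (q - m) := by
        rw [Nat.div_div_eq_div_mul, ← pow_succ', hq]
        congr 2
        omega
      rw [e0] at h5
      have h6 : emp g z0 t A S c r n (u / g) = 1 := by
        unfold emp
        rw [if_pos ⟨h3, h4⟩]
      have h7 : emp g z0 t A S c r m (u / g ^ (q - m)) = 1 := by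
        have := emp_le_one (g := g) (z0 := z0) (t := t) (A := A) (S := S) (c := c) (r := r) m
          (u / g ^ (q - m))
        linarith
      rw [h6, h7, one_mul]
      by_cases hp : (roughPart q (c q + u / g ^ (q - r q))).Prime
      · have h8 : rpi q (c q + u / g ^ (q - r q)) = 1 := by
          unfold rpi
          rw [if_pos hp]
        rw [h8, sub_self]
        exact emp_nonneg _ _
      · have h8 : rpi q (c q + u / g ^ (q - r q)) = 0 := by
          unfold rpi
          rw [if_neg hp]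
        have h9 : emp g z0 t A S c r q u = 1 := by
          unfold emp
          rw [if_pos]
          refine ⟨?_, fun p hp1 hp2 hp3 hp4 => ?_⟩
          · rw [← h3, Nat.div_div_eq_div_mul, ← pow_succ', hq]
            congr 2
            omega
          · rcases Nat.lt_or_ge n p with h10 | h10
            · have : p = q := by omega
              subst this
              exact hp
            · have h11 := h4 p hp1 h10 hp3 hp4
              rw [Nat.div_div_eq_div_mul, ← pow_succ'] at h11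
              have h12 := hr p
              have e : n - r p + 1 = q - r p := by omega
              rwa [e] at h11
        rw [h8, h9]
        norm_num
  have h3 : ∑ u ∈ range (g ^ q), emp g z0 t A S c r m (u / g ^ (q - m)) *
      rpi q (c q + u / g ^ (q - r q)) ≤
      B * (g : ℝ) ^ (q - m) * ∑ u ∈ range (g ^ m), emp g z0 t A S c r m u := by
    have e1 : q = (m + (r q - m)) + (q - r q) := by omega
    have h4 := rep g (m + (r q - m)) (q - r q)
      (fun u => emp g z0 t A S c r m (u / g ^ (r q - m)) * rpi q (c q + u))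
    rw [← e1] at h4
    have e2 : ∀ u, u / g ^ (q - r q) / g ^ (r q - m) = u / g ^ (q - m) := by
      intro u
      rw [Nat.div_div_eq_div_mul, ← pow_add]
      congr 2
      omega
    simp only [e2] at h4
    rw [h4, pow_add, split]
    have h5 : ∀ v ∈ range (g ^ m), ∑ y ∈ range (g ^ (r q - m)),
        emp g z0 t A S c r m ((v * g ^ (r q - m) + y) / g ^ (r q - m)) *
          rpi q (c q + (v * g ^ (r q - m) + y)) ≤
        emp g z0 t A S c r m v * (B * (g : ℝ) ^ (r q - m)) := by
      intro v hv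
      have h6 : ∑ y ∈ range (g ^ (r q - m)),
          emp g z0 t A S c r m ((v * g ^ (r q - m) + y) / g ^ (r q - m)) *
            rpi q (c q + (v * g ^ (r q - m) + y)) =
          emp g z0 t A S c r m v * ∑ y ∈ range (g ^ (r q - m)), rpi q (c q + (v * g ^ (r q - m) + y)) := by
        rw [Finset.mul_sum]
        refine Finset.sum_congr rfl fun y hy => ?_
        rw [div_add (mem_range.1 hy)]
      rw [h6]
      rcases eq_or_ne (emp g z0 t A S c r m v) 0 with h0 | h0
      · rw [h0, zero_mul, zero_mul]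
      · refine mul_le_mul_of_nonneg_left (hB v (mem_range.1 hv) ?_) (emp_nonneg _ _)
        have h7 := (emp_one h0).1
        rcases Nat.eq_zero_or_pos v with h8 | h8
        · rw [h8, Nat.zero_div] at h7
          omega
        · exact h8
    have h6 : (0 : ℝ) < (g : ℝ) ^ (q - r q) := by positivity
    calc _ ≤ (g : ℝ) ^ (q - r q) * ∑ v ∈ range (g ^ m),
          emp g z0 t A S c r m v * (B * (g : ℝ) ^ (r q - m)) :=
          mul_le_mul_of_nonneg_left (Finset.sum_le_sum h5) h6.le
      _ = B * ((g : ℝ) ^ (r q - m) * (g : ℝ) ^ (q - r q)) *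
          ∑ v ∈ range (g ^ m), emp g z0 t A S c r m v := by
          rw [← Finset.sum_mul]; ring
      _ = _ := by
          rw [← pow_add]
          congr 3
          omega
  have h4 : ∑ u ∈ range (g ^ q), (emp g z0 t A S c r n (u / g) -
      emp g z0 t A S c r m (u / g ^ (q - m)) * rpi q (c q + u / g ^ (q - r q))) ≤
      ∑ u ∈ range (g ^ q), emp g z0 t A S c r q u := Finset.sum_le_sum fun u _ => h2 u
  rw [Finset.sum_sub_distrib, h1] at h4
  have e1 : (g : ℝ) ^ q = (g : ℝ) ^ n * g := by rw [hq, pow_succ]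
  have e2 : (g : ℝ) ^ q = (g : ℝ) ^ m * (g : ℝ) ^ (q - m) := by
    rw [← pow_add]
    congr 1
    omega
  have hn0 : (0 : ℝ) < (g : ℝ) ^ n := by positivity
  have hm0 : (0 : ℝ) < (g : ℝ) ^ m := by positivity
  have hqm0 : (0 : ℝ) < (g : ℝ) ^ (q - m) := by positivity
  have hq0 : (0 : ℝ) < (g : ℝ) ^ q := by positivity
  obtain ⟨E1, hE1⟩ : ∃ E1, E1 = ∑ u ∈ range (g ^ n), emp g z0 t A S c r n u := ⟨_, rfl⟩
  obtain ⟨E2, hE2⟩ : ∃ E2, E2 = ∑ u ∈ range (g ^ m), emp g z0 t A S c r m u := ⟨_, rfl⟩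
  rw [← hE2] at h3
  rw [← hE1] at h4
  rw [← hE1, ← hE2]
  have h5 : (g * E1 - B * (g : ℝ) ^ (q - m) * E2) * ((g : ℝ) ^ q)⁻¹ ≤
      (∑ u ∈ range (g ^ q), emp g z0 t A S c r q u) * ((g : ℝ) ^ q)⁻¹ :=
    mul_le_mul_of_nonneg_right (by linarith) (by positivity)
  refine le_trans (le_of_eq ?_) h5
  have e3 : g * E1 * ((g : ℝ) ^ q)⁻¹ = E1 * ((g : ℝ) ^ n)⁻¹ := by
    rw [e1]
    field_simp
  have e4 : B * (g : ℝ) ^ (q - m) * E2 * ((g : ℝ) ^ q)⁻¹ = B * (E2 * ((g : ℝ) ^ m)⁻¹) := by
    rw [e2]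
    field_simp
  rw [sub_mul, e3, e4]

end

/-- a recursive inequality -/
lemma rec_low {a : ℕ → ℝ} {ε : ℝ} (hε0 : 0 ≤ ε) (hε : ε ≤ 1 / 32) (ha : ∀ j, 0 ≤ a j)
    (h : ∀ j, a j - ε * a (j - 4) ≤ a (j + 1)) (J : ℕ) : Real.exp (-(4 * ε * J)) * a 0 ≤ a J := by
  have h1 : ∀ j, (1 - 2 * ε) * a j ≤ a (j + 1) := by
    intro j
    induction j using Nat.strong_induction_on with
    | _ j ih =>
      have h2 : ∀ i, i ≤ 4 → i ≤ j → (1 - 2 * ε) ^ i * a (j - i) ≤ a j := by
        intro i
        induction i with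
        | zero => intro _ _; simp
        | succ i ih2 =>
          intro h3 h4
          have h5 := ih2 (by omega) (by omega)
          have h6 := ih (j - (i + 1)) (by omega)
          have e : j - (i + 1) + 1 = j - i := by omega
          rw [e] at h6
          have h7 : 0 ≤ 1 - 2 * ε := by linarith
          calc (1 - 2 * ε) ^ (i + 1) * a (j - (i + 1)) =
                (1 - 2 * ε) ^ i * ((1 - 2 * ε) * a (j - (i + 1))) := by ring
            _ ≤ (1 - 2 * ε) ^ i * a (j - i) := mul_le_mul_of_nonneg_left h6 (by positivity)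
            _ ≤ a j := h5
      have h3 : a (j - 4) ≤ 2 * a j := by
        have h7 : 0 ≤ 1 - 2 * ε := by linarith
        have h8 : (15 / 16 : ℝ) ≤ 1 - 2 * ε := by linarith
        have h9 : (1 / 2 : ℝ) ≤ (1 - 2 * ε) ^ 4 := by
          calc (1 / 2 : ℝ) ≤ (15 / 16) ^ 4 := by norm_num
            _ ≤ _ := pow_le_pow_left₀ (by norm_num) h8 4
        rcases Nat.lt_or_ge j 4 with h4 | h4
        · have h5 := h2 j h4.le le_rfl
          rw [Nat.sub_self] at h5
          have e : j - 4 = 0 := by omega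
          rw [e]
          have h10 : (1 - 2 * ε) ^ 4 ≤ (1 - 2 * ε) ^ j :=
            pow_le_pow_of_le_one h7 (by linarith) h4.le
          have h11 : 1 / 2 * a 0 ≤ (1 - 2 * ε) ^ j * a 0 :=
            mul_le_mul_of_nonneg_right (h9.trans h10) (ha 0)
          linarith
        · have h5 := h2 4 le_rfl h4
          have h11 : 1 / 2 * a (j - 4) ≤ (1 - 2 * ε) ^ 4 * a (j - 4) :=
            mul_le_mul_of_nonneg_right h9 (ha _)
          linarith
      have h4 := h j
      have h5 : ε * a (j - 4) ≤ ε * (2 * a j) := mul_le_mul_of_nonneg_left h3 hε0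
      linarith
  have h2 : Real.exp (-(4 * ε)) ≤ 1 - 2 * ε := by
    have h3 : Real.exp (4 * ε) * (1 - 2 * ε) ≥ 1 := by
      have h4 := Real.add_one_le_exp (4 * ε)
      nlinarith
    rw [Real.exp_neg, inv_le_iff_one_le_mul₀ (Real.exp_pos _)]
    linarith
  induction J with
  | zero => simp
  | succ J ih =>
    have e : Real.exp (-(4 * ε * (J + 1 : ℕ))) = Real.exp (-(4 * ε)) * Real.exp (-(4 * ε * J)) := by
      rw [← Real.exp_add]
      push_cast
      ring_nf
    rw [e]
    calc Real.exp (-(4 * ε)) * Real.exp (-(4 * ε * J)) * a 0 =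
          Real.exp (-(4 * ε)) * (Real.exp (-(4 * ε * J)) * a 0) := by ring
      _ ≤ Real.exp (-(4 * ε)) * a J := mul_le_mul_of_nonneg_left ih (Real.exp_pos _).le
      _ ≤ (1 - 2 * ε) * a J := mul_le_mul_of_nonneg_right h2 (ha J)
      _ ≤ _ := h1 J

/-- **Lower bound for the probability that there is no exponent.** -/
theorem low_main : ∃ C : ℝ, 0 < C ∧ ∀ g : ℕ, 2 ≤ g → ∀ (S : Set ℕ) (b : ℝ), 0 < b →
    C * b ≤ Real.log g → (∀ᶠ n : ℕ in atTop, VS S (2 * n) - VS S n ≤ b) →
    ∀ᶠ z0 : ℕ in atTop, ∀ s : ℝ, 31 / 32 ≤ s → s ≤ 1 →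
    ∀ w : ℕ → ℕ, (∀ p, 1 ≤ p → w p < g ^ (p - ⌊s * p⌋₊)) →
    ∀ t A J : ℕ, 16 * t ≤ z0 → 1 ≤ A → A < g ^ t →
    Real.exp (-(C * b / Real.log g * J)) * ((g : ℝ) ^ t)⁻¹ ≤
      pe g z0 t A S (fun p => w p * g ^ ⌊s * p⌋₊) (fun p => ⌊s * p⌋₊) (2 ^ J * z0) := by
  classical
  obtain ⟨c2, hc2, hup⟩ := upper_unif
  refine ⟨32 * c2, by positivity, fun g hg S b hb hbg hS => ?_⟩
  obtain ⟨P1, hP1⟩ := eventually_atTop.1 (hup g hg)
  obtain ⟨P2, hP2⟩ := eventually_atTop.1 hS
  have hgr : (2 : ℝ) ≤ g := by exact_mod_cast hg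
  obtain ⟨lg, hlg⟩ : ∃ lg, lg = Real.log g := ⟨_, rfl⟩
  have hlg0 : 0 < lg := by rw [hlg]; exact Real.log_pos (by linarith)
  rw [← hlg] at hP1 hbg ⊢
  filter_upwards [eventually_ge_atTop (P1 + P2 + 100)] with z0 hz0 s hs hs1 w hw t A J htz hA1 hAt
  obtain ⟨r, hr⟩ : ∃ r : ℕ → ℕ, r = fun p : ℕ => ⌊s * p⌋₊ := ⟨_, rfl⟩
  have hrp : ∀ p : ℕ, ⌊s * p⌋₊ = r p := fun p => by rw [hr]
  simp only [hrp] at hw ⊢
  obtain ⟨c, hc⟩ : ∃ c : ℕ → ℕ, c = fun p => w p * g ^ r p := ⟨_, rfl⟩
  rw [← hc]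
  have e0 : (fun p => r p) = r := rfl
  rw [e0]
  have hrle : ∀ p, r p ≤ p := by
    intro p
    rw [hr]
    refine Nat.floor_le_of_le ?_
    have : (0 : ℝ) ≤ p := Nat.cast_nonneg p
    nlinarith
  -- one prime
  have hone : ∀ q, z0 < q → q.Prime → q ∈ S →
      pe g z0 t A S c r (q - 1) - c2 * (wt q / lg) * pe g z0 t A S c r (q / 16) ≤
        pe g z0 t A S c r q := by
    intro q hq hqp _
    obtain ⟨n, rfl⟩ : ∃ n, q = n + 1 := ⟨q - 1, by omega⟩
    rw [Nat.add_sub_cancel]
    obtain ⟨m, hm⟩ : ∃ m, m = (n + 1) / 16 := ⟨_, rfl⟩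
    rw [← hm]
    have hq100 : (100 : ℝ) ≤ ((n + 1 : ℕ) : ℝ) := by exact_mod_cast (by omega : 100 ≤ n + 1)
    have hmr : (m : ℝ) ≤ ((n + 1 : ℕ) : ℝ) / 16 := by rw [hm]; exact Nat.cast_div_le
    have hs2 : s * ((n + 1 : ℕ) : ℝ) < r (n + 1) + 1 := by rw [hr]; exact Nat.lt_floor_add_one _
    have hs3 : 31 / 32 * ((n + 1 : ℕ) : ℝ) ≤ s * ((n + 1 : ℕ) : ℝ) :=
      mul_le_mul_of_nonneg_right hs (by linarith)
    have hmr2 : m ≤ r (n + 1) := by
      have : (m : ℝ) ≤ r (n + 1) := by linarith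
      exact_mod_cast this
    refine pe_step hg (by omega) (by omega) hrle hmr2 hA1 ?_
    intro v hv hv1
    have h1 := hP1 (n + 1) (by omega) (r (n + 1) - m) (c (n + 1) + v * g ^ (r (n + 1) - m)) (by
      rw [Nat.cast_sub hmr2]
      linarith) (by
      have : 1 ≤ v * g ^ (r (n + 1) - m) := Nat.mul_pos hv1 (by positivity)
      omega) (by
      have h2 : (v + 1) * g ^ (r (n + 1) - m) ≤ g ^ r (n + 1) := by
        calc (v + 1) * g ^ (r (n + 1) - m) ≤ g ^ m * g ^ (r (n + 1) - m) := Nat.mul_le_mul_right _ hv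
          _ = g ^ r (n + 1) := by rw [← pow_add, Nat.add_sub_cancel' hmr2]
      have h3 : (w (n + 1) + 1) * g ^ r (n + 1) ≤ g ^ (n + 1) := by
        have h4 := hw (n + 1) (by omega)
        calc (w (n + 1) + 1) * g ^ r (n + 1) ≤ g ^ (n + 1 - r (n + 1)) * g ^ r (n + 1) :=
              Nat.mul_le_mul_right _ h4
          _ = g ^ (n + 1) := by rw [← pow_add, Nat.sub_add_cancel (hrle _)]
      rw [hc]
      show w (n + 1) * g ^ r (n + 1) + v * g ^ (r (n + 1) - m) + g ^ (r (n + 1) - m) ≤ g ^ (n + 1)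
      nlinarith)
    refine le_trans (le_of_eq ?_) h1
    refine Finset.sum_congr rfl fun y _ => ?_
    rw [Nat.add_assoc]
  -- an interval
  have hint : ∀ M, z0 ≤ M → ∀ k, pe g z0 t A S c r M -
      c2 / lg * (VS S (M + k) - VS S M) * pe g z0 t A S c r (M / 16) ≤ pe g z0 t A S c r (M + k) := by
    intro M hM k
    have hpM := pe_nonneg (g := g) (z0 := z0) (t := t) (A := A) (S := S) (c := c) (r := r) (M / 16)
    have hc2l : 0 < c2 / lg := by positivity
    induction k with
    | zero => simp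
    | succ k ih =>
      by_cases hq : (M + k + 1).Prime ∧ (M + k + 1) ∈ S
      · have h1 := hone (M + k + 1) (by omega) hq.1 hq.2
        rw [Nat.add_sub_cancel] at h1
        have h2 : pe g z0 t A S c r ((M + k + 1) / 16) ≤ pe g z0 t A S c r (M / 16) :=
          pe_mono hg hrle (by omega) (Nat.div_le_div_right (by omega))
        have h3 : VS S (M + k + 1) = VS S (M + k) + wt (M + k + 1) := by
          unfold VS
          rw [Finset.sum_range_succ, if_pos ⟨hq.2, hq.1⟩]
        have h4 := wt_nonneg (M + k + 1)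
        have h5 : c2 * (wt (M + k + 1) / lg) * pe g z0 t A S c r ((M + k + 1) / 16) ≤
            c2 * (wt (M + k + 1) / lg) * pe g z0 t A S c r (M / 16) := by gcongr
        have e1 : M + (k + 1) = M + k + 1 := by omega
        rw [e1, h3]
        have e2 : c2 / lg * (VS S (M + k) + wt (M + k + 1) - VS S M) * pe g z0 t A S c r (M / 16) =
            c2 / lg * (VS S (M + k) - VS S M) * pe g z0 t A S c r (M / 16) +
              c2 * (wt (M + k + 1) / lg) * pe g z0 t A S c r (M / 16) := by ring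
        rw [e2]
        linarith
      · have h1 := pe_skip (g := g) (z0 := z0) (t := t) (A := A) (S := S) (c := c) (r := r) hg
          (n := M + k) (by omega) hrle hq
        have h3 : VS S (M + k + 1) = VS S (M + k) := by
          unfold VS
          rw [Finset.sum_range_succ, if_neg fun h => hq ⟨h.2, h.1⟩, add_zero]
        have e1 : M + (k + 1) = M + k + 1 := by omega
        rw [e1, h3]
        linarith
  obtain ⟨ε, hε⟩ : ∃ ε, ε = c2 * b / lg := ⟨_, rfl⟩
  have hε0 : 0 ≤ ε := by rw [hε]; positivity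
  have hε1 : ε ≤ 1 / 32 := by
    rw [hε, div_le_iff₀ hlg0]
    linarith
  have hbase : pe g z0 t A S c r (2 ^ 0 * z0) = ((g : ℝ) ^ t)⁻¹ := by
    rw [pow_zero, one_mul]
    exact pe_base hg hAt (by omega) le_rfl
  have hrec := rec_low (a := fun j => pe g z0 t A S c r (2 ^ j * z0)) hε0 hε1
    (fun j => pe_nonneg _) (by
      intro j
      have hM : z0 ≤ 2 ^ j * z0 := Nat.le_mul_of_pos_left _ (by positivity)
      obtain ⟨M, hMdef⟩ : ∃ M, M = 2 ^ j * z0 := ⟨_, rfl⟩
      rw [← hMdef] at hM ⊢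
      have h1 := hint M hM M
      have e1 : 2 ^ (j + 1) * z0 = M + M := by rw [hMdef]; ring
      have e2 : M + M = 2 * M := by ring
      have h2 := hP2 M (by omega)
      rw [← e2] at h2
      have h3 : pe g z0 t A S c r (M / 16) ≤ pe g z0 t A S c r (2 ^ (j - 4) * z0) := by
        rcases Nat.lt_or_ge j 4 with h4 | h4
        · have e3 : j - 4 = 0 := by omega
          rw [e3, hbase]
          have h5 : M / 16 ≤ z0 := by
            have h6 : 2 ^ j ≤ 2 ^ 4 := Nat.pow_le_pow_right (by norm_num) h4.le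
            have h7 : M ≤ 16 * z0 := by
              rw [hMdef]
              exact Nat.mul_le_mul_right _ (by simpa using h6)
            omega
          exact (pe_base hg hAt (by omega) h5).le
        · have e3 : M / 16 = 2 ^ (j - 4) * z0 := by
            have e4 : 2 ^ j = 2 ^ (j - 4) * 16 := by
              have : j = j - 4 + 4 := by omega
              nth_rewrite 1 [this]
              rw [pow_add]
              norm_num
            rw [hMdef, e4]
            have e5 : 2 ^ (j - 4) * 16 * z0 = 2 ^ (j - 4) * z0 * 16 := by ring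
            rw [e5, Nat.mul_div_cancel _ (by norm_num)]
          rw [e3]
      have h4 := pe_nonneg (g := g) (z0 := z0) (t := t) (A := A) (S := S) (c := c) (r := r) (M / 16)
      rw [e1]
      refine le_trans ?_ h1
      have h5 : c2 / lg * (VS S (M + M) - VS S M) * pe g z0 t A S c r (M / 16) ≤
          c2 / lg * b * pe g z0 t A S c r (M / 16) := by gcongr
      have h6 : c2 / lg * b * pe g z0 t A S c r (M / 16) ≤
          ε * pe g z0 t A S c r (2 ^ (j - 4) * z0) := by
        have e6 : c2 / lg * b = ε := by rw [hε]; ring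
        rw [e6]
        exact mul_le_mul_of_nonneg_left h3 hε0
      linarith) J
  rw [hbase] at hrec
  refine le_trans ?_ hrec
  refine mul_le_mul_of_nonneg_right (Real.exp_le_exp.2 ?_) (by positivity)
  have e1 : 32 * c2 * b / lg = 32 * ε := by rw [hε]; ring
  rw [e1]
  have hJ0 : (0 : ℝ) ≤ J := Nat.cast_nonneg J
  nlinarith [mul_nonneg hε0 hJ0]

end Pool.Agent.W157.MG
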